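import Mathlib
import Pool.Agent.Q86.Fitting

set_option autoImplicit false

namespace Pool.Agent.Q235.CP

open Filter Topology Polynomial
open Pool.Agent.Q86.Fitting

variable {H : Type*} [NormedAddCommGroup H] [InnerProductSpace ℂ H] [CompleteSpace H]

/-- invertible plus compact -/
def Fr (T : H →L[ℂ] H) : Prop := ∃ S : H →L[ℂ] H, IsUnit S ∧ IsCompactOperator (T - S)

omit [CompleteSpace H] in
theorem Fr.one : Fr (1 : H →L[ℂ] H) := ⟨1, isUnit_one, by
  rw [sub_self]; exact isCompactOperator_zero⟩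

omit [CompleteSpace H] in
theorem Fr.mul {T T' : H →L[ℂ] H} (h : Fr T) (h' : Fr T') : Fr (T * T') := by
  obtain ⟨S, hS, hC⟩ := h
  obtain ⟨S', hS', hC'⟩ := h'
  refine ⟨S * S', hS.mul hS', ?_⟩
  have e : T * T' - S * S' = (T - S) * T' + S * (T' - S') := by noncomm_ring
  rw [e]
  exact (hC.comp_clm T').add (hC'.clm_comp S)

omit [CompleteSpace H] in
theorem Fr.add_compact {T C : H →L[ℂ] H} (h : Fr T) (hC : IsCompactOperator C) : Fr (T + C) := by
  obtain ⟨S, hS, hC'⟩ := h
  refine ⟨S, hS, ?_⟩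
  have e : T + C - S = (T - S) + C := by abel
  rw [e]
  exact hC'.add hC

omit [CompleteSpace H] in
theorem Fr.factor {T : H →L[ℂ] H} (h : Fr T) :
    ∃ S C : H →L[ℂ] H, IsUnit S ∧ IsCompactOperator C ∧ T = S * (1 - C) := by
  obtain ⟨S, hS, hC⟩ := h
  obtain ⟨S', rfl⟩ := hS
  refine ⟨S', -((↑S'⁻¹ : H →L[ℂ] H) * (T - S')), S'.isUnit, ?_, ?_⟩
  · exact (hC.clm_comp (↑S'⁻¹ : H →L[ℂ] H)).neg
  · rw [sub_neg_eq_add, mul_add, mul_one, ← mul_assoc, Units.mul_inv, one_mul]
    abel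

theorem Fr.bijective {T : H →L[ℂ] H} (h : Fr T) (hinj : ∀ x, T x = 0 → x = 0) :
    Function.Bijective T := by
  obtain ⟨S, C, hS, hC, rfl⟩ := h.factor
  have hS' := (ContinuousLinearMap.isUnit_iff_bijective).1 hS
  have h1 : Function.Bijective (1 - C : H →L[ℂ] H) := by
    apply bijective_of_injective hC
    intro x hx
    apply hinj
    show S ((1 - C) x) = 0
    rw [hx, map_zero]
  exact hS'.comp h1

theorem Fr.isUnit {T : H →L[ℂ] H} (h : Fr T) (hinj : ∀ x, T x = 0 → x = 0) : IsUnit T :=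
  (ContinuousLinearMap.isUnit_iff_bijective).2 (h.bijective hinj)

theorem Fr.finiteDimensional_ker {T : H →L[ℂ] H} (h : Fr T) :
    FiniteDimensional ℂ (LinearMap.ker (T : H →ₗ[ℂ] H)) := by
  obtain ⟨S, C, hS, hC, hT⟩ := h.factor
  have hS' := (ContinuousLinearMap.isUnit_iff_bijective).1 hS
  apply Pool.Agent.Q86.Fitting.finiteDimensional_ker hC _ T.isClosed_ker
  intro x hx
  have hx' : T x = 0 := hx
  rw [hT] at hx'
  have h1 : S ((1 - C) x) = 0 := hx'
  have h2 : (1 - C) x = 0 := by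
    apply hS'.1
    rw [h1, map_zero]
  have h3 : x - C x = 0 := h2
  exact (sub_eq_zero.1 h3).symm

/-- `1 - (1+z) G` -/
noncomputable def TT (G : H →L[ℂ] H) (z : ℂ) : H →L[ℂ] H := 1 - (1 + z) • G

omit [CompleteSpace H] in
theorem TT_apply (G : H →L[ℂ] H) (z : ℂ) (x : H) : TT G z x = x - (1 + z) • G x := rfl

omit [CompleteSpace H] in
theorem TT_fr {B G : H →L[ℂ] H} (hGB : IsCompactOperator (G - B)) {z : ℂ}
    (hz : IsUnit (TT B z)) : Fr (TT G z) := by
  refine ⟨TT B z, hz, ?_⟩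
  have e : TT G z - TT B z = -((1 + z) • (G - B)) := by
    unfold TT
    rw [smul_sub]
    abel
  rw [e]
  exact (hGB.smul (1 + z)).neg

/-- the generalised eigenvectors for `z ∈ U` -/
def gset (G : H →L[ℂ] H) (U : Set ℂ) : Set H := {x | ∃ z ∈ U, ∃ n : ℕ, (TT G z ^ n) x = 0}

/-- the monoid of polynomials generated by `1 - (1+z) X` -/
noncomputable def PP (U : Set ℂ) : Submonoid ℂ[X] :=
  Submonoid.closure {p | ∃ z ∈ U, p = 1 - C (1 + z) * X}

omit [CompleteSpace H] in
theorem aeval_gen (G : H →L[ℂ] H) (z : ℂ) : aeval G (1 - C (1 + z) * X : ℂ[X]) = TT G z := by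
  unfold TT
  simp [Algebra.smul_def]

omit [CompleteSpace H] in
theorem PP_fr {B G : H →L[ℂ] H} (hGB : IsCompactOperator (G - B)) {U : Set ℂ}
    (hU : ∀ z ∈ U, IsUnit (TT B z)) {q : ℂ[X]} (hq : q ∈ PP U) : Fr (aeval G q) := by
  induction hq using Submonoid.closure_induction with
  | mem p hp =>
    obtain ⟨z, hz, rfl⟩ := hp
    rw [aeval_gen]
    exact TT_fr hGB (hU z hz)
  | one => rw [map_one]; exact Fr.one
  | mul p q _ _ h1 h2 => rw [map_mul]; exact h1.mul h2

theorem PP_root {U : Set ℂ} {q : ℂ[X]} (hq : q ∈ PP U) (μ : ℂ) (h : q.eval μ = 0) :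
    ∃ z ∈ U, (1 + z) * μ = 1 := by
  induction hq using Submonoid.closure_induction with
  | mem p hp =>
    obtain ⟨z, hz, rfl⟩ := hp
    refine ⟨z, hz, ?_⟩
    simp only [eval_sub, eval_one, eval_mul, eval_C, eval_X] at h
    exact (sub_eq_zero.1 h).symm
  | one => simp at h
  | mul p q _ _ h1 h2 =>
    rw [eval_mul] at h
    rcases mul_eq_zero.1 h with h | h
    · exact h1 h
    · exact h2 h

omit [CompleteSpace H] in
theorem exists_pol (G : H →L[ℂ] H) (U : Set ℂ) (x : H) (hx : x ∈ Submodule.span ℂ (gset G U)) :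
    ∃ q ∈ PP U, (aeval G q) x = 0 := by
  induction hx using Submodule.span_induction with
  | mem x hx =>
    obtain ⟨z, hz, n, hn⟩ := hx
    refine ⟨(1 - C (1 + z) * X) ^ n, ?_, ?_⟩
    · have h : (1 - C (1 + z) * X : ℂ[X]) ∈ PP U := Submonoid.subset_closure ⟨z, hz, rfl⟩
      exact pow_mem h n
    · rw [map_pow, aeval_gen]; exact hn
  | zero => exact ⟨1, one_mem (PP U), by rw [map_zero]⟩
  | add x y _ _ hx hy =>
    obtain ⟨q, hq, h1⟩ := hx
    obtain ⟨r, hr, h2⟩ := hy
    refine ⟨q * r, mul_mem hq hr, ?_⟩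
    have e1 : (aeval G (q * r)) x = 0 := by
      rw [mul_comm, map_mul]
      show (aeval G r) ((aeval G q) x) = 0
      rw [h1, map_zero]
    have e2 : (aeval G (q * r)) y = 0 := by
      rw [map_mul]
      show (aeval G q) ((aeval G r) y) = 0
      rw [h2, map_zero]
    rw [map_add, e1, e2, add_zero]
  | smul c x _ hx =>
    obtain ⟨q, hq, h1⟩ := hx
    exact ⟨q, hq, by rw [map_smul, h1, smul_zero]⟩

omit [CompleteSpace H] in
theorem exists_pol_all (G : H →L[ℂ] H) (U : Set ℂ)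
    [FiniteDimensional ℂ (Submodule.span ℂ (gset G U))] :
    ∃ q ∈ PP U, ∀ x ∈ Submodule.span ℂ (gset G U), (aeval G q) x = 0 := by
  classical
  set W := Submodule.span ℂ (gset G U) with hW
  let b := Module.finBasis ℂ W
  have h1 : ∀ i, ∃ q ∈ PP U, (aeval G q) (b i : H) = 0 := fun i =>
    exists_pol G U (b i) (b i).2
  choose q hq hqx using h1
  refine ⟨∏ i, q i, prod_mem fun i _ => hq i, ?_⟩
  intro x hx
  have h2 : ∀ i, (aeval G (∏ i, q i)) (b i : H) = 0 := by
    intro i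
    rw [← Finset.prod_erase_mul _ _ (Finset.mem_univ i), map_mul]
    show (aeval G (∏ x ∈ Finset.univ.erase i, q x)) ((aeval G (q i)) (b i : H)) = 0
    rw [hqx, map_zero]
  have h3 : x = ∑ i, (b.repr ⟨x, hx⟩ i) • (b i : H) := by
    have h4 : ((∑ i, (b.repr ⟨x, hx⟩) i • b i : W) : H) = x := by rw [b.sum_repr]
    rw [Submodule.coe_sum] at h4
    exact h4.symm
  rw [h3, map_sum]
  apply Finset.sum_eq_zero
  intro i _
  rw [map_smul, h2, smul_zero]

omit [CompleteSpace H] in
theorem eig_aeval (G : H →L[ℂ] H) (μ : ℂ) (y : H) (hy : G y = μ • y) (q : ℂ[X]) :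
    (aeval G q) y = (q.eval μ) • y := by
  induction q using Polynomial.induction_on' with
  | add p q hp hq => rw [map_add, add_apply, hp, hq, eval_add, add_smul]
  | monomial n a =>
    rw [aeval_monomial, eval_monomial, ← Algebra.smul_def]
    have : ∀ n : ℕ, (G ^ n) y = μ ^ n • y := by
      intro n
      induction n with
      | zero => simp
      | succ n ih =>
        rw [pow_succ]
        show (G ^ n) (G y) = _
        rw [hy, map_smul, ih, smul_smul, pow_succ, mul_comm]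
    show a • (G ^ n) y = _
    rw [this, smul_smul]

omit [CompleteSpace H] in
theorem gen_mem (G : H →L[ℂ] H) (U : Set ℂ) (μ : ℂ) (z : ℂ) (hz : z ∈ U) (hμ : (1 + z) * μ = 1)
    (x : H) (k : ℕ) (hx : ((G - μ • (1 : H →L[ℂ] H)) ^ k) x = 0) : x ∈ gset G U := by
  refine ⟨z, hz, k, ?_⟩
  have e : TT G z = (-(1 + z)) • (G - μ • (1 : H →L[ℂ] H)) := by
    unfold TT
    rw [smul_sub, smul_smul, neg_mul, hμ, neg_smul, neg_smul, one_smul]
    abel
  rw [e, _root_.smul_pow]
  show (-(1 + z)) ^ k • ((G - μ • (1 : H →L[ℂ] H)) ^ k) x = 0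
  rw [hx, smul_zero]

omit [CompleteSpace H] in
theorem pow_val {K : Submodule ℂ H} (G : H →L[ℂ] H)
    (hK : ∀ x ∈ K, (G : H →ₗ[ℂ] H) x ∈ K) (μ : ℂ) (n : ℕ) (x : K) :
    ((((((G : H →ₗ[ℂ] H).restrict hK) - algebraMap ℂ (Module.End ℂ K) μ) ^ n) x : K) : H) =
      ((G - μ • (1 : H →L[ℂ] H)) ^ n) (x : H) := by
  induction n generalizing x with
  | zero => simp
  | succ n ih =>
    rw [pow_succ, pow_succ]
    show (((((((G : H →ₗ[ℂ] H).restrict hK) - algebraMap ℂ (Module.End ℂ K) μ) ^ n)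
      (((((G : H →ₗ[ℂ] H).restrict hK) - algebraMap ℂ (Module.End ℂ K) μ)) x) : K) : H)) = 
      ((G - μ • (1 : H →L[ℂ] H)) ^ n) ((G - μ • (1 : H →L[ℂ] H)) (x : H))
    rw [ih]
    rfl

theorem ker_sub {B G : H →L[ℂ] H} (hGB : IsCompactOperator (G - B)) {U : Set ℂ}
    (hU : ∀ z ∈ U, IsUnit (TT B z)) {q : ℂ[X]} (hq : q ∈ PP U) (x : H) (hx : (aeval G q) x = 0) :
    x ∈ Submodule.span ℂ (gset G U) := by
  set N : H →L[ℂ] H := aeval G q with hN
  let K : Submodule ℂ H := LinearMap.ker (N : H →ₗ[ℂ] H)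
  have : FiniteDimensional ℂ K := (PP_fr hGB hU hq).finiteDimensional_ker
  have hcomm : Commute G N := by
    rw [hN]
    have := Commute.all (X : ℂ[X]) q
    have h2 := this.map (aeval G (R := ℂ))
    rwa [aeval_X] at h2
  have hK : ∀ x ∈ K, (G : H →ₗ[ℂ] H) x ∈ K := by
    intro x hx
    have h1 : N x = 0 := hx
    show N (G x) = 0
    have h2 : (N * G) x = (G * N) x := by rw [hcomm.eq]
    have h3 : N (G x) = G (N x) := h2
    rw [h3, h1, map_zero]
  let f : Module.End ℂ K := (G : H →ₗ[ℂ] H).restrict hK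
  have htop := Module.End.iSup_maxGenEigenspace_eq_top f
  have hle : ∀ μ, f.maxGenEigenspace μ ≤ (Submodule.span ℂ (gset G U)).comap K.subtype := by
    intro μ x hx
    rw [Submodule.mem_comap]
    obtain ⟨k, hk⟩ := (Module.End.mem_maxGenEigenspace f μ x).1 hx
    by_cases hx0 : x = 0
    · rw [hx0, map_zero]; exact zero_mem _
    have hev : f.HasEigenvalue μ := by
      have h5 : (Module.End.genEigenspace f μ (k : ℕ∞)) ≠ ⊥ := by
        intro hb
        apply hx0
        have : x ∈ (Module.End.genEigenspace f μ (k : ℕ∞)) := by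
          rw [Module.End.mem_genEigenspace_nat, LinearMap.mem_ker]
          exact hk
        rw [hb] at this
        exact (Submodule.mem_bot ℂ).1 this
      exact Module.End.hasEigenvalue_of_hasGenEigenvalue (k := k) h5
    obtain ⟨y, hy⟩ := hev.exists_hasEigenvector
    have hy1 : G (y : H) = μ • (y : H) := by
      have := congrArg Subtype.val hy.apply_eq_smul
      exact this
    have hy0 : (y : H) ≠ 0 := fun h => hy.2 (Subtype.ext h)
    have hy2 : N (y : H) = 0 := y.2
    rw [hN, eig_aeval G μ _ hy1] at hy2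
    have hq0 := (smul_eq_zero.1 hy2).resolve_right hy0
    obtain ⟨z, hz, hzμ⟩ := PP_root hq μ hq0
    apply Submodule.subset_span
    apply gen_mem G U μ z hz hzμ (x : H) k
    rw [← pow_val G hK]
    have : (((G : H →ₗ[ℂ] H).restrict hK - algebraMap ℂ (Module.End ℂ K) μ) ^ k) x = 0 := by
      exact hk
    rw [this]
    rfl
  have hall : (⊤ : Submodule ℂ K) ≤ (Submodule.span ℂ (gset G U)).comap K.subtype := by
    rw [← htop]
    exact iSup_le hle
  exact hall (show (⟨x, hx⟩ : K) ∈ ⊤ from trivial)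

omit [CompleteSpace H] in
theorem gset_inv (G : H →L[ℂ] H) (U : Set ℂ) (x : H) (hx : x ∈ Submodule.span ℂ (gset G U)) :
    G x ∈ Submodule.span ℂ (gset G U) := by
  induction hx using Submodule.span_induction with
  | mem x hx =>
    obtain ⟨z, hz, n, hn⟩ := hx
    apply Submodule.subset_span
    refine ⟨z, hz, n, ?_⟩
    have hc : Commute G (TT G z ^ n) := by
      apply Commute.pow_right
      unfold TT
      exact (Commute.one_right G).sub_right ((Commute.refl G).smul_right (1 + z))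
    have h1 : (TT G z ^ n * G) x = (G * TT G z ^ n) x := by rw [hc.eq]
    have h2 : (TT G z ^ n) (G x) = G ((TT G z ^ n) x) := h1
    rw [h2, hn, map_zero]
  | zero => rw [map_zero]; exact zero_mem _
  | add x y _ _ h1 h2 => rw [map_add]; exact add_mem h1 h2
  | smul c x _ h => rw [map_smul]; exact Submodule.smul_mem _ c h

/-- the spectral projection -/
theorem decomp {B G : H →L[ℂ] H} (hGB : IsCompactOperator (G - B)) {U : Set ℂ}
    (hU : ∀ z ∈ U, IsUnit (TT B z)) [FiniteDimensional ℂ (Submodule.span ℂ (gset G U))] :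
    ∃ Q : H →L[ℂ] H, IsCompactOperator Q ∧ (∀ y, Q y ∈ Submodule.span ℂ (gset G U)) ∧
      (∀ y ∈ Submodule.span ℂ (gset G U), Q y = y) ∧ ∀ y, Q (G y) = G (Q y) := by
  set W := Submodule.span ℂ (gset G U) with hW
  obtain ⟨q, hq, hqW⟩ := exists_pol_all G U
  set N : H →L[ℂ] H := aeval G q with hN
  have hN1 : ∀ x ∈ W, N x = 0 := hqW
  have hN2 : ∀ x, N (N x) = 0 → N x = 0 := by
    intro x hx
    apply hN1
    apply ker_sub hGB hU (mul_mem hq hq)
    rw [map_mul]
    exact hx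
  let P : H →L[ℂ] H := W.starProjection
  have hPc : IsCompactOperator P := isCompact_starProjection W
  have hPW : ∀ x, P x ∈ W := fun x => W.starProjection_apply_mem x
  have hP1 : ∀ x ∈ W, P x = x := fun x hx => W.starProjection_eq_self_iff.2 hx
  have hunit : IsUnit (N + P) := by
    apply ((PP_fr hGB hU hq).add_compact hPc).isUnit
    intro x hx
    have h1 : N x + P x = 0 := hx
    have h2 : N x = -P x := eq_neg_of_add_eq_zero_left h1
    have h3 : N (N x) = 0 := by rw [h2, map_neg, hN1 _ (hPW x), neg_zero]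
    have h4 := hN2 x h3
    have h5 : x ∈ W := ker_sub hGB hU hq x h4
    rw [h4, zero_add, hP1 x h5] at h1
    exact h1
  obtain ⟨R, hR⟩ := hunit
  have hRinv : ∀ y, N ((↑R⁻¹ : H →L[ℂ] H) y) + P ((↑R⁻¹ : H →L[ℂ] H) y) = y := by
    intro y
    have h1 : ((R : H →L[ℂ] H) * (↑R⁻¹ : H →L[ℂ] H)) y = y := by rw [R.mul_inv]; rfl
    rw [hR] at h1
    exact h1
  have huniq : ∀ a b, b ∈ W → P ((↑R⁻¹ : H →L[ℂ] H) (N a + b)) = b := by
    intro a b hb
    set x := (↑R⁻¹ : H →L[ℂ] H) (N a + b) with hx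
    have h1 : N x + P x = N a + b := hRinv _
    have h2 : N (x - a) = b - P x := by
      rw [map_sub, sub_eq_sub_iff_add_eq_add, h1]
      abel
    have h3 : N (N (x - a)) = 0 := by
      rw [h2]
      exact hN1 _ (sub_mem hb (hPW x))
    have h4 := hN2 _ h3
    rw [h2] at h4
    exact (sub_eq_zero.1 h4).symm
  refine ⟨P * (↑R⁻¹ : H →L[ℂ] H), hPc.comp_clm _, fun y => hPW _, ?_, ?_⟩
  · intro y hy
    have := huniq 0 y hy
    rw [map_zero, zero_add] at this
    exact this
  · intro y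
    have h1 := hRinv y
    set x := (↑R⁻¹ : H →L[ℂ] H) y with hx
    have hcomm : G (N x) = N (G x) := by
      have hc := (Commute.all (X : ℂ[X]) q).map (aeval G (R := ℂ))
      rw [aeval_X] at hc
      have h2 : (G * N) x = (N * G) x := by rw [hN, hc.eq]
      exact h2
    have h2 : G y = N (G x) + G (P x) := by
      rw [← hcomm, ← map_add, h1]
    show P ((↑R⁻¹ : H →L[ℂ] H) (G y)) = G (P x)
    rw [h2]
    exact huniq _ _ (gset_inv G U _ (hPW x))

/-- the main abstract theorem: if the total algebraic multiplicity in `U` is too small, then for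
some `v ∈ F` the equation `(1 - (1+z) G) w = G v` has an analytic solution in `U`. -/
theorem abs_main {B G : H →L[ℂ] H} (hGB : IsCompactOperator (G - B)) {U : Set ℂ}
    (hU : ∀ z ∈ U, IsUnit (TT B z)) [FiniteDimensional ℂ (Submodule.span ℂ (gset G U))]
    (F : Submodule ℂ H) [FiniteDimensional ℂ F]
    (hF : Module.finrank ℂ (Submodule.span ℂ (gset G U)) < Module.finrank ℂ F) :
    ∃ v ∈ F, v ≠ 0 ∧ ∃ w : ℂ → H, ∀ z ∈ U, DifferentiableAt ℂ w z ∧ TT G z (w z) = G v := by
  obtain ⟨Q, hQc, hQW, hQ1, hQG⟩ := decomp hGB hU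
  set W := Submodule.span ℂ (gset G U) with hW
  let L : F →ₗ[ℂ] W := ((Q : H →ₗ[ℂ] H).domRestrict F).codRestrict W (fun x => hQW x)
  have hker : LinearMap.ker L ≠ ⊥ := LinearMap.ker_ne_bot_of_finrank_lt hF
  obtain ⟨v, hv, hv0⟩ := Submodule.exists_mem_ne_zero_of_ne_bot hker
  have hQv : Q (v : H) = 0 := congrArg Subtype.val (LinearMap.mem_ker.1 hv)
  refine ⟨v, v.2, fun h => hv0 (Subtype.ext h), ?_⟩
  have hQQ : ∀ y, Q (Q y) = Q y := fun y => hQ1 _ (hQW y)
  let G' : H →L[ℂ] H := G * (1 - Q)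
  have hG'G : IsCompactOperator (G' - G) := by
    have e : G' - G = -(G * Q) := by
      show G * (1 - Q) - G = _
      noncomm_ring
    rw [e]
    exact (hQc.clm_comp G).neg
  have hG'B : IsCompactOperator (G' - B) := by
    have e : G' - B = (G' - G) + (G - B) := by abel
    rw [e]
    exact hG'G.add hGB
  have hG'a : ∀ y, G' y = G (y - Q y) := fun y => rfl
  have hQG' : ∀ y, Q (G' y) = 0 := by
    intro y
    rw [hG'a, hQG, map_sub, hQQ, sub_self, map_zero]
  have hunit : ∀ z ∈ U, IsUnit (TT G' z) := by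
    intro z hz
    apply (TT_fr hG'B (hU z hz)).isUnit
    intro x hx
    rw [TT_apply] at hx
    have h1 : Q x = 0 := by
      have := congrArg Q hx
      rw [map_sub, map_smul, hQG', smul_zero, sub_zero, map_zero] at this
      exact this
    have h2 : G' x = G x := by rw [hG'a, h1, sub_zero]
    rw [h2] at hx
    have h3 : x ∈ W := by
      apply Submodule.subset_span
      refine ⟨z, hz, 1, ?_⟩
      rw [pow_one]
      exact hx
    rw [← hQ1 x h3]
    exact h1
  refine ⟨fun z => Ring.inverse (TT G' z) (G v), ?_⟩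
  intro z hz
  obtain ⟨R, hR⟩ := hunit z hz
  constructor
  · have h1 : DifferentiableAt ℂ (fun z => TT G' z) z := by
      unfold TT
      fun_prop
    have h2 : DifferentiableAt ℂ (Ring.inverse : (H →L[ℂ] H) → (H →L[ℂ] H)) (TT G' z) := by
      rw [← hR]
      exact differentiableAt_inverse R.isUnit
    have h3 : DifferentiableAt ℂ (fun z => Ring.inverse (TT G' z)) z :=
      DifferentiableAt.comp z h2 h1
    exact h3.clm_apply (differentiableAt_const _)
  · have h4 : TT G' z (Ring.inverse (TT G' z) (G v)) = G v := by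
      rw [← hR, Ring.inverse_unit]
      have : ((R : H →L[ℂ] H) * (↑R⁻¹ : H →L[ℂ] H)) (G v) = G v := by rw [R.mul_inv]; rfl
      exact this
    set w := Ring.inverse (TT G' z) (G v) with hw
    have h5 : Q w = 0 := by
      have h6 := congrArg Q h4
      rw [TT_apply, map_sub, map_smul, hQG', smul_zero, sub_zero, hQG, hQv, map_zero] at h6
      exact h6
    rw [TT_apply] at h4 ⊢
    rw [hG'a, h5, sub_zero] at h4
    exact h4

omit [CompleteSpace H] in
/-- maximum principle on a closed box -/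
theorem box_max (w : ℂ → H) (a b c e K : ℝ)
    (hw : ∀ z : ℂ, a ≤ z.re → z.re ≤ b → c ≤ z.im → z.im ≤ e → DifferentiableAt ℂ w z)
    (hK : ∀ z : ℂ, a ≤ z.re → z.re ≤ b → c ≤ z.im → z.im ≤ e →
      (z.re = a ∨ z.re = b ∨ z.im = c ∨ z.im = e) → ‖w z‖ ≤ K) :
    ∀ z : ℂ, a ≤ z.re → z.re ≤ b → c ≤ z.im → z.im ≤ e → ‖w z‖ ≤ K := by
  intro z h1 h2 h3 h4
  by_cases hb : z.re = a ∨ z.re = b ∨ z.im = c ∨ z.im = e
  · exact hK z h1 h2 h3 h4 hb
  push Not at hb
  obtain ⟨g1, g2, g3, g4⟩ := hb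
  have h1' := lt_of_le_of_ne h1 (Ne.symm g1)
  have h2' := lt_of_le_of_ne h2 g2
  have h3' := lt_of_le_of_ne h3 (Ne.symm g3)
  have h4' := lt_of_le_of_ne h4 g4
  have hab : a < b := h1'.trans h2'
  have hce : c < e := h3'.trans h4'
  set R : Set ℂ := Set.Ioo a b ×ℂ Set.Ioo c e with hR
  have hcl : closure R = Set.Icc a b ×ℂ Set.Icc c e := by
    rw [hR, Complex.closure_reProdIm, closure_Ioo hab.ne, closure_Ioo hce.ne]
  have hmem : ∀ z : ℂ, z ∈ closure R → a ≤ z.re ∧ z.re ≤ b ∧ c ≤ z.im ∧ z.im ≤ e := by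
    intro z hz
    rw [hcl, Complex.mem_reProdIm] at hz
    exact ⟨hz.1.1, hz.1.2, hz.2.1, hz.2.2⟩
  have hopen : IsOpen R := by
    rw [hR]
    exact isOpen_Ioo.reProdIm isOpen_Ioo
  have hbd : Bornology.IsBounded R := by
    rw [hR]
    exact (Metric.isBounded_Ioo a b).reProdIm (Metric.isBounded_Ioo c e)
  apply Complex.norm_le_of_forall_mem_frontier_norm_le hbd (f := w) (C := K)
  · apply DifferentiableOn.diffContOnCl
    intro y hy
    obtain ⟨a1, a2, a3, a4⟩ := hmem y hy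
    exact (hw y a1 a2 a3 a4).differentiableWithinAt
  · intro y hy
    have hy1 : y ∈ closure R := frontier_subset_closure hy
    obtain ⟨a1, a2, a3, a4⟩ := hmem y hy1
    apply hK y a1 a2 a3 a4
    by_contra hcon
    push Not at hcon
    obtain ⟨b1, b2, b3, b4⟩ := hcon
    have : y ∈ R := by
      rw [hR, Complex.mem_reProdIm]
      exact ⟨⟨lt_of_le_of_ne a1 (Ne.symm b1), lt_of_le_of_ne a2 b2⟩,
        ⟨lt_of_le_of_ne a3 (Ne.symm b3), lt_of_le_of_ne a4 b4⟩⟩
    rw [hopen.frontier_eq] at hy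
    exact hy.2 this
  · apply subset_closure
    rw [hR, Complex.mem_reProdIm]
    exact ⟨⟨h1', h2'⟩, ⟨h3', h4'⟩⟩

end Pool.Agent.Q235.CP
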