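import Mathlib
import Pool.Agent.Q235.CP.Abs

set_option autoImplicit false

namespace Pool.Agent.Q235.CP

open Filter Topology

variable {H : Type*} [NormedAddCommGroup H] [InnerProductSpace ℂ H]

/-- `B = (A+1)⁻¹` with `A ≥ 0` selfadjoint -/
structure PosB (B : H →L[ℂ] H) : Prop where
  sa : ∀ x y, inner ℂ (B x) y = inner ℂ x (B y)
  pos : ∀ x, ‖B x‖ ^ 2 ≤ (inner ℂ (B x) x).re

/-- `A u = F`, where `B = (A+1)⁻¹` -/
def Rel (B : H →L[ℂ] H) (u F : H) : Prop := u = B (F + u)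

theorem PosB.real {B : H →L[ℂ] H} (hB : PosB B) (y : H) : (inner ℂ (B y) y).im = 0 := by
  have h1 : inner ℂ (B y) y = (starRingEnd ℂ) (inner ℂ (B y) y) := by
    rw [inner_conj_symm, hB.sa]
  exact Complex.conj_eq_iff_im.1 h1.symm

theorem PosB.norm_le {B : H →L[ℂ] H} (hB : PosB B) (y : H) : ‖B y‖ ≤ ‖y‖ := by
  have h1 := hB.pos y
  have h2 : (inner ℂ (B y) y).re ≤ ‖B y‖ * ‖y‖ :=
    (Complex.re_le_norm _).trans (norm_inner_le_norm _ _)
  by_contra h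
  push Not at h
  have h3 : 0 < ‖B y‖ := lt_of_le_of_lt (norm_nonneg _) h
  nlinarith

theorem Rel.inner_eq {B : H →L[ℂ] H} {u F : H} (h : Rel B u F) :
    inner ℂ u F = inner ℂ (B (F + u)) (F + u) - ((‖u‖ ^ 2 : ℝ) : ℂ) := by
  have e : F = (F + u) - u := by abel
  have h' : B (F + u) = u := h.symm
  rw [h', inner_add_right, inner_self_eq_norm_sq_to_K]
  push_cast
  ring_nf
  simp

theorem Rel.im {B : H →L[ℂ] H} (hB : PosB B) {u F : H} (h : Rel B u F) :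
    (inner ℂ u F).im = 0 := by
  rw [h.inner_eq, Complex.sub_im, hB.real, Complex.ofReal_im, sub_zero]

theorem Rel.re {B : H →L[ℂ] H} (hB : PosB B) {u F : H} (h : Rel B u F) :
    0 ≤ (inner ℂ u F).re := by
  rw [h.inner_eq, Complex.sub_re, Complex.ofReal_re, sub_nonneg]
  have h1 := hB.pos (F + u)
  have h' : B (F + u) = u := h.symm
  rw [h'] at h1 ⊢
  exact h1

theorem Rel.comm {B : H →L[ℂ] H} (hB : PosB B) {u F u' F' : H} (h : Rel B u F)
    (h' : Rel B u' F') : inner ℂ u' F = inner ℂ F' u := by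
  have h1 : inner ℂ (B (F' + u')) (F + u) = inner ℂ (F' + u') (B (F + u)) := hB.sa _ _
  have e1 : B (F + u) = u := h.symm
  have e2 : B (F' + u') = u' := h'.symm
  rw [e1, e2, inner_add_right, inner_add_left] at h1
  exact add_right_cancel h1

theorem Rel.lb_im {B : H →L[ℂ] H} (hB : PosB B) {u F : H} (h : Rel B u F) (ζ : ℂ) :
    |ζ.im| * ‖u‖ ≤ ‖F - ζ • u‖ := by
  have h1 : inner ℂ u (F - ζ • u) = inner ℂ u F - ζ * ((‖u‖ ^ 2 : ℝ) : ℂ) := by
    rw [inner_sub_right, inner_smul_right, inner_self_eq_norm_sq_to_K]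
    push_cast
    rfl
  have h2 : (inner ℂ u (F - ζ • u)).im = -(ζ.im * ‖u‖ ^ 2) := by
    rw [h1, Complex.sub_im, h.im hB, Complex.im_mul_ofReal]
    ring
  have h3 : |ζ.im| * ‖u‖ ^ 2 ≤ ‖u‖ * ‖F - ζ • u‖ := by
    calc |ζ.im| * ‖u‖ ^ 2 = |(inner ℂ u (F - ζ • u)).im| := by
          rw [h2, abs_neg, abs_mul, abs_of_nonneg (sq_nonneg ‖u‖)]
      _ ≤ ‖inner ℂ u (F - ζ • u)‖ := Complex.abs_im_le_norm _
      _ ≤ _ := norm_inner_le_norm _ _
  rcases eq_or_lt_of_le (norm_nonneg u) with h0 | h0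
  · rw [← h0, mul_zero]; exact norm_nonneg _
  · nlinarith

theorem Rel.lb_re {B : H →L[ℂ] H} (hB : PosB B) {u F : H} (h : Rel B u F) (ζ : ℂ) : (-ζ.re) * ‖u‖ ≤ ‖F - ζ • u‖ := by
  have h1 : inner ℂ u (F - ζ • u) = inner ℂ u F - ζ * ((‖u‖ ^ 2 : ℝ) : ℂ) := by
    rw [inner_sub_right, inner_smul_right, inner_self_eq_norm_sq_to_K]
    push_cast
    rfl
  have h2 : (-ζ.re) * ‖u‖ ^ 2 ≤ (inner ℂ u (F - ζ • u)).re := by
    rw [h1, Complex.sub_re, Complex.re_mul_ofReal]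
    have := h.re hB
    linarith
  have h3 : (-ζ.re) * ‖u‖ ^ 2 ≤ ‖u‖ * ‖F - ζ • u‖ :=
    h2.trans ((Complex.re_le_norm _).trans (norm_inner_le_norm _ _))
  rcases eq_or_lt_of_le (norm_nonneg u) with h0 | h0
  · rw [← h0, mul_zero]; exact norm_nonneg _
  · nlinarith

theorem Rel.lb_gap {B : H →L[ℂ] H} (hB : PosB B) {u F : H} (h : Rel B u F) (g y s : ℝ)
    (hs : 0 ≤ s) (hg : s * ‖u‖ ≤ ‖F - (g : ℂ) • u‖) :
    s * ‖u‖ ≤ ‖F - ((g : ℂ) + y * Complex.I) • u‖ := by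
  have e : F - ((g : ℂ) + y * Complex.I) • u = (F - (g : ℂ) • u) - (y * Complex.I) • u := by
    rw [add_smul]
    abel
  have h1 : inner ℂ (F - (g : ℂ) • u) ((y * Complex.I) • u) =
      (y * Complex.I) * (inner ℂ F u - g * ((‖u‖ ^ 2 : ℝ) : ℂ)) := by
    rw [inner_smul_right, inner_sub_left, inner_smul_left, inner_self_eq_norm_sq_to_K]
    simp
  have h2 : (inner ℂ (F - (g : ℂ) • u) ((y * Complex.I) • u)).re = 0 := by
    rw [h1]
    have h3 : (inner ℂ F u).im = 0 := by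
      rw [← inner_conj_symm, Complex.conj_im, h.im hB, neg_zero]
    have h6 : (inner ℂ F u - g * ((‖u‖ ^ 2 : ℝ) : ℂ)).im = 0 := by
      rw [Complex.sub_im, h3, ← Complex.ofReal_mul, Complex.ofReal_im, sub_zero]
    rw [Complex.mul_re, h6]
    simp
  have h4 : ‖F - ((g : ℂ) + y * Complex.I) • u‖ ^ 2 =
      ‖F - (g : ℂ) • u‖ ^ 2 + ‖((y : ℂ) * Complex.I) • u‖ ^ 2 := by
    rw [e, @norm_sub_sq ℂ]
    rw [show RCLike.re (inner ℂ (F - (g : ℂ) • u) ((y * Complex.I) • u)) = 0 from h2]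
    ring
  have h5 : ‖F - (g : ℂ) • u‖ ≤ ‖F - ((g : ℂ) + y * Complex.I) • u‖ := by
    apply le_of_sq_le_sq _ (norm_nonneg _)
    rw [h4]
    nlinarith [sq_nonneg ‖((y : ℂ) * Complex.I) • u‖]
  exact hg.trans h5

variable [CompleteSpace H]

theorem PosB.selfAdjoint {B : H →L[ℂ] H} (hB : PosB B) : IsSelfAdjoint B := by
  rw [ContinuousLinearMap.isSelfAdjoint_iff_isSymmetric]
  exact fun x y => hB.sa x y

omit [CompleteSpace H] in
theorem PosB.nonneg {B : H →L[ℂ] H} (hB : PosB B) : 0 ≤ B := by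
  rw [ContinuousLinearMap.nonneg_iff_isPositive]
  refine ⟨fun x y => hB.sa x y, fun x => ?_⟩
  have h1 := hB.pos x
  have h2 : 0 ≤ (inner ℂ (B x) x).re := (sq_nonneg _).trans h1
  exact h2

theorem PosB.unit {B : H →L[ℂ] H} (hB : PosB B) (z : ℂ) (hz : z.im ≠ 0) : IsUnit (TT B z) := by
  have h1 : (1 + z) ≠ 0 := by
    intro h
    apply hz
    have := congrArg Complex.im h
    simpa using this
  have h2 : (1 + z)⁻¹ ∉ spectrum ℂ B := by
    intro h
    have h3 := hB.selfAdjoint.mem_spectrum_eq_re h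
    have h4 : ((1 + z)⁻¹).im = 0 := by
      rw [h3]; simp
    rw [Complex.inv_im] at h4
    have h5 : Complex.normSq (1 + z) ≠ 0 := fun h => h1 (Complex.normSq_eq_zero.1 h)
    rw [div_eq_zero_iff] at h4
    rcases h4 with h4 | h4
    · apply hz
      simpa using h4
    · exact h5 h4
  rw [spectrum.notMem_iff] at h2
  have e : TT B z = (algebraMap ℂ (H →L[ℂ] H) (1 + z)) * (algebraMap ℂ (H →L[ℂ] H) (1 + z)⁻¹ - B) := by
    unfold TT
    rw [mul_sub, ← map_mul, mul_inv_cancel₀ h1, map_one, Algebra.smul_def]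
  rw [e]
  exact ((isUnit_iff_ne_zero.2 h1).map (algebraMap ℂ (H →L[ℂ] H))).mul h2

end Pool.Agent.Q235.CP
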