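import Mathlib
import Pool.Agent.H631.KR.B07

set_option autoImplicit false

/-! weak gradients -/

namespace Pool.Agent.Q235.CP

open MeasureTheory Filter Topology Complex
open scoped InnerProductSpace
open KRS (EE HH mulOp mulOp_ae mulOp_norm)

noncomputable section

/-- test functions -/
def IsTest {d : ℕ} (φ : EE d → ℂ) : Prop := ContDiff ℝ (⊤ : ℕ∞) φ ∧ HasCompactSupport φ

/-- partial derivative -/
def pder {d : ℕ} (i : Fin d) (φ : EE d → ℂ) (x : EE d) : ℂ :=
  fderiv ℝ φ x (EuclideanSpace.single i 1)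

/-- `D` is the weak gradient of `u` -/
def IsGrad {d : ℕ} (u : HH d) (D : Fin d → HH d) : Prop :=
  ∀ (i : Fin d) (φ : EE d → ℂ), IsTest φ → ∫ x, u x * pder i φ x = - ∫ x, D i x * φ x

variable {d : ℕ}

theorem mulInt {f g : EE d → ℂ} (hf : MemLp f 2 volume) (hg : MemLp g 2 volume) :
    Integrable (fun x => f x * g x) volume := hf.integrable_mul hg

theorem IsTest.cont {φ : EE d → ℂ} (h : IsTest φ) : Continuous φ := h.1.continuous

theorem IsTest.memLp {φ : EE d → ℂ} (h : IsTest φ) : MemLp φ 2 volume :=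
  h.cont.memLp_of_hasCompactSupport h.2

theorem IsTest.fder {φ : EE d → ℂ} (h : IsTest φ) (v : EE d) : IsTest (fun x => fderiv ℝ φ x v) := by
  constructor
  · exact (h.1.fderiv_right (m := (⊤ : ℕ∞)) (by simp)).clm_apply contDiff_const
  · exact h.2.fderiv_apply ℝ v

theorem IsTest.pder {φ : EE d → ℂ} (h : IsTest φ) (i : Fin d) : IsTest (pder i φ) := h.fder _

theorem IsTest.diff {φ : EE d → ℂ} (h : IsTest φ) (x : EE d) : DifferentiableAt ℝ φ x :=
  (h.1.differentiable (by simp)) x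

theorem IsTest.conj {φ : EE d → ℂ} (h : IsTest φ) : IsTest (fun x => (starRingEnd ℂ) (φ x)) := by
  constructor
  · exact (Complex.conjCLE.toContinuousLinearMap.contDiff).comp h.1
  · exact h.2.comp_left (g := fun z => (starRingEnd ℂ) z) (map_zero _)

theorem pder_conj {φ : EE d → ℂ} (h : IsTest φ) (i : Fin d) (x : EE d) :
    CP.pder i (fun x => (starRingEnd ℂ) (φ x)) x = (starRingEnd ℂ) (CP.pder i φ x) := by
  have h1 : HasFDerivAt (fun x => (starRingEnd ℂ) (φ x))
      (Complex.conjCLE.toContinuousLinearMap.comp (fderiv ℝ φ x)) x :=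
    (Complex.conjCLE.toContinuousLinearMap.hasFDerivAt (x := φ x)).comp x (h.diff x).hasFDerivAt
  unfold CP.pder
  rw [h1.fderiv]
  rfl

/-- multiplication of a test function by a smooth function -/
theorem IsTest.mul {φ : EE d → ℂ} (h : IsTest φ) {w : EE d → ℂ} (hw : ContDiff ℝ (⊤ : ℕ∞) w) :
    IsTest (fun x => w x * φ x) := ⟨hw.mul h.1, h.2.mul_left⟩

theorem pder_mul {φ : EE d → ℂ} (h : IsTest φ) {w : EE d → ℂ} (hw : ContDiff ℝ (⊤ : ℕ∞) w)
    (i : Fin d) (x : EE d) :
    CP.pder i (fun x => w x * φ x) x = CP.pder i w x * φ x + w x * CP.pder i φ x := by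
  have hw' : DifferentiableAt ℝ w x := (hw.differentiable (by simp)) x
  unfold CP.pder
  rw [fderiv_fun_mul hw' (h.diff x)]
  simp only [add_apply, smul_apply, smul_eq_mul]
  ring

theorem parts {η φ : EE d → ℂ} (hη : IsTest η) (hφ : IsTest φ) (v : EE d) :
    ∫ x, η x * fderiv ℝ φ x v = - ∫ x, fderiv ℝ η x v * φ x := by
  apply integral_mul_fderiv_eq_neg_fderiv_mul_of_integrable
  · exact mulInt (hη.fder v).memLp hφ.memLp
  · exact mulInt hη.memLp (hφ.fder v).memLp
  · exact mulInt hη.memLp hφ.memLp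
  · exact fun x _ => hη.diff x
  · exact fun x _ => hφ.diff x

/-- the class of a test function -/
def tL {φ : EE d → ℂ} (h : IsTest φ) : HH d := h.memLp.toLp φ

theorem tL_ae {φ : EE d → ℂ} (h : IsTest φ) : (tL h : EE d → ℂ) =ᵐ[volume] φ :=
  h.memLp.coeFn_toLp

theorem int_tL {φ : EE d → ℂ} (h : IsTest φ) (g : EE d → ℂ) :
    ∫ x, (tL h : EE d → ℂ) x * g x = ∫ x, φ x * g x := by
  apply integral_congr_ae
  filter_upwards [tL_ae h] with x hx
  rw [hx]

theorem isGrad_test {η : EE d → ℂ} (hη : IsTest η) :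
    IsGrad (tL hη) (fun i => tL (hη.pder i)) := by
  intro i φ hφ
  rw [int_tL, int_tL]
  exact parts hη hφ _

/-- the inner product with a conjugate -/
theorem inner_tL {φ : EE d → ℂ} (h : IsTest φ) (u : HH d) :
    ⟪tL h.conj, u⟫_ℂ = ∫ x, u x * φ x := by
  rw [L2.inner_def]
  apply integral_congr_ae
  filter_upwards [tL_ae h.conj] with x hx
  rw [hx, RCLike.inner_apply, RCLike.conj_conj]

theorem tL_congr {φ ψ : EE d → ℂ} (h : IsTest φ) (h' : IsTest ψ) (e : φ = ψ) : tL h = tL h' := by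
  subst e; rfl

theorem conj_conj_tL {φ : EE d → ℂ} (h : IsTest φ) : tL h.conj.conj = tL h :=
  tL_congr _ _ (by funext x; simp)

/-- a gradient pairs with conjugates of test functions -/
theorem IsGrad.inner {u : HH d} {D : Fin d → HH d} (h : IsGrad u D) {φ : EE d → ℂ}
    (hφ : IsTest φ) (i : Fin d) : ⟪tL (hφ.pder i), u⟫_ℂ = - ⟪tL hφ, D i⟫_ℂ := by
  have h1 := h i _ hφ.conj
  rw [← inner_tL hφ.conj, conj_conj_tL hφ] at h1
  rw [← h1]
  rw [← conj_conj_tL (hφ.pder i), inner_tL (hφ.pder i).conj]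
  apply integral_congr_ae
  filter_upwards with x
  rw [pder_conj hφ]

theorem isGrad_iff {u : HH d} {D : Fin d → HH d} : IsGrad u D ↔
    ∀ (i : Fin d) (φ : EE d → ℂ) (hφ : IsTest φ), ⟪tL (hφ.pder i), u⟫_ℂ = - ⟪tL hφ, D i⟫_ℂ := by
  refine ⟨fun h i φ hφ => h.inner hφ i, fun h i φ hφ => ?_⟩
  have h1 := h i _ hφ.conj
  rw [inner_tL hφ] at h1
  rw [← h1]
  rw [← inner_tL (hφ.pder i)]
  congr 1
  apply tL_congr
  funext x
  rw [pder_conj hφ]

theorem IsGrad.add {u u' : HH d} {D D' : Fin d → HH d} (h : IsGrad u D) (h' : IsGrad u' D') :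
    IsGrad (u + u') (fun i => D i + D' i) := by
  rw [isGrad_iff] at *
  intro i φ hφ
  rw [inner_add_right, inner_add_right, h, h', neg_add]

theorem IsGrad.smul {u : HH d} {D : Fin d → HH d} (h : IsGrad u D) (c : ℂ) :
    IsGrad (c • u) (fun i => c • D i) := by
  rw [isGrad_iff] at *
  intro i φ hφ
  rw [inner_smul_right, inner_smul_right, h, mul_neg]

/-- smooth bounded multipliers -/
theorem IsGrad.mul {u : HH d} {D : Fin d → HH d} (h : IsGrad u D) {w : EE d → ℂ}
    (hw : ContDiff ℝ (⊤ : ℕ∞) w) (C : ℝ) (hC : ∀ x, ‖w x‖ ≤ C) (hC' : ∀ i x, ‖pder i w x‖ ≤ C) :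
    IsGrad (mulOp w u) (fun i => mulOp w (D i) + mulOp (pder i w) u) := by
  intro i φ hφ
  have hwm : Measurable w := hw.continuous.measurable
  have hpc : Continuous (pder i w) :=
    ((hw.fderiv_right (m := (⊤ : ℕ∞)) (by simp)).clm_apply contDiff_const).continuous
  have h1 := h i _ (hφ.mul hw)
  have e1 : ∫ x, (u : EE d → ℂ) x * pder i (fun x => w x * φ x) x =
      ∫ x, ((mulOp (pder i w) u : HH d) : EE d → ℂ) x * φ x +
        ((mulOp w u : HH d) : EE d → ℂ) x * pder i φ x := by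
    apply integral_congr_ae
    filter_upwards [mulOp_ae w hwm C hC u, mulOp_ae (pder i w) hpc.measurable C (hC' i) u]
      with x h1 h2
    rw [h1, h2, pder_mul hφ hw]
    ring
  have e2 : ∫ x, (D i : EE d → ℂ) x * (w x * φ x) =
      ∫ x, ((mulOp w (D i) : HH d) : EE d → ℂ) x * φ x := by
    apply integral_congr_ae
    filter_upwards [mulOp_ae w hwm C hC (D i)] with x h1
    rw [h1]
    ring
  have e3 : ∫ x, ((mulOp w (D i) + mulOp (pder i w) u : HH d) : EE d → ℂ) x * φ x =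
      ∫ x, ((mulOp w (D i) : HH d) : EE d → ℂ) x * φ x +
        ((mulOp (pder i w) u : HH d) : EE d → ℂ) x * φ x := by
    apply integral_congr_ae
    filter_upwards [Lp.coeFn_add (mulOp w (D i)) (mulOp (pder i w) u)] with x hx
    rw [hx, Pi.add_apply]
    ring
  rw [e1, integral_add (mulInt (Lp.memLp _) hφ.memLp) (mulInt (Lp.memLp _) (hφ.pder i).memLp),
    e2] at h1
  rw [e3, integral_add (mulInt (Lp.memLp _) hφ.memLp) (mulInt (Lp.memLp _) hφ.memLp)]
  rw [neg_add, ← h1]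
  ring

end

end Pool.Agent.Q235.CP
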