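import Mathlib
import Pool.Agent.Q235.CP.Sob
import Pool.Agent.Q235.CP.Sa

set_option autoImplicit false

/-! the selfadjoint operator `-h²Δ + W`, `W ≥ 0` -/

namespace Pool.Agent.Q235.CP

open MeasureTheory Filter Topology Complex
open scoped InnerProductSpace
open KRS (EE HH mulOp mulOp_ae mulOp_norm)

noncomputable section

variable {d : ℕ}

/-- finite potential energy -/
def Fin2 (W : EE d → ℝ) (u : HH d) : Prop := Integrable (fun x => W x * ‖u x‖ ^ 2) volume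

/-- the form equation: `(-h²Δ + W) u = F` -/
def FE (h : ℝ) (W : EE d → ℝ) (u F : HH d) : Prop :=
  ∃ D : Fin d → HH d, IsGrad u D ∧ Fin2 W u ∧ ∀ (φ : HH d) (E : Fin d → HH d), IsGrad φ E →
    Fin2 W φ → ((h ^ 2 : ℝ) : ℂ) * ∑ i, ⟪E i, D i⟫_ℂ +
      ∫ x, (W x : ℂ) * u x * (starRingEnd ℂ) (φ x) = ⟪φ, F⟫_ℂ

/-- the big space -/
abbrev KK (d : ℕ) := PiLp 2 (fun _ : Option (Option (Fin d)) => HH d)

/-- indicator of `W ≤ n` -/
def cutA (W : EE d → ℝ) (n : ℕ) (x : EE d) : ℂ := ({x | W x ≤ n}).indicator (fun _ => (1 : ℂ)) x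

/-- truncated square root of `W` -/
def cutB (W : EE d → ℝ) (n : ℕ) (x : EE d) : ℂ :=
  ({x | W x ≤ n}).indicator (fun x => ((Real.sqrt (W x) : ℝ) : ℂ)) x

theorem cutA_meas {W : EE d → ℝ} (hW : Measurable W) (n : ℕ) : Measurable (cutA W n) :=
  measurable_const.indicator (measurableSet_le hW measurable_const)

theorem cutB_meas {W : EE d → ℝ} (hW : Measurable W) (n : ℕ) : Measurable (cutB W n) :=
  (Complex.measurable_ofReal.comp hW.sqrt).indicator (measurableSet_le hW measurable_const)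

theorem cutA_le (W : EE d → ℝ) (n : ℕ) (x : EE d) : ‖cutA W n x‖ ≤ 1 := by
  unfold cutA
  by_cases h : x ∈ {x | W x ≤ n}
  · rw [Set.indicator_of_mem h]; simp
  · rw [Set.indicator_of_notMem h]; simp

theorem cutB_le (W : EE d → ℝ) (n : ℕ) (x : EE d) : ‖cutB W n x‖ ≤ Real.sqrt n := by
  unfold cutB
  by_cases h : x ∈ {x | W x ≤ n}
  · rw [Set.indicator_of_mem h, Complex.norm_real, Real.norm_eq_abs,
      abs_of_nonneg (Real.sqrt_nonneg _)]
    exact Real.sqrt_le_sqrt h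
  · rw [Set.indicator_of_notMem h]; simp

/-- the form domain as a subspace of the big space -/
def QQ (h : ℝ) (W : EE d → ℝ) : Submodule ℂ (KK d) where
  carrier := {q | (∀ (i : Fin d) (φ : EE d → ℂ) (hφ : IsTest φ),
      (h : ℂ) * ⟪tL (hφ.pder i), q none⟫_ℂ = - ⟪tL hφ, q (some (some i))⟫_ℂ) ∧
    ∀ n : ℕ, mulOp (cutA W n) (q (some none)) = mulOp (cutB W n) (q none)}
  add_mem' := by
    intro p q hp hq
    refine ⟨fun i φ hφ => ?_, fun n => ?_⟩
    · rw [PiLp.add_apply, PiLp.add_apply, inner_add_right, inner_add_right, mul_add,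
        hp.1 i φ hφ, hq.1 i φ hφ, neg_add]
    · rw [PiLp.add_apply, PiLp.add_apply, map_add, map_add, hp.2 n, hq.2 n]
  zero_mem' := by
    refine ⟨fun i φ hφ => ?_, fun n => ?_⟩
    · simp
    · simp
  smul_mem' := by
    intro c q hq
    refine ⟨fun i φ hφ => ?_, fun n => ?_⟩
    · rw [PiLp.smul_apply, PiLp.smul_apply, inner_smul_right, inner_smul_right, mul_left_comm,
        hq.1 i φ hφ, mul_neg]
    · rw [PiLp.smul_apply, PiLp.smul_apply, map_smul, map_smul, hq.2 n]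

theorem QQ_closed (h : ℝ) (W : EE d → ℝ) : IsClosed (QQ h W : Set (KK d)) := by
  have hc : ∀ j : Option (Option (Fin d)), Continuous fun q : KK d => q j := fun j =>
    (continuous_apply j).comp (PiLp.continuous_ofLp 2 _)
  have e : (QQ h W : Set (KK d)) =
      (⋂ (i : Fin d) (φ : EE d → ℂ) (hφ : IsTest φ),
        {q : KK d | (h : ℂ) * ⟪tL (hφ.pder i), q none⟫_ℂ = - ⟪tL hφ, q (some (some i))⟫_ℂ}) ∩
      ⋂ n : ℕ, {q : KK d | mulOp (cutA W n) (q (some none)) = mulOp (cutB W n) (q none)} := by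
    ext q
    simp only [Set.mem_inter_iff, Set.mem_iInter, Set.mem_ofPred_eq]
    rfl
  rw [e]
  apply IsClosed.inter
  · refine isClosed_iInter fun i => isClosed_iInter fun φ => isClosed_iInter fun hφ => ?_
    apply isClosed_eq
    · exact continuous_const.mul (continuous_const.inner (hc _))
    · exact (continuous_const.inner (hc _)).neg
  · refine isClosed_iInter fun n => ?_
    apply isClosed_eq
    · exact (mulOp (cutA W n)).continuous.comp (hc _)
    · exact (mulOp (cutB W n)).continuous.comp (hc _)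

instance (h : ℝ) (W : EE d → ℝ) : CompleteSpace (QQ h W) := (QQ_closed h W).completeSpace_coe

/-- the embedding of the form domain -/
def JJ (h : ℝ) (W : EE d → ℝ) : QQ h W →L[ℂ] HH d :=
  (PiLp.proj 2 (fun _ : Option (Option (Fin d)) => HH d) none : KK d →L[ℂ] HH d) ∘L
    (QQ h W).subtypeL

theorem JJ_apply (h : ℝ) (W : EE d → ℝ) (q : QQ h W) : JJ h W q = (q : KK d) none := rfl

/-- `(-h²Δ + W + 1)⁻¹` -/
def BB (h : ℝ) (W : EE d → ℝ) : HH d →L[ℂ] HH d := JJ h W ∘L (JJ h W).adjoint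

theorem BB_pos (h : ℝ) (W : EE d → ℝ) : PosB (BB h W) := by
  constructor
  · intro x y
    show ⟪JJ h W ((JJ h W).adjoint x), y⟫_ℂ = ⟪x, JJ h W ((JJ h W).adjoint y)⟫_ℂ
    exact (ContinuousLinearMap.adjoint_inner_right (JJ h W) _ _).symm.trans
      (ContinuousLinearMap.adjoint_inner_left (JJ h W) _ _)
  · intro x
    show ‖JJ h W ((JJ h W).adjoint x)‖ ^ 2 ≤ (⟪JJ h W ((JJ h W).adjoint x), x⟫_ℂ).re
    rw [← ContinuousLinearMap.adjoint_inner_right]
    set q := (JJ h W).adjoint x with hq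
    have h1 : (⟪q, q⟫_ℂ).re = ‖q‖ ^ 2 := inner_self_eq_norm_sq (𝕜 := ℂ) q
    rw [h1]
    have h2 : ‖JJ h W q‖ ≤ ‖q‖ := by
      rw [JJ_apply]
      exact PiLp.norm_apply_le (q : KK d) none
    gcongr

theorem energyMem {W : EE d → ℝ} (hW : Measurable W) (hW0 : ∀ x, 0 ≤ W x) {u : HH d}
    (hu : Fin2 W u) : MemLp (fun x => ((Real.sqrt (W x) : ℝ) : ℂ) * u x) 2 volume := by
  rw [memLp_two_iff_integrable_sq_norm]
  · refine hu.congr (ae_of_all _ fun x => ?_)
    show W x * ‖u x‖ ^ 2 = ‖((Real.sqrt (W x) : ℝ) : ℂ) * u x‖ ^ 2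
    rw [norm_mul, mul_pow, Complex.norm_real, Real.norm_eq_abs, sq_abs, Real.sq_sqrt (hW0 x)]
  · exact (Complex.measurable_ofReal.comp hW.sqrt).aestronglyMeasurable.mul
      (Lp.aestronglyMeasurable u)

/-- the element of the form domain -/
def mkQ (h : ℝ) {W : EE d → ℝ} (hW : Measurable W) (hW0 : ∀ x, 0 ≤ W x) (u : HH d)
    (D : Fin d → HH d) (hu : Fin2 W u) : KK d :=
  WithLp.toLp 2 (fun j => match j with
    | none => u
    | some none => (energyMem hW hW0 hu).toLp _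
    | some (some i) => (h : ℂ) • D i)

theorem mkQ_mem (h : ℝ) {W : EE d → ℝ} (hW : Measurable W) (hW0 : ∀ x, 0 ≤ W x) (u : HH d)
    (D : Fin d → HH d) (hu : Fin2 W u) (hD : IsGrad u D) : mkQ h hW hW0 u D hu ∈ QQ h W := by
  refine ⟨fun i φ hφ => ?_, fun n => ?_⟩
  · show (h : ℂ) * ⟪tL (hφ.pder i), u⟫_ℂ = - ⟪tL hφ, (h : ℂ) • D i⟫_ℂ
    rw [inner_smul_right, hD.inner hφ, mul_neg]
  · show mulOp (cutA W n) ((energyMem hW hW0 hu).toLp _) = mulOp (cutB W n) u
    apply Lp.ext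
    filter_upwards [mulOp_ae _ (cutA_meas hW n) 1 (cutA_le W n) ((energyMem hW hW0 hu).toLp _),
      mulOp_ae _ (cutB_meas hW n) _ (cutB_le W n) u, (energyMem hW hW0 hu).coeFn_toLp]
      with x h1 h2 h3
    rw [h1, h2, h3]
    unfold cutA cutB
    by_cases hx : x ∈ {x | W x ≤ n}
    · rw [Set.indicator_of_mem hx, Set.indicator_of_mem hx, one_mul]
    · rw [Set.indicator_of_notMem hx, Set.indicator_of_notMem hx, zero_mul, zero_mul]

theorem QQ_spec {h : ℝ} (hh : 0 < h) {W : EE d → ℝ} (hW : Measurable W) (hW0 : ∀ x, 0 ≤ W x)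
    {q : KK d} (hq : q ∈ QQ h W) :
    ∃ D : Fin d → HH d, IsGrad (q none) D ∧ (∀ i, q (some (some i)) = (h : ℂ) • D i) ∧
      Fin2 W (q none) ∧
      (q (some none) : EE d → ℂ) =ᵐ[volume] fun x => ((Real.sqrt (W x) : ℝ) : ℂ) * q none x := by
  have hh' : (h : ℂ) ≠ 0 := by exact_mod_cast hh.ne'
  refine ⟨fun i => (h : ℂ)⁻¹ • q (some (some i)), ?_, ?_, ?_⟩
  · rw [isGrad_iff]
    intro i φ hφ
    have h1 := hq.1 i φ hφ
    rw [inner_smul_right]
    field_simp
    rw [mul_comm, h1]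
  · intro i
    rw [smul_smul, mul_inv_cancel₀ hh', one_smul]
  · have hae : (q (some none) : EE d → ℂ) =ᵐ[volume]
        fun x => ((Real.sqrt (W x) : ℝ) : ℂ) * q none x := by
      have h1 : ∀ᵐ x ∂(volume : Measure (EE d)), ∀ n : ℕ,
          cutA W n x * (q (some none) : EE d → ℂ) x = cutB W n x * (q none : EE d → ℂ) x := by
        rw [ae_all_iff]
        intro n
        filter_upwards [mulOp_ae _ (cutA_meas hW n) 1 (cutA_le W n) (q (some none)),
          mulOp_ae _ (cutB_meas hW n) _ (cutB_le W n) (q none)] with x h1 h2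
        rw [← h1, ← h2, hq.2 n]
      filter_upwards [h1] with x hx
      obtain ⟨n, hn⟩ := exists_nat_ge (W x)
      have h2 := hx n
      unfold cutA cutB at h2
      rw [Set.indicator_of_mem (show x ∈ {x | W x ≤ n} from hn),
        Set.indicator_of_mem (show x ∈ {x | W x ≤ n} from hn), one_mul] at h2
      exact h2
    refine ⟨?_, hae⟩
    have h2 : Integrable (fun x => ‖(q (some none) : EE d → ℂ) x‖ ^ 2) volume :=
      (memLp_two_iff_integrable_sq_norm (Lp.aestronglyMeasurable _)).1 (Lp.memLp _)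
    refine h2.congr ?_
    filter_upwards [hae] with x hx
    rw [hx, norm_mul, mul_pow, Complex.norm_real, Real.norm_eq_abs, sq_abs, Real.sq_sqrt (hW0 x)]

theorem inner_QQ {h : ℝ} {W : EE d → ℝ} (hW0 : ∀ x, 0 ≤ W x) (p q : KK d) (D E : Fin d → HH d)
    (hp : ∀ i, p (some (some i)) = (h : ℂ) • E i) (hq : ∀ i, q (some (some i)) = (h : ℂ) • D i)
    (hp' : (p (some none) : EE d → ℂ) =ᵐ[volume] fun x => ((Real.sqrt (W x) : ℝ) : ℂ) * p none x)
    (hq' : (q (some none) : EE d → ℂ) =ᵐ[volume] fun x => ((Real.sqrt (W x) : ℝ) : ℂ) * q none x) :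
    ⟪p, q⟫_ℂ = ⟪p none, q none⟫_ℂ + (((h ^ 2 : ℝ) : ℂ) * ∑ i, ⟪E i, D i⟫_ℂ +
      ∫ x, (W x : ℂ) * q none x * (starRingEnd ℂ) (p none x)) := by
  rw [PiLp.inner_apply, Fintype.sum_option, Fintype.sum_option]
  congr 1
  rw [add_comm]
  congr 1
  · rw [Finset.mul_sum]
    apply Finset.sum_congr rfl
    intro i _
    rw [hp, hq, inner_smul_left, inner_smul_right, Complex.conj_ofReal]
    push_cast
    ring
  · rw [L2.inner_def]
    apply integral_congr_ae
    filter_upwards [hp', hq'] with x h1 h2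
    rw [h1, h2, RCLike.inner_apply, map_mul, Complex.conj_ofReal]
    have e : ((Real.sqrt (W x) : ℝ) : ℂ) * ((Real.sqrt (W x) : ℝ) : ℂ) = (W x : ℂ) := by
      rw [← Complex.ofReal_mul, Real.mul_self_sqrt (hW0 x)]
    rw [← e]
    ring

theorem mkQ_ae (h : ℝ) {W : EE d → ℝ} (hW : Measurable W) (hW0 : ∀ x, 0 ≤ W x) (u : HH d)
    (D : Fin d → HH d) (hu : Fin2 W u) :
    ((mkQ h hW hW0 u D hu) (some none) : EE d → ℂ) =ᵐ[volume]
      fun x => ((Real.sqrt (W x) : ℝ) : ℂ) * u x := (energyMem hW hW0 hu).coeFn_toLp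

theorem rel_iff {h : ℝ} (hh : 0 < h) {W : EE d → ℝ} (hW : Measurable W) (hW0 : ∀ x, 0 ≤ W x)
    (u F : HH d) : Rel (BB h W) u F ↔ FE h W u F := by
  constructor
  · intro hu
    set q := (JJ h W).adjoint (F + u) with hq
    have hqu : (q : KK d) none = u := (show u = JJ h W q from hu).symm
    obtain ⟨D, h1, h2, h3, h4⟩ := QQ_spec hh hW hW0 q.2
    rw [hqu] at h1 h3 h4
    refine ⟨D, h1, h3, ?_⟩
    intro φ E hE hφ
    let p : QQ h W := ⟨mkQ h hW hW0 φ E hφ, mkQ_mem h hW hW0 φ E hφ hE⟩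
    have h5 : ⟪p, q⟫_ℂ = ⟪φ, F + u⟫_ℂ := by
      rw [hq, ContinuousLinearMap.adjoint_inner_right]
      rfl
    have h6 : ⟪p, q⟫_ℂ = ⟪(p : KK d), (q : KK d)⟫_ℂ := rfl
    rw [h6, inner_QQ (h := h) (W := W) hW0 (p : KK d) (q : KK d) D E (fun i => rfl) h2
      (mkQ_ae h hW hW0 φ E hφ) (by rw [hqu]; exact h4), hqu, inner_add_right, add_comm] at h5
    exact add_right_cancel h5
  · rintro ⟨D, h1, h2, h3⟩
    let q : QQ h W := ⟨mkQ h hW hW0 u D h2, mkQ_mem h hW hW0 u D h2 h1⟩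
    have hq : q = (JJ h W).adjoint (F + u) := by
      apply ext_inner_left ℂ
      intro p
      rw [ContinuousLinearMap.adjoint_inner_right]
      obtain ⟨E, g1, g2, g3, g4⟩ := QQ_spec hh hW hW0 p.2
      have h6 : ⟪p, q⟫_ℂ = ⟪(p : KK d), (q : KK d)⟫_ℂ := rfl
      rw [h6, inner_QQ (h := h) (W := W) hW0 (p : KK d) (q : KK d) D E g2 (fun i => rfl) g4
        (mkQ_ae h hW hW0 u D h2)]
      have h7 := h3 _ E g1 g3
      show ⟪(p : KK d) none, u⟫_ℂ + _ = ⟪(p : KK d) none, F + u⟫_ℂ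
      rw [inner_add_right, ← h7]
      show ⟪(p : KK d) none, u⟫_ℂ + (_ + ∫ x, (W x : ℂ) * u x * (starRingEnd ℂ) ((p : KK d) none x)) = _
      ring
    show u = JJ h W ((JJ h W).adjoint (F + u))
    rw [← hq]
    rfl

/-- the energy identity -/
theorem FE.energy {h : ℝ} {W : EE d → ℝ} {u F : HH d} (hF : FE h W u F) :
    ∃ D : Fin d → HH d, IsGrad u D ∧ Fin2 W u ∧
      h ^ 2 * ∑ i, ‖D i‖ ^ 2 + ∫ x, W x * ‖u x‖ ^ 2 = (⟪u, F⟫_ℂ).re := by
  obtain ⟨D, h1, h2, h3⟩ := hF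
  refine ⟨D, h1, h2, ?_⟩
  rw [← h3 u D h1 h2, Complex.add_re]
  congr 1
  · have e : ∀ i, ⟪D i, D i⟫_ℂ = ((‖D i‖ ^ 2 : ℝ) : ℂ) := by
      intro i
      rw [inner_self_eq_norm_sq_to_K]
      push_cast
      rfl
    simp only [e]
    rw [← Complex.ofReal_sum, ← Complex.ofReal_mul, Complex.ofReal_re]
  · have e : ∀ x, (W x : ℂ) * u x * (starRingEnd ℂ) (u x) = ((W x * ‖u x‖ ^ 2 : ℝ) : ℂ) := by
      intro x
      rw [mul_assoc, Complex.mul_conj, Complex.normSq_eq_norm_sq]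
      push_cast
      rfl
    simp only [e]
    rw [integral_complex_ofReal, Complex.ofReal_re]

end

end Pool.Agent.Q235.CP
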