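import Mathlib
import Pool.Agent.Q235.CP.Sob

set_option autoImplicit false

/-! translation estimate -/

namespace Pool.Agent.Q235.CP

open MeasureTheory Filter Topology Complex
open scoped InnerProductSpace
open KRS (EE HH mulOp mulOp_ae mulOp_norm fm et fm_trans_ae Dh cubes avg ic)

noncomputable section

variable {d : ℕ}

theorem fder_sum (φ : EE d → ℂ) (x t : EE d) :
    fderiv ℝ φ x t = ∑ i, ((t i : ℝ) : ℂ) * pder i φ x := by
  have e : t = ∑ i, (t i) • EuclideanSpace.single i (1 : ℝ) := by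
    have := (EuclideanSpace.basisFun (Fin d) ℝ).sum_repr t
    simpa using this.symm
  conv_lhs => rw [e]
  rw [map_sum]
  apply Finset.sum_congr rfl
  intro i _
  rw [map_smul, real_smul]
  rfl

theorem IsGrad.dir {u : HH d} {D : Fin d → HH d} (h : IsGrad u D) (t : EE d) {φ : EE d → ℂ}
    (hφ : IsTest φ) : ∫ x, u x * fderiv ℝ φ x t =
      - ∫ x, (∑ i, ((t i : ℝ) : ℂ) • D i : HH d) x * φ x := by
  rw [← inner_tL hφ, inner_sum]
  have e1 : ∀ x, u x * fderiv ℝ φ x t = ∑ i, ((t i : ℝ) : ℂ) * (u x * pder i φ x) := by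
    intro x
    rw [fder_sum, Finset.mul_sum]
    exact Finset.sum_congr rfl fun i _ => by ring
  simp only [e1]
  rw [integral_finsetSum _ (fun i _ => (mulInt (Lp.memLp u) (hφ.pder i).memLp).const_mul _)]
  rw [← Finset.sum_neg_distrib]
  apply Finset.sum_congr rfl
  intro i _
  rw [integral_const_mul, h i φ hφ, inner_smul_right, inner_tL hφ]
  ring

theorem IsTest.trans {φ : EE d → ℂ} (h : IsTest φ) (a : EE d) : IsTest (fun x => φ (x - a)) := by
  constructor
  · exact h.1.comp (contDiff_id.sub contDiff_const)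
  · exact h.2.comp_homeomorph (Homeomorph.subRight a)

theorem fder_trans (φ : EE d → ℂ) (a x t : EE d) :
    fderiv ℝ (fun x => φ (x - a)) x t = fderiv ℝ φ (x - a) t := by
  simp only [sub_eq_add_neg]
  rw [fderiv_comp_add_right]

theorem norm_tL_trans {φ : EE d → ℂ} (h : IsTest φ) (a : EE d) : ‖tL (h.trans a)‖ = ‖tL h‖ := by
  unfold tL
  rw [Lp.norm_toLp, Lp.norm_toLp]
  congr 1
  exact eLpNorm_comp_measurePreserving h.cont.aestronglyMeasurable (measurePreserving_sub_right volume a)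

theorem norm_tL_conj {φ : EE d → ℂ} (h : IsTest φ) : ‖tL h.conj‖ = ‖tL h‖ := by
  unfold tL
  rw [Lp.norm_toLp, Lp.norm_toLp]
  congr 1
  apply eLpNorm_congr_norm_ae
  filter_upwards with x
  exact RCLike.norm_conj _

theorem norm_int_le (u : HH d) {φ : EE d → ℂ} (h : IsTest φ) :
    ‖∫ x, u x * φ x‖ ≤ ‖u‖ * ‖tL h‖ := by
  rw [← inner_tL h, mul_comm, ← norm_tL_conj h]
  exact norm_inner_le_norm _ _

theorem deriv_F (u : HH d) (t : EE d) {φ : EE d → ℂ} (hφ : IsTest φ) (s₀ : ℝ) :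
    HasDerivAt (fun s : ℝ => ∫ x, u x * φ (x - s • t))
      (∫ x, u x * (-(fderiv ℝ φ (x - s₀ • t) t))) s₀ := by
  obtain ⟨R, hR⟩ : ∃ R : ℝ, ∀ x, fderiv ℝ φ x t ≠ 0 → ‖x‖ ≤ R := by
    obtain ⟨R, hR⟩ := (hφ.fder t).2.isCompact.isBounded.exists_norm_le
    exact ⟨R, fun x hx => hR x (subset_tsupport _ hx)⟩
  obtain ⟨C, hC⟩ : ∃ C : ℝ, ∀ x, ‖fderiv ℝ φ x t‖ ≤ C :=
    (hφ.fder t).2.exists_bound_of_continuous (hφ.fder t).cont
  have hC0 : 0 ≤ C := (norm_nonneg _).trans (hC 0)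
  let K : Set (EE d) := Metric.closedBall 0 (R + (|s₀| + 1) * ‖t‖)
  have hKm : MeasurableSet K := measurableSet_closedBall
  have hKf : volume K ≠ ⊤ := (isCompact_closedBall _ _).measure_lt_top.ne
  have hbound : Integrable (fun x => ‖u x‖ * (K.indicator (fun _ => C) x)) volume := by
    have h1 : MemLp (K.indicator (fun _ : EE d => C)) 2 volume := memLp_indicator_const 2 hKm C (Or.inr hKf)
    exact (Lp.memLp u).norm.integrable_mul h1
  have hmeas : ∀ s : ℝ, AEStronglyMeasurable (fun x => u x * φ (x - s • t)) volume := fun s =>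
    (Lp.aestronglyMeasurable u).mul (hφ.trans (s • t)).cont.aestronglyMeasurable
  have key := hasDerivAt_integral_of_dominated_loc_of_deriv_le (μ := (volume : Measure (EE d)))
    (F := fun (s : ℝ) x => u x * φ (x - s • t))
    (F' := fun (s : ℝ) x => u x * (-(fderiv ℝ φ (x - s • t) t)))
    (x₀ := s₀) (s := Metric.ball s₀ 1) (bound := fun x => ‖u x‖ * (K.indicator (fun _ => C) x))
    (Metric.ball_mem_nhds s₀ one_pos) (Eventually.of_forall hmeas)
    (mulInt (Lp.memLp u) (hφ.trans (s₀ • t)).memLp) ?_ ?_ hbound ?_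
  · exact key.2
  · exact (Lp.aestronglyMeasurable u).mul
      (((hφ.fder t).trans (s₀ • t)).cont.aestronglyMeasurable.neg)
  · filter_upwards with x s hs
    rw [norm_mul, norm_neg]
    apply mul_le_mul_of_nonneg_left _ (norm_nonneg _)
    by_cases hx : x ∈ K
    · rw [Set.indicator_of_mem hx]; exact hC _
    · rw [Set.indicator_of_notMem hx]
      by_cases h0 : fderiv ℝ φ (x - s • t) t = 0
      · rw [h0, norm_zero]
      · exfalso
        apply hx
        have h1 := hR _ h0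
        rw [mem_closedBall_zero_iff]
        have h2 : |s| ≤ |s₀| + 1 := by
          rw [Metric.mem_ball, Real.dist_eq] at hs
          have := abs_sub_abs_le_abs_sub s s₀
          linarith
        have h3 : ‖s • t‖ ≤ (|s₀| + 1) * ‖t‖ := by
          rw [norm_smul, Real.norm_eq_abs]
          exact mul_le_mul_of_nonneg_right h2 (norm_nonneg _)
        calc ‖x‖ = ‖(x - s • t) + s • t‖ := by rw [sub_add_cancel]
          _ ≤ ‖x - s • t‖ + ‖s • t‖ := norm_add_le _ _
          _ ≤ _ := add_le_add h1 h3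
  · filter_upwards with x s _
    apply HasDerivAt.const_mul
    have h1 : HasDerivAt (fun s : ℝ => x - s • t) (-t) s := by
      have := ((hasDerivAt_id s).smul_const t).const_sub x
      simpa using this
    have h2 := (hφ.diff (x - s • t)).hasFDerivAt.comp_hasDerivAt s h1
    rw [map_neg] at h2
    exact h2

theorem F_bound {u : HH d} {D : Fin d → HH d} (h : IsGrad u D) (t : EE d) {φ : EE d → ℂ}
    (hφ : IsTest φ) : ‖(∫ x, u x * φ (x - t)) - ∫ x, u x * φ x‖ ≤
      ‖(∑ i, ((t i : ℝ) : ℂ) • D i : HH d)‖ * ‖tL hφ‖ := by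
  have h1 := norm_image_sub_le_of_norm_deriv_le_segment_01'
    (f := fun s : ℝ => ∫ x, u x * φ (x - s • t))
    (f' := fun s => ∫ x, u x * (-(fderiv ℝ φ (x - s • t) t)))
    (C := ‖(∑ i, ((t i : ℝ) : ℂ) • D i : HH d)‖ * ‖tL hφ‖)
    (fun s _ => (deriv_F u t hφ s).hasDerivWithinAt) ?_
  · simpa using h1
  · intro s _
    have e1 : ∫ x, u x * (-(fderiv ℝ φ (x - s • t) t)) =
        ∫ x, (∑ i, ((t i : ℝ) : ℂ) • D i : HH d) x * φ (x - s • t) := by
      have h2 := h.dir t (hφ.trans (s • t))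
      simp only [fder_trans] at h2
      simp only [mul_neg]
      rw [integral_neg, h2, neg_neg]
    rw [e1, ← norm_tL_trans hφ (s • t)]
    exact norm_int_le _ _

theorem trans_norm {u : HH d} {D : Fin d → HH d} (h : IsGrad u D) (t : EE d) :
    ‖fm (et t) u - u‖ ≤ ‖(∑ i, ((t i : ℝ) : ℂ) • D i : HH d)‖ := by
  set w : HH d := fm (et t) u - u with hw
  set C : ℝ := ‖(∑ i, ((t i : ℝ) : ℂ) • D i : HH d)‖ with hC
  have h1 : ∀ φ : EE d → ℂ, ∀ hφ : IsTest φ, ‖∫ x, w x * φ x‖ ≤ C * ‖tL hφ‖ := by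
    intro φ hφ
    refine le_trans (le_of_eq ?_) (F_bound h t hφ)
    congr 1
    have e1 : ∫ x, w x * φ x = ∫ x, (u (x + t) * φ x - u x * φ x) := by
      apply integral_congr_ae
      filter_upwards [Lp.coeFn_sub (fm (et t) u) u, fm_trans_ae t u] with x h1 h2
      rw [h1, Pi.sub_apply, h2]
      ring
    have e2 : ∫ x, u (x + t) * φ x = ∫ x, u x * φ (x - t) := by
      rw [← integral_add_right_eq_self (fun x => u x * φ (x - t)) t]
      simp
    rw [e1, integral_sub _ (mulInt (Lp.memLp u) hφ.memLp), e2]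
    have h3 : MemLp (fun x => (u : EE d → ℂ) (x + t)) 2 volume :=
      (Lp.memLp u).comp_measurePreserving (measurePreserving_add_right volume t)
    exact mulInt h3 hφ.memLp
  have h2 : ∀ g : HH d, ‖⟪g, w⟫_ℂ‖ ≤ C * ‖g‖ := by
    have hd := MeasureTheory.Lp.dense_hasCompactSupport_contDiff (E := EE d) (F := ℂ)
      (μ := volume) (p := 2) (by simp)
    have hcl : IsClosed {g : HH d | ‖⟪g, w⟫_ℂ‖ ≤ C * ‖g‖} :=
      isClosed_le (by fun_prop) (by fun_prop)
    have hsub : {f : HH d | ∃ g : EE d → ℂ, f =ᵐ[volume] g ∧ HasCompactSupport g ∧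
        ContDiff ℝ (⊤ : ℕ∞) g} ⊆ {g : HH d | ‖⟪g, w⟫_ℂ‖ ≤ C * ‖g‖} := by
      rintro f ⟨g, hfg, hg1, hg2⟩
      have hg : IsTest g := ⟨hg2, hg1⟩
      have ef : f = tL hg := Lp.ext (hfg.trans (tL_ae hg).symm)
      show ‖⟪f, w⟫_ℂ‖ ≤ C * ‖f‖
      rw [ef, ← conj_conj_tL hg, inner_tL hg.conj, norm_tL_conj hg.conj]
      exact h1 _ hg.conj
    intro g
    have := closure_minimal hsub hcl (hd g)
    exact this
  have h3 := h2 w
  rw [inner_self_eq_norm_sq_to_K] at h3
  have h4 : ‖((‖w‖ : ℝ) : ℂ) ^ 2‖ = ‖w‖ ^ 2 := by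
    rw [norm_pow, Complex.norm_real, norm_norm]
  have h5 : ‖w‖ ^ 2 ≤ C * ‖w‖ := by
    rw [← h4]; exact h3
  by_contra hcon
  push Not at hcon
  have : 0 ≤ C := norm_nonneg _
  nlinarith

end

end Pool.Agent.Q235.CP
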