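import Mathlib
import Pool.Agent.Q235.CP.Tr
import Pool.Agent.Q235.CP.Op

set_option autoImplicit false

/-! finite rank approximation in the ball -/

namespace Pool.Agent.Q235.CP

open MeasureTheory Filter Topology Complex
open scoped InnerProductSpace
open KRS (EE HH mulOp mulOp_ae mulOp_norm fm et fm_trans_ae Dh cubes avg ic cell)

noncomputable section

variable {d : ℕ}

/-- indicator of the unit ball -/
def chi (x : EE d) : ℂ := ({x : EE d | ‖x‖ < 1}).indicator (fun _ => (1 : ℂ)) x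

theorem chi_meas : Measurable (chi (d := d)) :=
  measurable_const.indicator (measurableSet_lt measurable_norm measurable_const)

theorem chi_le (x : EE d) : ‖chi x‖ ≤ 1 := by
  unfold chi
  by_cases h : x ∈ {x : EE d | ‖x‖ < 1}
  · rw [Set.indicator_of_mem h]; simp
  · rw [Set.indicator_of_notMem h]; simp

theorem chi_zero (x : EE d) (hx : 1 < ‖x‖) : chi x = 0 := by
  unfold chi
  rw [Set.indicator_of_notMem]
  intro h
  have : ‖x‖ < 1 := h
  linarith

/-- restriction to the ball -/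
def XX (d : ℕ) : HH d →L[ℂ] HH d := mulOp chi

/-- the finite rank operator -/
def Pc (d : ℕ) (η : ℝ) (M : ℤ) : HH d →L[ℂ] HH d :=
  ∑ n ∈ cubes d M, ((((volume (cell (d := d) η n)).toReal⁻¹ : ℝ) : ℂ) •
    (innerSL ℂ (ic d η n))).smulRight (mulOp chi (ic d η n))

theorem avg_eq (η : ℝ) (u : HH d) (n : Fin d → ℤ) :
    avg η u n = (((volume (cell (d := d) η n)).toReal⁻¹ : ℝ) : ℂ) * ⟪ic d η n, u⟫_ℂ := by
  unfold avg ic
  rw [integral_smul_measure, L2.inner_indicatorConstLp_one, ENNReal.toReal_inv, real_smul]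

theorem Pc_apply (η : ℝ) (M : ℤ) (u : HH d) :
    Pc d η M u = ∑ n ∈ cubes d M, avg η u n • mulOp chi (ic d η n) := by
  unfold Pc
  rw [sum_apply]
  apply Finset.sum_congr rfl
  intro n _
  rw [avg_eq]
  rfl

theorem Pc_compact (η : ℝ) (M : ℤ) : IsCompactOperator (Pc d η M) := by
  unfold Pc
  have : ∀ S : Finset (Fin d → ℤ), IsCompactOperator ((∑ n ∈ S,
      ((((volume (cell (d := d) η n)).toReal⁻¹ : ℝ) : ℂ) •
      (innerSL ℂ (ic d η n))).smulRight (mulOp chi (ic d η n)) : HH d →L[ℂ] HH d)) := by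
    classical
    intro S
    induction S using Finset.induction_on with
    | empty => rw [Finset.sum_empty]; exact isCompactOperator_zero
    | insert n S hn ih =>
      rw [Finset.sum_insert hn]
      refine IsCompactOperator.add ?_ ih
      have h1 : IsCompactOperator (((((volume (cell (d := d) η n)).toReal⁻¹ : ℝ) : ℂ) •
        (innerSL ℂ (ic d η n))) : HH d →L[ℂ] ℂ) := isCompactOperator_of_locallyCompactSpace_dom _
      exact h1.clm_comp (ContinuousLinearMap.toSpanSingleton ℂ (mulOp chi (ic d η n)))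
  exact this _

theorem cell_approx {u : HH d} {D : Fin d → HH d} (hD : IsGrad u D) (η : ℝ) (hη : 0 < η)
    (M : ℤ) (hM : 1 / η ≤ M) : ‖XX d u - Pc d η M u‖ ≤ 2 ^ d * (η * ∑ i, ‖D i‖) := by
  have hS : 0 ≤ ∑ i, ‖D i‖ := Finset.sum_nonneg fun _ _ => norm_nonneg _
  have hK : ∀ t ∈ Dh d η, ∫⁻ x, ‖u x - u (x + t)‖ₑ ^ 2 ≤ ENNReal.ofReal (η * ∑ i, ‖D i‖) ^ 2 := by
    intro t ht
    have h1 := trans_norm hD t
    have h2 : ‖(∑ i, ((t i : ℝ) : ℂ) • D i : HH d)‖ ≤ η * ∑ i, ‖D i‖ := by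
      refine (norm_sum_le _ _).trans ?_
      rw [Finset.mul_sum]
      apply Finset.sum_le_sum
      intro i _
      rw [norm_smul]
      apply mul_le_mul_of_nonneg_right _ (norm_nonneg _)
      rw [Complex.norm_real, Real.norm_eq_abs, abs_le]
      have := ht i (Set.mem_univ i)
      exact ⟨this.1.le, this.2.le⟩
    have h3 : ∫⁻ x, ‖u x - u (x + t)‖ₑ ^ 2 = ∫⁻ x, ‖(fm (et t) u - u : HH d) x‖ₑ ^ 2 := by
      apply lintegral_congr_ae
      filter_upwards [Lp.coeFn_sub (fm (et t) u) u, fm_trans_ae t u] with x hx hx2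
      rw [hx, Pi.sub_apply, hx2, enorm_sub_rev]
    rw [h3, ← KRS.enorm_sq]
    gcongr
    rw [← ofReal_norm]
    exact ENNReal.ofReal_le_ofReal (h1.trans h2)
  have h4 := KRS.key (L := 1) hη M hM (chi (d := d)) chi_meas chi_le chi_zero u _ hK
  rw [← Pc_apply] at h4
  have h5 : ‖XX d u - Pc d η M u‖ₑ ≤ ENNReal.ofReal (2 ^ d * (η * ∑ i, ‖D i‖)) := by
    have h6 : ‖XX d u - Pc d η M u‖ₑ ^ 2 ≤ ENNReal.ofReal (2 ^ d * (η * ∑ i, ‖D i‖)) ^ 2 := by
      refine h4.trans ?_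
      rw [ENNReal.ofReal_mul (p := 2 ^ d) (by positivity), mul_pow]
      refine mul_le_mul' ?_ le_rfl
      have e : ENNReal.ofReal (2 ^ d) = 2 ^ d := by
        rw [ENNReal.ofReal_pow (by norm_num)]; simp
      rw [e]
      have h1 : (1 : ENNReal) ≤ 2 ^ d := one_le_pow₀ (by norm_num)
      calc (2 : ENNReal) ^ d = 2 ^ d * 1 := (mul_one _).symm
        _ ≤ 2 ^ d * 2 ^ d := by gcongr
        _ = (2 ^ d) ^ 2 := (sq _).symm
    exact (ENNReal.pow_le_pow_left_iff (by norm_num)).1 h6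
  rw [← ofReal_norm] at h5
  exact (ENNReal.ofReal_le_ofReal_iff (by positivity)).1 h5

/-- an energy bound gives an approximation bound -/
theorem cell_approx' {u : HH d} {D : Fin d → HH d} (hD : IsGrad u D) (η : ℝ) (hη : 0 < η)
    (M : ℤ) (hM : 1 / η ≤ M) (h E : ℝ) (hh : 0 < h) (hE : 0 ≤ E)
    (hDE : h ^ 2 * ∑ i, ‖D i‖ ^ 2 ≤ E ^ 2) :
    ‖XX d u - Pc d η M u‖ ≤ 2 ^ d * d * (η / h) * E := by
  refine (cell_approx hD η hη M hM).trans ?_
  have h1 : ∀ i, ‖D i‖ ≤ E / h := by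
    intro i
    rw [le_div_iff₀ hh]
    apply le_of_sq_le_sq _ hE
    refine le_trans ?_ hDE
    rw [mul_pow, mul_comm]
    apply mul_le_mul_of_nonneg_left _ (sq_nonneg h)
    exact Finset.single_le_sum (f := fun i => ‖D i‖ ^ 2) (fun _ _ => sq_nonneg _)
      (Finset.mem_univ i)
  have h2 : ∑ i, ‖D i‖ ≤ d * (E / h) := by
    refine (Finset.sum_le_sum fun i _ => h1 i).trans ?_
    rw [Finset.sum_const, Finset.card_univ, Fintype.card_fin, nsmul_eq_mul]
  calc 2 ^ d * (η * ∑ i, ‖D i‖) ≤ 2 ^ d * (η * (d * (E / h))) := by gcongr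
    _ = _ := by field_simp

/-- compactness -/
theorem XB_compact {h : ℝ} (hh : 0 < h) {W : EE d → ℝ} (hW : Measurable W)
    (hW0 : ∀ x, 0 ≤ W x) : IsCompactOperator (XX d ∘L BB h W) := by
  have hpos := BB_pos (d := d) h W
  let η : ℕ → ℝ := fun k => 1 / ((k : ℝ) + 1)
  have hη : ∀ k, 0 < η k := fun k => by positivity
  let F : ℕ → (HH d →L[ℂ] HH d) := fun k => Pc d (η k) ⌈1 / η k⌉ ∘L BB h W
  have hF : ∀ k, IsCompactOperator (F k) := fun k =>
    (Pc_compact (d := d) (η k) ⌈1 / η k⌉).comp_clm (BB h W)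
  have hb : ∀ k, ‖F k - XX d ∘L BB h W‖ ≤ 2 ^ d * d * (η k / h) * 2 := by
    intro k
    apply ContinuousLinearMap.opNorm_le_bound _ (by have := hη k; positivity)
    intro y
    set u := BB h W y with hu
    have hrel : Rel (BB h W) u (y - u) := by
      show u = BB h W (y - u + u)
      rw [sub_add_cancel]
    obtain ⟨D, h1, h2, h3⟩ := ((rel_iff hh hW hW0 u (y - u)).1 hrel).energy
    have hun : ‖u‖ ≤ ‖y‖ := hpos.norm_le y
    have h4 : h ^ 2 * ∑ i, ‖D i‖ ^ 2 ≤ (2 * ‖y‖) ^ 2 := by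
      have h5 : 0 ≤ ∫ x, W x * ‖u x‖ ^ 2 :=
        integral_nonneg fun x => mul_nonneg (hW0 x) (sq_nonneg _)
      have h6 : (⟪u, y - u⟫_ℂ).re ≤ ‖u‖ * ‖y - u‖ :=
        (Complex.re_le_norm _).trans (norm_inner_le_norm _ _)
      have h7 : ‖y - u‖ ≤ ‖y‖ + ‖u‖ := norm_sub_le _ _
      nlinarith [norm_nonneg y, norm_nonneg u, norm_nonneg (y - u)]
    have h8 := cell_approx' h1 (η k) (hη k) ⌈1 / η k⌉ (Int.le_ceil _) h (2 * ‖y‖) hh
      (by positivity) h4
    show ‖Pc d (η k) ⌈1 / η k⌉ u - XX d u‖ ≤ _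
    rw [norm_sub_rev]
    refine h8.trans (le_of_eq ?_)
    ring
  have hlim : Tendsto F atTop (𝓝 (XX d ∘L BB h W)) := by
    rw [tendsto_iff_norm_sub_tendsto_zero]
    have h0 : Tendsto (fun k => 2 ^ d * d * (η k / h) * 2) atTop (𝓝 0) := by
      have h1 : Tendsto η atTop (𝓝 0) := tendsto_one_div_add_atTop_nhds_zero_nat
      have h2 := ((h1.div_const h).const_mul (2 ^ d * (d : ℝ))).mul_const 2
      simpa using h2
    exact squeeze_zero (fun k => norm_nonneg _) hb h0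
  exact isCompactOperator_of_tendsto hlim (Eventually.of_forall hF)

end

end Pool.Agent.Q235.CP
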