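import Mathlib
import Pool.Agent.Q235.CP.Cpt

set_option autoImplicit false

/-! the weighted estimate -/

namespace Pool.Agent.Q235.CP

open MeasureTheory Filter Topology Complex
open scoped InnerProductSpace
open KRS (EE HH mulOp mulOp_ae mulOp_norm mulOp_inner)

noncomputable section

variable {d : ℕ}

theorem nsq (g : HH d) : ‖g‖ ^ 2 = ∫ x, ‖g x‖ ^ 2 := by
  have h1 : ((‖g‖ ^ 2 : ℝ) : ℂ) = ⟪g, g⟫_ℂ := by
    rw [inner_self_eq_norm_sq_to_K]; push_cast; rfl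
  have h2 : ⟪g, g⟫_ℂ = ((∫ x, ‖g x‖ ^ 2 : ℝ) : ℂ) := by
    rw [L2.inner_def, ← integral_complex_ofReal]
    apply integral_congr_ae
    filter_upwards with x
    rw [inner_self_eq_norm_sq_to_K]
    push_cast
    rfl
  exact_mod_cast h1.trans h2

theorem nsq_int (g : HH d) : Integrable (fun x => ‖g x‖ ^ 2) volume :=
  (memLp_two_iff_integrable_sq_norm (Lp.aestronglyMeasurable _)).1 (Lp.memLp _)

theorem nsq_mul {m : EE d → ℂ} (hm : Measurable m) (C : ℝ) (hC : ∀ x, ‖m x‖ ≤ C) (u : HH d) :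
    ‖mulOp m u‖ ^ 2 = ∫ x, ‖m x‖ ^ 2 * ‖u x‖ ^ 2 := by
  rw [nsq]
  apply integral_congr_ae
  filter_upwards [mulOp_ae m hm C hC u] with x hx
  rw [hx, norm_mul, mul_pow]

theorem nsq_mul_int {m : EE d → ℂ} (hm : Measurable m) (C : ℝ) (hC : ∀ x, ‖m x‖ ≤ C) (u : HH d) :
    Integrable (fun x => ‖m x‖ ^ 2 * ‖u x‖ ^ 2) volume := by
  refine (nsq_int (mulOp m u)).congr ?_
  filter_upwards [mulOp_ae m hm C hC u] with x hx
  rw [hx, norm_mul, mul_pow]

/-- moving real multipliers -/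
theorem inner_mul_mul {a b c e : EE d → ℝ} (ha : Measurable a) (hb : Measurable b)
    (hc : Measurable c) (he : Measurable e) (C : ℝ) (hCa : ∀ x, |a x| ≤ C) (hCb : ∀ x, |b x| ≤ C)
    (hCc : ∀ x, |c x| ≤ C) (hCe : ∀ x, |e x| ≤ C) (h : ∀ x, a x * b x = c x * e x) (u v : HH d) :
    ⟪mulOp (fun x => (a x : ℂ)) u, mulOp (fun x => (b x : ℂ)) v⟫_ℂ =
      ⟪mulOp (fun x => (c x : ℂ)) u, mulOp (fun x => (e x : ℂ)) v⟫_ℂ := by
  have key : ∀ {a : EE d → ℝ}, Measurable a → (∀ x, |a x| ≤ C) → ∀ u : HH d,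
      (mulOp (fun x => (a x : ℂ)) u : EE d → ℂ) =ᵐ[volume] fun x => (a x : ℂ) * u x := by
    intro a ha hC u
    exact mulOp_ae _ (Complex.measurable_ofReal.comp ha) C
      (fun x => by rw [Function.comp_apply, Complex.norm_real]; exact hC x) u
  rw [L2.inner_def, L2.inner_def]
  apply integral_congr_ae
  filter_upwards [key ha hCa u, key hb hCb v, key hc hCc u, key he hCe v] with x h1 h2 h3 h4
  rw [h1, h2, h3, h4, RCLike.inner_apply, RCLike.inner_apply, map_mul, map_mul,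
    Complex.conj_ofReal, Complex.conj_ofReal]
  have h5 : (a x : ℂ) * (b x : ℂ) = (c x : ℂ) * (e x : ℂ) := by
    rw [← Complex.ofReal_mul, h x, Complex.ofReal_mul]
  linear_combination ((v : EE d → ℂ) x * (starRingEnd ℂ) ((u : EE d → ℂ) x)) * h5

/-- the weighted estimate -/
theorem agmon {h : ℝ} {W : EE d → ℝ} {u f : HH d}
    {z : ℂ} (hF : FE h W u (f + z • u - I • XX d u)) (θ : ℝ) (hθ : 0 ≤ θ) {ψ : EE d → ℝ}
    (hψ : ContDiff ℝ (⊤ : ℕ∞) ψ) (C : ℝ) (hC : ∀ x, |ψ x| ≤ C)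
    (hC' : ∀ i x, |fderiv ℝ ψ x (EuclideanSpace.single i 1)| ≤ C) (A : ℝ)
    (hc : ∀ x, ψ x ^ 2 - A ≤ (W x - z.re + θ * (z.im - ‖chi x‖ ^ 2)) * ψ x ^ 2 -
      (1 + θ ^ 2) * h ^ 2 * ∑ i, (fderiv ℝ ψ x (EuclideanSpace.single i 1)) ^ 2) :
    ‖mulOp (fun x => (ψ x : ℂ)) u‖ ^ 2 ≤ A * ‖u‖ ^ 2 +
      (1 + θ) * (‖mulOp (fun x => (ψ x : ℂ)) u‖ * ‖mulOp (fun x => (ψ x : ℂ)) f‖) := by
  have hC0 : 0 ≤ C := (abs_nonneg _).trans (hC 0)
  have hψm : Measurable ψ := hψ.continuous.measurable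
  set g : Fin d → EE d → ℝ := fun i x => fderiv ℝ ψ x (EuclideanSpace.single i 1) with hg
  have hgm : ∀ i, Measurable (g i) := fun i =>
    ((hψ.fderiv_right (m := (⊤ : ℕ∞)) (by simp)).clm_apply contDiff_const).continuous.measurable
  set w : EE d → ℂ := fun x => ((ψ x ^ 2 : ℝ) : ℂ) with hw
  have hwc : ContDiff ℝ (⊤ : ℕ∞) w := Complex.ofRealCLM.contDiff.comp (hψ.pow 2)
  have hpw : ∀ i x, pder i w x = ((2 * ψ x * g i x : ℝ) : ℂ) := by
    intro i x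
    have h1 : HasFDerivAt ψ (fderiv ℝ ψ x) x := ((hψ.differentiable (by simp)) x).hasFDerivAt
    have h2 : HasFDerivAt (fun x => ψ x ^ 2) ((2 * ψ x ^ 1) • fderiv ℝ ψ x) x := by
      have := h1.pow 2
      simpa using this
    have h3 : HasFDerivAt w (Complex.ofRealCLM.comp ((2 * ψ x ^ 1) • fderiv ℝ ψ x)) x :=
      (Complex.ofRealCLM.hasFDerivAt (x := ψ x ^ 2)).comp x h2
    unfold pder
    rw [h3.fderiv]
    simp [hg]
  have hwb : ∀ x, ‖w x‖ ≤ C ^ 2 + 2 * C * C := by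
    intro x
    rw [hw]
    simp only
    rw [Complex.norm_real, Real.norm_eq_abs, abs_of_nonneg (sq_nonneg _), ← sq_abs]
    have := hC x
    have h2 := abs_nonneg (ψ x)
    nlinarith
  have hpb : ∀ i x, ‖pder i w x‖ ≤ C ^ 2 + 2 * C * C := by
    intro i x
    rw [hpw, Complex.norm_real, Real.norm_eq_abs, abs_mul, abs_mul, abs_two]
    have h1 := hC x
    have h2 := hC' i x
    have h3 : |ψ x| * |g i x| ≤ C * C := mul_le_mul h1 h2 (abs_nonneg _) hC0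
    nlinarith [sq_nonneg C]
  obtain ⟨D, hD, hu, hform⟩ := hF
  set P : HH d := mulOp (fun x => (ψ x : ℂ)) u with hP
  set Q : HH d := mulOp (fun x => (ψ x : ℂ)) f with hQ
  set Pj : Fin d → HH d := fun i => mulOp (fun x => (ψ x : ℂ)) (D i) with hPj
  set Ri : Fin d → HH d := fun i => mulOp (fun x => (g i x : ℂ)) u with hRi
  have hφW : Fin2 W (mulOp w u) := by
    have h1 : Integrable (fun x => (ψ x ^ 2) ^ 2 * (W x * ‖u x‖ ^ 2)) volume := by
      apply hu.bdd_mul (c := (C ^ 2) ^ 2) (by fun_prop)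
      filter_upwards with x
      rw [Real.norm_eq_abs, abs_of_nonneg (by positivity)]
      have h2 : ψ x ^ 2 ≤ C ^ 2 := by
        rw [← sq_abs]
        exact pow_le_pow_left₀ (abs_nonneg _) (hC x) 2
      exact pow_le_pow_left₀ (sq_nonneg _) h2 2
    refine h1.congr ?_
    filter_upwards [mulOp_ae w hwc.continuous.measurable _ hwb u] with x hx
    rw [hx, norm_mul, mul_pow, hw]
    simp only
    rw [Complex.norm_real, Real.norm_eq_abs, sq_abs]
    ring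
  have h1 := hform _ _ (hD.mul hwc _ hwb hpb) hφW
  -- rewrite the terms
  have one_m : Measurable fun _ : EE d => (1 : ℝ) := measurable_const
  have hmul1 : ∀ v : HH d, mulOp (fun _ : EE d => (((1 : ℝ)) : ℂ)) v = v := by
    intro v
    apply Lp.ext
    filter_upwards [mulOp_ae (fun _ : EE d => (((1 : ℝ)) : ℂ)) measurable_const 1 (by simp) v]
      with x hx
    rw [hx]; simp
  set C1 : ℝ := C ^ 2 + 2 * C * C + C + 1 with hC1
  have hC1a : C ^ 2 + 2 * C * C ≤ C1 := by rw [hC1]; linarith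
  have hC1b : C ≤ C1 := by rw [hC1]; nlinarith [sq_nonneg C]
  have hC1c : 1 ≤ C1 := by rw [hC1]; nlinarith [sq_nonneg C]
  have habs1 : ∀ x : EE d, |(1 : ℝ)| ≤ C1 := fun x => by rw [abs_one]; exact hC1c
  have hwabs : ∀ x, |ψ x ^ 2| ≤ C1 := fun x => by
    have := hwb x
    rw [hw] at this
    simp only at this
    rw [Complex.norm_real] at this
    exact this.trans hC1a
  have hpabs : ∀ i x, |2 * ψ x * g i x| ≤ C1 := fun i x => by
    have := hpb i x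
    rw [hpw, Complex.norm_real] at this
    exact this.trans hC1a
  have hψabs : ∀ x, |ψ x| ≤ C1 := fun x => (hC x).trans hC1b
  have hgabs : ∀ i x, |g i x| ≤ C1 := fun i x => (hC' i x).trans hC1b
  have e1 : ∀ i, ⟪mulOp w (D i) + mulOp (pder i w) u, D i⟫_ℂ =
      ((‖Pj i‖ ^ 2 : ℝ) : ℂ) + 2 * ⟪Ri i, Pj i⟫_ℂ := by
    intro i
    have e2 : ⟪mulOp w (D i), D i⟫_ℂ = ⟪Pj i, Pj i⟫_ℂ := by
      conv_lhs => rw [← hmul1 (D i)]
      rw [hmul1 (D i)]
      conv_lhs =>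
        arg 3
        rw [← hmul1 (D i)]
      exact inner_mul_mul (hψm.pow_const 2) one_m hψm hψm C1 hwabs habs1 hψabs hψabs
        (fun x => by ring) (D i) (D i)
    have e3 : ⟪mulOp (pder i w) u, D i⟫_ℂ = 2 * ⟪Ri i, Pj i⟫_ℂ := by
      have e4 : pder i w = fun x => ((2 * ψ x * g i x : ℝ) : ℂ) := funext (hpw i)
      rw [e4]
      conv_lhs =>
        arg 3
        rw [← hmul1 (D i)]
      rw [inner_mul_mul (a := fun x => 2 * ψ x * g i x) (b := fun _ => 1)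
        (c := fun x => g i x) (e := fun x => 2 * ψ x)
        ((measurable_const.mul hψm).mul (hgm i)) one_m (hgm i) (measurable_const.mul hψm)
        (2 * C1) (fun x => (hpabs i x).trans (by linarith))
        (fun x => (habs1 x).trans (by linarith)) (fun x => (hgabs i x).trans (by linarith))
        (fun x => by
          rw [abs_mul, abs_two]
          have := hψabs x
          linarith) (fun x => by ring) u (D i)]
      have e5 : mulOp (fun x => ((2 * ψ x : ℝ) : ℂ)) (D i) = (2 : ℂ) • Pj i := by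
        apply Lp.ext
        filter_upwards [mulOp_ae (fun x => ((2 * ψ x : ℝ) : ℂ))
            (Complex.measurable_ofReal.comp (measurable_const.mul hψm)) (2 * C) (fun x => by
              rw [Complex.norm_real, Real.norm_eq_abs, abs_mul, abs_two]
              have := hC x
              linarith) (D i),
          Lp.coeFn_smul (2 : ℂ) (Pj i), mulOp_ae (fun x => (ψ x : ℂ))
            (Complex.measurable_ofReal.comp hψm) C (fun x => by
              rw [Complex.norm_real]; exact hC x) (D i)] with x a1 a2 a3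
        rw [a1, a2, Pi.smul_apply, hPj]
        simp only
        rw [a3, smul_eq_mul]
        push_cast
        ring
      rw [e5, inner_smul_right]
    rw [inner_add_left, e2, e3, inner_self_eq_norm_sq_to_K]
    push_cast
    rfl
  have e6 : ⟪mulOp w u, f + z • u - I • XX d u⟫_ℂ =
      ⟪P, Q⟫_ℂ + z * ((‖P‖ ^ 2 : ℝ) : ℂ) - I * ((‖XX d P‖ ^ 2 : ℝ) : ℂ) := by
    have e7 : ∀ v : HH d, ⟪mulOp w u, v⟫_ℂ = ⟪P, mulOp (fun x => (ψ x : ℂ)) v⟫_ℂ := by
      intro v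
      conv_lhs =>
        arg 3
        rw [← hmul1 v]
      exact inner_mul_mul (hψm.pow_const 2) one_m hψm hψm C1 hwabs habs1 hψabs hψabs
        (fun x => by ring) u v
    have e8 : mulOp (fun x => (ψ x : ℂ)) (XX d u) = XX d P := by
      apply Lp.ext
      have hψb : ∀ x, ‖(ψ x : ℂ)‖ ≤ C := fun x => by rw [Complex.norm_real]; exact hC x
      filter_upwards [mulOp_ae (fun x => (ψ x : ℂ)) (Complex.measurable_ofReal.comp hψm) C hψb
          (XX d u), mulOp_ae chi chi_meas 1 chi_le u, mulOp_ae chi chi_meas 1 chi_le P,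
        mulOp_ae (fun x => (ψ x : ℂ)) (Complex.measurable_ofReal.comp hψm) C hψb u]
        with x a1 a2 a3 a4
      rw [a1]
      show (ψ x : ℂ) * (mulOp chi u : EE d → ℂ) x = (mulOp chi P : EE d → ℂ) x
      rw [a2, a3, hP, a4]
      ring
    have e9 : ⟪P, XX d P⟫_ℂ = ((‖XX d P‖ ^ 2 : ℝ) : ℂ) := by
      have e10 : XX d (XX d P) = XX d P := by
        apply Lp.ext
        filter_upwards [mulOp_ae chi chi_meas 1 chi_le P,
          mulOp_ae chi chi_meas 1 chi_le (XX d P)] with x a1 a2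
        show (mulOp chi (XX d P) : EE d → ℂ) x = (mulOp chi P : EE d → ℂ) x
        rw [a2]
        show chi x * (mulOp chi P : EE d → ℂ) x = _
        rw [a1]
        unfold chi
        by_cases hx : x ∈ {x : EE d | ‖x‖ < 1}
        · rw [Set.indicator_of_mem hx]; ring
        · rw [Set.indicator_of_notMem hx]; ring
      have e11 : ⟪P, XX d (XX d P)⟫_ℂ = ⟪XX d P, XX d P⟫_ℂ := by
        have h2 := mulOp_inner (chi (d := d)) chi_meas 1 chi_le P (XX d P)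
        have h3 : (fun x => (starRingEnd ℂ) (chi (d := d) x)) = chi := by
          funext x
          unfold chi
          by_cases hx : x ∈ {x : EE d | ‖x‖ < 1}
          · rw [Set.indicator_of_mem hx]; simp
          · rw [Set.indicator_of_notMem hx]; simp
        rw [h3] at h2
        exact h2.symm
      rw [e10] at e11
      rw [e11, inner_self_eq_norm_sq_to_K]
      push_cast
      rfl
    rw [inner_sub_right, inner_add_right, inner_smul_right, inner_smul_right, e7 f, e7 u,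
      e7 (XX d u), e8, e9]
    have e12 : ⟪P, mulOp (fun x => (ψ x : ℂ)) u⟫_ℂ = ((‖P‖ ^ 2 : ℝ) : ℂ) := by
      rw [← hP, inner_self_eq_norm_sq_to_K]
      push_cast
      rfl
    rw [e12]
  have hWint : Integrable (fun x => W x * (ψ x ^ 2 * ‖u x‖ ^ 2)) volume := by
    have h2 : Integrable (fun x => ψ x ^ 2 * (W x * ‖u x‖ ^ 2)) volume := by
      apply hu.bdd_mul (c := C ^ 2) (by fun_prop)
      filter_upwards with x
      rw [Real.norm_eq_abs, abs_of_nonneg (by positivity), ← sq_abs]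
      exact pow_le_pow_left₀ (abs_nonneg _) (hC x) 2
    refine h2.congr (ae_of_all _ fun x => ?_)
    show ψ x ^ 2 * (W x * ‖u x‖ ^ 2) = W x * (ψ x ^ 2 * ‖u x‖ ^ 2)
    ring
  have e13 : ∫ x, (W x : ℂ) * u x * (starRingEnd ℂ) ((mulOp w u : HH d) x) =
      ((∫ x, W x * (ψ x ^ 2 * ‖u x‖ ^ 2) : ℝ) : ℂ) := by
    rw [← integral_complex_ofReal]
    apply integral_congr_ae
    filter_upwards [mulOp_ae w hwc.continuous.measurable _ hwb u] with x hx
    rw [hx, map_mul, hw]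
    simp only
    rw [Complex.conj_ofReal]
    have e14 : (u : EE d → ℂ) x * (starRingEnd ℂ) ((u : EE d → ℂ) x) =
        ((‖(u : EE d → ℂ) x‖ ^ 2 : ℝ) : ℂ) := by
      rw [Complex.mul_conj, Complex.normSq_eq_norm_sq]
    push_cast at e14 ⊢
    linear_combination ((W x : ℂ) * (ψ x : ℂ) ^ 2) * e14
  simp only [e1] at h1
  rw [e6, e13] at h1
  -- take the real part of (1 + iθ) times the identity
  have h2 := congrArg (fun c : ℂ => ((1 + θ * I) * c).re) h1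
  have e15 : ((1 + θ * I) * (((h ^ 2 : ℝ) : ℂ) * ∑ i, (((‖Pj i‖ ^ 2 : ℝ) : ℂ) +
      2 * ⟪Ri i, Pj i⟫_ℂ) + ((∫ x, W x * (ψ x ^ 2 * ‖u x‖ ^ 2) : ℝ) : ℂ))).re =
      h ^ 2 * ∑ i, (‖Pj i‖ ^ 2 + 2 * ((1 + θ * I) * ⟪Ri i, Pj i⟫_ℂ).re) +
        ∫ x, W x * (ψ x ^ 2 * ‖u x‖ ^ 2) := by
    rw [mul_add, Complex.add_re]
    congr 1
    · rw [mul_left_comm, Complex.re_ofReal_mul, Finset.mul_sum, Complex.re_sum]
      congr 1
      apply Finset.sum_congr rfl
      intro i _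
      rw [mul_add, Complex.add_re]
      congr 1
      · rw [Complex.re_mul_ofReal]; simp
      · rw [mul_left_comm]
        have : (2 : ℂ) = ((2 : ℝ) : ℂ) := by norm_num
        rw [this, Complex.re_ofReal_mul]
    · rw [Complex.re_mul_ofReal]; simp
  have e16 : ((1 + θ * I) * (⟪P, Q⟫_ℂ + z * ((‖P‖ ^ 2 : ℝ) : ℂ) - I * ((‖XX d P‖ ^ 2 : ℝ) : ℂ))).re =
      ((1 + θ * I) * ⟪P, Q⟫_ℂ).re + (z.re - θ * z.im) * ‖P‖ ^ 2 + θ * ‖XX d P‖ ^ 2 := by
    rw [mul_sub, mul_add, Complex.sub_re, Complex.add_re]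
    have a1 : ((1 + θ * I) * (z * ((‖P‖ ^ 2 : ℝ) : ℂ))).re = (z.re - θ * z.im) * ‖P‖ ^ 2 := by
      rw [← mul_assoc, Complex.re_mul_ofReal]
      congr 1
      simp [Complex.mul_re, Complex.add_re, Complex.add_im]
    have a2 : ((1 + θ * I) * (I * ((‖XX d P‖ ^ 2 : ℝ) : ℂ))).re = - (θ * ‖XX d P‖ ^ 2) := by
      rw [← mul_assoc, Complex.re_mul_ofReal]
      simp [Complex.mul_re, Complex.add_re, Complex.add_im]
    rw [a1, a2]
    ring
  rw [e15, e16] at h2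
  -- bounds
  have hθn : ‖(1 + θ * I : ℂ)‖ ^ 2 = 1 + θ ^ 2 := by
    rw [← Complex.normSq_eq_norm_sq, Complex.normSq_apply]
    simp
    ring
  have hθ1 : ‖(1 + θ * I : ℂ)‖ ≤ 1 + θ := by
    refine (norm_add_le _ _).trans ?_
    rw [norm_one, norm_mul, Complex.norm_I, mul_one, Complex.norm_real, Real.norm_eq_abs,
      abs_of_nonneg hθ]
  have b1 : ∀ i, -(‖Pj i‖ ^ 2 + (1 + θ ^ 2) * ‖Ri i‖ ^ 2) ≤
      2 * ((1 + θ * I) * ⟪Ri i, Pj i⟫_ℂ).re := by
    intro i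
    have a1 : |((1 + θ * I) * ⟪Ri i, Pj i⟫_ℂ).re| ≤ ‖(1 + θ * I : ℂ)‖ * (‖Ri i‖ * ‖Pj i‖) := by
      refine (Complex.abs_re_le_norm _).trans ?_
      rw [norm_mul]
      exact mul_le_mul_of_nonneg_left (norm_inner_le_norm _ _) (norm_nonneg _)
    have a2 := neg_abs_le ((1 + θ * I) * ⟪Ri i, Pj i⟫_ℂ).re
    have a3 := sq_nonneg (‖(1 + θ * I : ℂ)‖ * ‖Ri i‖ - ‖Pj i‖)
    have a4 : (‖(1 + θ * I : ℂ)‖ * ‖Ri i‖) ^ 2 = (1 + θ ^ 2) * ‖Ri i‖ ^ 2 := by
      rw [mul_pow, hθn]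
    nlinarith
  have b2 : ((1 + θ * I) * ⟪P, Q⟫_ℂ).re ≤ (1 + θ) * (‖P‖ * ‖Q‖) := by
    refine (Complex.re_le_norm _).trans ?_
    rw [norm_mul]
    exact mul_le_mul hθ1 (norm_inner_le_norm _ _) (norm_nonneg _) (by linarith)
  have b3 : ∑ i, (‖Pj i‖ ^ 2 + 2 * ((1 + θ * I) * ⟪Ri i, Pj i⟫_ℂ).re) ≥
      ∑ i, (-((1 + θ ^ 2) * ‖Ri i‖ ^ 2)) := by
    apply Finset.sum_le_sum
    intro i _
    have := b1 i
    linarith
  have b4 : h ^ 2 * ∑ i, (‖Pj i‖ ^ 2 + 2 * ((1 + θ * I) * ⟪Ri i, Pj i⟫_ℂ).re) ≥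
      h ^ 2 * ∑ i, (-((1 + θ ^ 2) * ‖Ri i‖ ^ 2)) :=
    mul_le_mul_of_nonneg_left b3 (sq_nonneg h)
  have b5 : (∫ x, W x * (ψ x ^ 2 * ‖u x‖ ^ 2)) - (1 + θ ^ 2) * h ^ 2 * ∑ i, ‖Ri i‖ ^ 2 -
      (z.re - θ * z.im) * ‖P‖ ^ 2 - θ * ‖XX d P‖ ^ 2 ≤ (1 + θ) * (‖P‖ * ‖Q‖) := by
    have : h ^ 2 * ∑ i, (-((1 + θ ^ 2) * ‖Ri i‖ ^ 2)) =
        - ((1 + θ ^ 2) * h ^ 2 * ∑ i, ‖Ri i‖ ^ 2) := by
      rw [Finset.sum_neg_distrib, ← Finset.mul_sum]
      ring
    rw [this] at b4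
    linarith
  -- integrals
  have hψb : ∀ x, ‖(ψ x : ℂ)‖ ≤ C := fun x => by rw [Complex.norm_real]; exact hC x
  have hψcm : Measurable fun x => (ψ x : ℂ) := Complex.measurable_ofReal.comp hψm
  have hgcm : ∀ i, Measurable fun x => (g i x : ℂ) := fun i =>
    Complex.measurable_ofReal.comp (hgm i)
  have n1 : ‖P‖ ^ 2 = ∫ x, ψ x ^ 2 * ‖u x‖ ^ 2 := by
    rw [hP, nsq_mul hψcm C hψb]
    simp only [Complex.norm_real, Real.norm_eq_abs, sq_abs]
  have i1 : Integrable (fun x => ψ x ^ 2 * ‖u x‖ ^ 2) volume := by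
    have := nsq_mul_int hψcm C hψb u
    simpa only [Complex.norm_real, Real.norm_eq_abs, sq_abs] using this
  have n2 : ∀ i, ‖Ri i‖ ^ 2 = ∫ x, g i x ^ 2 * ‖u x‖ ^ 2 := by
    intro i
    have hgb : ∀ x, ‖(g i x : ℂ)‖ ≤ C := fun x => by rw [Complex.norm_real]; exact hC' i x
    rw [hRi]
    simp only
    rw [nsq_mul (hgcm i) C hgb]
    simp only [Complex.norm_real, Real.norm_eq_abs, sq_abs]
  have i2 : ∀ i, Integrable (fun x => g i x ^ 2 * ‖u x‖ ^ 2) volume := by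
    intro i
    have hgb : ∀ x, ‖(g i x : ℂ)‖ ≤ C := fun x => by rw [Complex.norm_real]; exact hC' i x
    have := nsq_mul_int (hgcm i) C hgb u
    simpa only [Complex.norm_real, Real.norm_eq_abs, sq_abs] using this
  have n3 : ‖XX d P‖ ^ 2 = ∫ x, ‖chi x‖ ^ 2 * (ψ x ^ 2 * ‖u x‖ ^ 2) := by
    show ‖mulOp chi P‖ ^ 2 = _
    rw [nsq_mul chi_meas 1 chi_le P]
    apply integral_congr_ae
    filter_upwards [mulOp_ae (fun x => (ψ x : ℂ)) (Complex.measurable_ofReal.comp hψm) C hψb u]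
      with x hx
    rw [hP, hx, norm_mul, mul_pow, Complex.norm_real, Real.norm_eq_abs, sq_abs]
  have i3 : Integrable (fun x => ‖chi x‖ ^ 2 * (ψ x ^ 2 * ‖u x‖ ^ 2)) volume := by
    apply i1.bdd_mul (c := 1) (chi_meas.norm.pow_const 2).aestronglyMeasurable
    filter_upwards with x
    rw [Real.norm_eq_abs, abs_of_nonneg (sq_nonneg _)]
    exact pow_le_one₀ (norm_nonneg _) (chi_le x)
  have n4 := nsq u
  have i4 := nsq_int u
  have i5 : Integrable (fun x => ∑ i, g i x ^ 2 * ‖u x‖ ^ 2) volume :=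
    integrable_finsetSum _ fun i _ => i2 i
  have j1 : Integrable (fun x => (1 + θ ^ 2) * h ^ 2 * ∑ i, g i x ^ 2 * ‖u x‖ ^ 2) volume :=
    i5.const_mul _
  have j2 : Integrable (fun x => W x * (ψ x ^ 2 * ‖u x‖ ^ 2) -
      (1 + θ ^ 2) * h ^ 2 * ∑ i, g i x ^ 2 * ‖u x‖ ^ 2) volume := hWint.sub j1
  have j3 : Integrable (fun x => (z.re - θ * z.im) * (ψ x ^ 2 * ‖u x‖ ^ 2)) volume :=
    i1.const_mul _
  have j4 : Integrable (fun x => W x * (ψ x ^ 2 * ‖u x‖ ^ 2) -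
      (1 + θ ^ 2) * h ^ 2 * ∑ i, g i x ^ 2 * ‖u x‖ ^ 2 -
        (z.re - θ * z.im) * (ψ x ^ 2 * ‖u x‖ ^ 2)) volume := j2.sub j3
  have j5 : Integrable (fun x => θ * (‖chi x‖ ^ 2 * (ψ x ^ 2 * ‖u x‖ ^ 2))) volume :=
    i3.const_mul _
  have j6 : Integrable (fun x => A * ‖u x‖ ^ 2) volume := i4.const_mul A
  have key : (∫ x, (ψ x ^ 2 * ‖u x‖ ^ 2 - A * ‖u x‖ ^ 2)) ≤
      ∫ x, (W x * (ψ x ^ 2 * ‖u x‖ ^ 2) - (1 + θ ^ 2) * h ^ 2 * ∑ i, g i x ^ 2 * ‖u x‖ ^ 2 -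
        (z.re - θ * z.im) * (ψ x ^ 2 * ‖u x‖ ^ 2) -
          θ * (‖chi x‖ ^ 2 * (ψ x ^ 2 * ‖u x‖ ^ 2))) := by
    apply integral_mono (i1.sub j6) (j4.sub j5)
    intro x
    have h3 := mul_le_mul_of_nonneg_right (hc x) (sq_nonneg ‖(u : EE d → ℂ) x‖)
    simp only [Pi.sub_apply]
    rw [← Finset.sum_mul]
    have h4 : ∑ i, g i x ^ 2 = ∑ i, (fderiv ℝ ψ x (EuclideanSpace.single i 1)) ^ 2 := rfl
    rw [h4]
    nlinarith
  rw [integral_sub i1 j6, integral_sub j4 j5, integral_sub j2 j3, integral_sub hWint j1,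
    integral_const_mul, integral_const_mul, integral_const_mul, integral_const_mul,
    integral_finsetSum _ (fun i _ => i2 i), ← n1, ← n3, ← n4] at key
  simp only [← n2] at key
  linarith

end

end Pool.Agent.Q235.CP
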