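import Mathlib
import Pool.Agent.Q235.CP.Sa

set_option autoImplicit false

namespace Pool.Agent.Q235.CP

open Filter Topology

variable {H : Type*} [NormedAddCommGroup H] [InnerProductSpace ℂ H] [CompleteSpace H]

/-- denominator -/
def den (s x b : ℝ) : ℝ := (1 - 2 * (1 + x) * b) + ((1 + x) ^ 2 + s ^ 2) * b ^ 2

theorem den_eq (s x b : ℝ) : den s x b = (1 - (1 + x) * b) ^ 2 + s ^ 2 * b ^ 2 := by
  unfold den; ring

theorem den_pos (s x b : ℝ) (hs : 0 < s) : 0 < den s x b := by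
  rw [den_eq]
  by_cases hb : b = 0
  · subst hb; norm_num
  · have : 0 < s ^ 2 * b ^ 2 := by positivity
    nlinarith [sq_nonneg (1 - (1 + x) * b)]

theorem den_cont (s x : ℝ) : Continuous (den s x) := by
  unfold den; fun_prop

theorem cfc_den {B : H →L[ℂ] H} (hB : PosB B) (s x : ℝ) :
    cfc (den s x) B = TT B ((x : ℂ) + s * Complex.I) * TT B ((x : ℂ) - s * Complex.I) := by
  have hsa := hB.selfAdjoint
  have h1 : cfc (den s x) B = 1 - (2 * (1 + x)) • B + ((1 + x) ^ 2 + s ^ 2) • B ^ 2 := by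
    unfold den
    rw [cfc_add (a := B) (fun b : ℝ => 1 - 2 * (1 + x) * b) (fun b => ((1 + x) ^ 2 + s ^ 2) * b ^ 2),
      cfc_sub (a := B) (fun _ : ℝ => (1 : ℝ)) (fun b => 2 * (1 + x) * b), cfc_const_one ℝ B,
      cfc_const_mul_id (2 * (1 + x)) B, cfc_const_mul ((1 + x) ^ 2 + s ^ 2) (fun b : ℝ => b ^ 2) B,
      cfc_pow_id (R := ℝ) B 2]
  rw [h1]
  ext y
  have e1 : (1 - (2 * (1 + x)) • B + ((1 + x) ^ 2 + s ^ 2) • B ^ 2 : H →L[ℂ] H) y =
    y - ((2 * (1 + x) : ℝ) : ℂ) • B y + (((1 + x) ^ 2 + s ^ 2 : ℝ) : ℂ) • B (B y) := rfl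
  have e2 : (TT B ((x : ℂ) + s * Complex.I) * TT B ((x : ℂ) - s * Complex.I)) y =
    (y - (1 + ((x : ℂ) - s * Complex.I)) • B y) - (1 + ((x : ℂ) + s * Complex.I)) •
      B (y - (1 + ((x : ℂ) - s * Complex.I)) • B y) := rfl
  rw [e1, e2, map_sub, map_smul, smul_sub, smul_smul]
  have e3 : (((1 + x) ^ 2 + s ^ 2 : ℝ) : ℂ) =
      (1 + ((x : ℂ) + s * Complex.I)) * (1 + ((x : ℂ) - s * Complex.I)) := by
    push_cast
    ring_nf
    rw [Complex.I_sq]
    ring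
  have e4 : ((2 * (1 + x) : ℝ) : ℂ) =
      (1 + ((x : ℂ) + s * Complex.I)) + (1 + ((x : ℂ) - s * Complex.I)) := by
    push_cast
    ring
  rw [e3, e4, add_smul]
  abel

omit [CompleteSpace H] in
theorem PosB.tt_adj {B : H →L[ℂ] H} (hB : PosB B) (x s : ℝ) (a b : H) :
    inner ℂ (TT B ((x : ℂ) - s * Complex.I) a) b = inner ℂ a (TT B ((x : ℂ) + s * Complex.I) b) := by
  rw [TT_apply, TT_apply, inner_sub_left, inner_sub_right, inner_smul_left, inner_smul_right,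
    hB.sa]
  simp

theorem spec_mem {B : H →L[ℂ] H} (hB : PosB B) (b : ℝ) (hb : b ∈ spectrum ℝ B) :
    0 ≤ b ∧ b ≤ 1 := by
  constructor
  · exact spectrum_nonneg_of_nonneg hB.nonneg hb
  · have h1 : ‖B‖ ≤ 1 := B.opNorm_le_bound zero_le_one (fun x => by
      rw [one_mul]; exact hB.norm_le x)
    have h2 := spectrum.subset_closedBall_norm_mul (𝕜 := ℝ) B hb
    rw [mem_closedBall_zero_iff, Real.norm_eq_abs] at h2
    have h3 : ‖(1 : H →L[ℂ] H)‖ ≤ 1 := ContinuousLinearMap.norm_id_le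
    have h4 : ‖B‖ * ‖(1 : H →L[ℂ] H)‖ ≤ 1 := by
      calc ‖B‖ * ‖(1 : H →L[ℂ] H)‖ ≤ 1 * 1 := by gcongr
        _ = 1 := one_mul 1
    exact (le_abs_self b).trans (h2.trans h4)

/-- the spectral inequality -/
theorem PosB.spectral {B : H →L[ℂ] H} (hB : PosB B) (g s : ℝ) (hg : 0 < g) (hs : 0 < s) (n : ℕ)
    (hn : g ≤ (n + 1) * s) (h : H) (r : ℕ → H)
    (hr : ∀ m : ℕ, TT B (((m * s : ℝ) : ℂ) + (s : ℂ) * Complex.I) (r m) = B (B h)) :
    g * ‖B h‖ ^ 2 ≤ (inner ℂ (B h) (h - B h)).re +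
      2 * g * s ^ 2 * ∑ m ∈ Finset.range (n + 1), ‖r m‖ ^ 2 := by
  have hsa := hB.selfAdjoint
  let φ : ℕ → ℝ → ℝ := fun m b => b ^ 2 * (den s (m * s) b)⁻¹
  have hφc : ∀ m, Continuous (φ m) := fun m =>
    (continuous_pow 2).mul ((den_cont s (m * s)).inv₀ fun b => (den_pos s (m * s) b hs).ne')
  let G : ℕ → (H →L[ℂ] H) := fun m => cfc (φ m) B
  have hG : ∀ m : ℕ, TT B (((m * s : ℝ) : ℂ) + s * Complex.I) *
      (TT B (((m * s : ℝ) : ℂ) - s * Complex.I) * G m) = B ^ 2 := by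
    intro m
    rw [← mul_assoc, ← cfc_den hB]
    show cfc (den s (m * s)) B * cfc (φ m) B = B ^ 2
    rw [← cfc_mul (den s (m * s)) (φ m) B (den_cont s (m * s)).continuousOn
      (hφc m).continuousOn]
    have e : (fun x => den s (m * s) x * φ m x) = fun x : ℝ => x ^ 2 := by
      funext x
      show den s (m * s) x * (x ^ 2 * (den s (m * s) x)⁻¹) = x ^ 2
      have := (den_pos s (m * s) x hs).ne'
      field_simp
    rw [e, cfc_pow_id (R := ℝ) B 2]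
  have hrG : ∀ m, r m = TT B (((m * s : ℝ) : ℂ) - s * Complex.I) (G m h) := by
    intro m
    have h1 := hB.unit (((m * s : ℝ) : ℂ) + s * Complex.I) (by simp [hs.ne'])
    have h2 := ((ContinuousLinearMap.isUnit_iff_bijective).1 h1).1
    apply h2
    rw [hr]
    have h3 := congrArg (fun T : H →L[ℂ] H => T h) (hG m)
    exact h3.symm
  have hnr : ∀ m, ((‖r m‖ ^ 2 : ℝ) : ℂ) = inner ℂ (G m h) (B (B h)) := by
    intro m
    rw [← hr m, ← hB.tt_adj (m * s) s (G m h) (r m), ← hrG m, inner_self_eq_norm_sq_to_K]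
    push_cast
    rfl
  let f : ℝ → ℝ := fun b => b - (1 + g) * b ^ 2 +
    (2 * g * s ^ 2) * (b ^ 2 * (∑ m ∈ Finset.range (n + 1), φ m) b)
  have hf0 : 0 ≤ cfc f B := by
    apply cfc_nonneg
    intro b hb
    obtain ⟨hb0, hb1⟩ := spec_mem hB b hb
    show 0 ≤ b - (1 + g) * b ^ 2 + (2 * g * s ^ 2) * (b ^ 2 * (∑ m ∈ Finset.range (n + 1), φ m) b)
    rw [Finset.sum_apply]
    have hφ0 : ∀ m, 0 ≤ φ m b := fun m =>
      mul_nonneg (sq_nonneg b) (inv_nonneg.2 (den_pos s (m * s) b hs).le)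
    have hsum0 : 0 ≤ ∑ m ∈ Finset.range (n + 1), φ m b := Finset.sum_nonneg fun m _ => hφ0 m
    rcases eq_or_lt_of_le hb0 with hb0 | hb0
    · rw [← hb0]; simp
    by_cases hcase : (1 + g) * b ≤ 1
    · have h1 : 0 ≤ b - (1 + g) * b ^ 2 := by nlinarith
      have h2 : 0 ≤ (2 * g * s ^ 2) * (b ^ 2 * ∑ m ∈ Finset.range (n + 1), φ m b) := by positivity
      linarith
    push Not at hcase
    -- t = 1/b - 1 in [0, g)
    set t : ℝ := 1 / b - 1 with ht
    have ht0 : 0 ≤ t := by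
      rw [ht, sub_nonneg, le_div_iff₀ hb0]; linarith
    have htg : t < g := by
      rw [ht, sub_lt_iff_lt_add, div_lt_iff₀ hb0]; linarith
    have hbt : b * (1 + t) = 1 := by
      rw [ht]; field_simp; ring
    set m₀ : ℕ := ⌊t / s⌋₊ with hm₀
    have hm1 : (m₀ : ℝ) * s ≤ t := by
      have := Nat.floor_le (div_nonneg ht0 hs.le)
      rwa [le_div_iff₀ hs] at this
    have hm2 : t < (m₀ + 1) * s := by
      have := Nat.lt_floor_add_one (t / s)
      rwa [div_lt_iff₀ hs] at this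
    have hm3 : m₀ ∈ Finset.range (n + 1) := by
      rw [Finset.mem_range]
      have : (m₀ : ℝ) * s < (n + 1) * s := by linarith
      have h3 := lt_of_mul_lt_mul_right this hs.le
      exact_mod_cast h3
    have hφm : 1 / 2 ≤ s ^ 2 * φ m₀ b := by
      show 1 / 2 ≤ s ^ 2 * (b ^ 2 * (den s (m₀ * s) b)⁻¹)
      rw [← mul_assoc, ← div_eq_mul_inv, le_div_iff₀ (den_pos s (m₀ * s) b hs), den_eq]
      have e1 : 1 - (1 + m₀ * s) * b = b * (t - m₀ * s) := by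
        rw [mul_sub]
        have : b * t = 1 - b := by linarith
        rw [this]; ring
      rw [e1]
      have h4 : (t - m₀ * s) ^ 2 ≤ s ^ 2 := by
        apply sq_le_sq'
        · linarith
        · linarith
      have h5 : (b * (t - m₀ * s)) ^ 2 ≤ s ^ 2 * b ^ 2 := by
        rw [mul_pow, mul_comm]
        exact mul_le_mul_of_nonneg_right h4 (sq_nonneg b)
      linarith
    have h6 : φ m₀ b ≤ ∑ m ∈ Finset.range (n + 1), φ m b :=
      Finset.single_le_sum (fun m _ => hφ0 m) hm3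
    have h7 : g * b ^ 2 ≤ (2 * g * s ^ 2) * (b ^ 2 * ∑ m ∈ Finset.range (n + 1), φ m b) := by
      have h8 : s ^ 2 * φ m₀ b ≤ s ^ 2 * ∑ m ∈ Finset.range (n + 1), φ m b :=
        mul_le_mul_of_nonneg_left h6 (sq_nonneg s)
      have h9 : 1 / 2 ≤ s ^ 2 * ∑ m ∈ Finset.range (n + 1), φ m b := hφm.trans h8
      have h10 : 0 ≤ g * b ^ 2 := by positivity
      nlinarith
    have h11 : 0 ≤ b - b ^ 2 := by nlinarith
    nlinarith
  have hfe : cfc f B = B - (1 + g) • B ^ 2 +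
      (2 * g * s ^ 2) • (B ^ 2 * ∑ m ∈ Finset.range (n + 1), G m) := by
    have hsc : Continuous (∑ m ∈ Finset.range (n + 1), φ m) := by
      rw [show (∑ m ∈ Finset.range (n + 1), φ m) = fun x => ∑ m ∈ Finset.range (n + 1), φ m x from
        by funext x; rw [Finset.sum_apply]]
      exact continuous_finsetSum _ fun m _ => hφc m
    show cfc (fun b : ℝ => b - (1 + g) * b ^ 2 +
      (2 * g * s ^ 2) * (b ^ 2 * (∑ m ∈ Finset.range (n + 1), φ m) b)) B = _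
    rw [cfc_add (a := B) (fun b : ℝ => b - (1 + g) * b ^ 2)
        (fun b => (2 * g * s ^ 2) * (b ^ 2 * (∑ m ∈ Finset.range (n + 1), φ m) b))
        (by fun_prop) ((continuous_const.mul ((continuous_pow 2).mul hsc)).continuousOn),
      cfc_sub (a := B) (fun b : ℝ => b) (fun b => (1 + g) * b ^ 2), cfc_id' ℝ B,
      cfc_const_mul (1 + g) (fun b : ℝ => b ^ 2) B, cfc_pow_id (R := ℝ) B 2,
      cfc_const_mul (2 * g * s ^ 2) (fun b => b ^ 2 * (∑ m ∈ Finset.range (n + 1), φ m) b) B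
        (((continuous_pow 2).mul hsc).continuousOn),
      cfc_mul (fun b : ℝ => b ^ 2) (∑ m ∈ Finset.range (n + 1), φ m) B (by fun_prop)
        hsc.continuousOn, cfc_pow_id (R := ℝ) B 2,
      cfc_sum φ B (Finset.range (n + 1)) (fun m _ => (hφc m).continuousOn)]
  rw [ContinuousLinearMap.nonneg_iff_isPositive] at hf0
  have h1 := hf0.2 h
  rw [hfe] at h1
  have e1 : (B - (1 + g) • B ^ 2 +
      (2 * g * s ^ 2) • (B ^ 2 * ∑ m ∈ Finset.range (n + 1), G m) : H →L[ℂ] H) h =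
      B h - ((1 + g : ℝ) : ℂ) • B (B h) + ((2 * g * s ^ 2 : ℝ) : ℂ) •
        B (B ((∑ m ∈ Finset.range (n + 1), G m) h)) := rfl
  have h2 : 0 ≤ (inner ℂ (B h - ((1 + g : ℝ) : ℂ) • B (B h) + ((2 * g * s ^ 2 : ℝ) : ℂ) •
        B (B ((∑ m ∈ Finset.range (n + 1), G m) h))) h).re := h1
  rw [inner_add_left, inner_sub_left, inner_smul_left, inner_smul_left, Complex.conj_ofReal,
    Complex.conj_ofReal, hB.sa (B h) h, hB.sa (B ((∑ m ∈ Finset.range (n + 1), G m) h)) h,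
    hB.sa ((∑ m ∈ Finset.range (n + 1), G m) h) (B h)] at h2
  have e2 : inner ℂ ((∑ m ∈ Finset.range (n + 1), G m) h) (B (B h)) =
      ((∑ m ∈ Finset.range (n + 1), ‖r m‖ ^ 2 : ℝ) : ℂ) := by
    rw [sum_apply, sum_inner, Complex.ofReal_sum]
    exact Finset.sum_congr rfl fun m _ => (hnr m).symm
  rw [e2, ← Complex.ofReal_mul, Complex.add_re, Complex.sub_re, Complex.ofReal_re,
    inner_self_eq_norm_sq_to_K] at h2
  rw [inner_sub_right, inner_self_eq_norm_sq_to_K, Complex.sub_re]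
  have e3 : (((‖B h‖ : ℂ)) ^ 2).re = ‖B h‖ ^ 2 := by
    rw [← Complex.ofReal_pow, Complex.ofReal_re]
  have e4 : (((1 + g : ℝ) : ℂ) * ((‖B h‖ : ℂ)) ^ 2).re = (1 + g) * ‖B h‖ ^ 2 := by
    rw [← Complex.ofReal_pow, ← Complex.ofReal_mul, Complex.ofReal_re]
  have e5 : (inner ℂ (B h) h).re - (1 + g) * ‖B h‖ ^ 2 +
      (2 * g * s ^ 2) * ∑ m ∈ Finset.range (n + 1), ‖r m‖ ^ 2 ≥ 0 := by
    rw [← e4]
    exact h2
  have e6 : (inner ℂ (B h) h).re - ‖B h‖ ^ 2 = (inner ℂ (B h) h).re - (((‖B h‖ : ℂ)) ^ 2).re := by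
    rw [e3]
  show g * ‖B h‖ ^ 2 ≤ (inner ℂ (B h) h).re - (((‖B h‖ : ℂ)) ^ 2).re + _
  rw [← e6]
  linarith

end Pool.Agent.Q235.CP
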