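import Mathlib
import Pool.Agent.Q235.CP.Agm

set_option autoImplicit false

/-! the potential and the weight -/

namespace Pool.Agent.Q235.CP

open MeasureTheory Filter Topology Complex
open scoped InnerProductSpace
open KRS (EE HH mulOp mulOp_ae mulOp_norm mulOp_inner)

noncomputable section

variable {d : ℕ}

/-- the wall -/
def Wf (d : ℕ) (α : ℝ) (x : EE d) : ℝ :=
  if 1 / 2 < ‖x‖ ^ 2 ∧ ‖x‖ ^ 2 < 1 then (1 - ‖x‖ ^ 2) ^ (-α) else 0

theorem Wf_nonneg (α : ℝ) (x : EE d) : 0 ≤ Wf d α x := by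
  unfold Wf
  split_ifs with h
  · exact Real.rpow_nonneg (by linarith [h.2]) _
  · exact le_rfl

theorem Wf_meas (α : ℝ) : Measurable (Wf d α) := by
  unfold Wf
  apply Measurable.ite
  · exact (measurableSet_lt measurable_const (measurable_norm.pow_const 2)).inter
      (measurableSet_lt (measurable_norm.pow_const 2) measurable_const)
  · exact (measurable_const.sub (measurable_norm.pow_const 2)).pow_const _
  · exact measurable_const

/-- the smooth step -/
def S (t : ℝ) : ℝ := Real.smoothTransition t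

theorem S_contDiff : ContDiff ℝ (⊤ : ℕ∞) S := Real.smoothTransition.contDiff

theorem S_deriv_cont : Continuous (deriv S) :=
  S_contDiff.continuous_deriv (by simp)

theorem S_deriv_left (t : ℝ) (ht : t ≤ 0) : deriv S t = 0 := by
  have hcl : IsClosed {t | deriv S t = 0} := isClosed_eq S_deriv_cont continuous_const
  have hsub : Set.Iio (0 : ℝ) ⊆ {t | deriv S t = 0} := by
    intro t ht
    have h1 : S =ᶠ[𝓝 t] fun _ => 0 := by
      filter_upwards [Iio_mem_nhds ht] with s hs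
      exact Real.smoothTransition.zero_of_nonpos (le_of_lt hs)
    show deriv S t = 0
    rw [h1.deriv_eq]; simp
  have h2 := closure_minimal hsub hcl
  rw [closure_Iio] at h2
  exact h2 ht

theorem S_deriv_right (t : ℝ) (ht : 1 ≤ t) : deriv S t = 0 := by
  have hcl : IsClosed {t | deriv S t = 0} := isClosed_eq S_deriv_cont continuous_const
  have hsub : Set.Ioi (1 : ℝ) ⊆ {t | deriv S t = 0} := by
    intro t ht
    have h1 : S =ᶠ[𝓝 t] fun _ => 1 := by
      filter_upwards [Ioi_mem_nhds ht] with s hs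
      exact Real.smoothTransition.one_of_one_le (le_of_lt hs)
    show deriv S t = 0
    rw [h1.deriv_eq]; simp
  have h2 := closure_minimal hsub hcl
  rw [closure_Ioi] at h2
  exact h2 ht

theorem S_bound : ∃ L : ℝ, 0 ≤ L ∧ ∀ t, |deriv S t| ≤ L := by
  obtain ⟨L, hL⟩ := (isCompact_Icc (a := (0 : ℝ)) (b := 1)).exists_bound_of_continuousOn
    (f := deriv S) S_deriv_cont.continuousOn
  refine ⟨max L 0, le_max_right _ _, fun t => ?_⟩
  by_cases h0 : t ≤ 0
  · rw [S_deriv_left t h0, abs_zero]; exact le_max_right _ _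
  by_cases h1 : 1 ≤ t
  · rw [S_deriv_right t h1, abs_zero]; exact le_max_right _ _
  push Not at h0 h1
  exact (hL t ⟨h0.le, h1.le⟩).trans (le_max_left _ _)

/-- the argument of the step -/
def Ta (δ : ℝ) (x : EE d) : ℝ := (‖x‖ ^ 2 - 1 + 2 * δ) / δ

/-- the weight -/
def psi (δ : ℝ) (x : EE d) : ℝ := Real.exp (S (Ta δ x) / δ)

theorem Ta_contDiff (δ : ℝ) : ContDiff ℝ (⊤ : ℕ∞) (Ta (d := d) δ) := by
  unfold Ta
  exact (((contDiff_norm_sq ℝ).sub contDiff_const).add contDiff_const).div_const δ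

theorem psi_contDiff (δ : ℝ) : ContDiff ℝ (⊤ : ℕ∞) (psi (d := d) δ) := by
  unfold psi
  exact Real.contDiff_exp.comp ((S_contDiff.comp (Ta_contDiff δ)).div_const δ)

theorem psi_fderiv (δ : ℝ) (x : EE d) (i : Fin d) :
    fderiv ℝ (psi δ) x (EuclideanSpace.single i 1) =
      psi δ x * (deriv S (Ta δ x) * (2 * x i / δ) / δ) := by
  have h1 : HasFDerivAt (fun y : EE d => ‖y‖ ^ 2) (2 • innerSL ℝ x) x :=
    (hasStrictFDerivAt_norm_sq x).hasFDerivAt
  have h2 : HasFDerivAt (Ta (d := d) δ) (δ⁻¹ • (2 • innerSL ℝ x)) x := by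
    have := ((h1.sub_const 1).add_const (2 * δ)).const_mul δ⁻¹
    refine this.congr_of_eventuallyEq (Eventually.of_forall fun y => ?_)
    unfold Ta
    rw [div_eq_inv_mul]
  have h3 : HasDerivAt S (deriv S (Ta δ x)) (Ta δ x) :=
    ((S_contDiff.differentiable (by simp)) _).hasDerivAt
  have h4 : HasFDerivAt (fun y : EE d => S (Ta δ y)) (deriv S (Ta δ x) • (δ⁻¹ • (2 • innerSL ℝ x))) x :=
    h3.comp_hasFDerivAt x h2
  have h5 : HasFDerivAt (fun y : EE d => S (Ta δ y) / δ)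
      (δ⁻¹ • (deriv S (Ta δ x) • (δ⁻¹ • (2 • innerSL ℝ x)))) x := by
    have := h4.const_mul δ⁻¹
    refine this.congr_of_eventuallyEq (Eventually.of_forall fun y => ?_)
    show S (Ta δ y) / δ = δ⁻¹ * S (Ta δ y)
    rw [div_eq_inv_mul]
  have h6 : HasFDerivAt (psi (d := d) δ)
      (Real.exp (S (Ta δ x) / δ) • (δ⁻¹ • (deriv S (Ta δ x) • (δ⁻¹ • (2 • innerSL ℝ x))))) x :=
    h5.exp
  rw [h6.fderiv]
  have h7 : (innerSL ℝ x) (EuclideanSpace.single i (1 : ℝ)) = x i := by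
    rw [innerSL_apply_apply, EuclideanSpace.inner_single_right]
    simp
  simp only [smul_apply, smul_eq_mul, nsmul_eq_mul, h7]
  unfold psi
  push_cast
  ring

theorem S_le (t : ℝ) : S t ≤ 1 := Real.smoothTransition.le_one t
theorem S_nonneg (t : ℝ) : 0 ≤ S t := Real.smoothTransition.nonneg t

theorem psi_pos (δ : ℝ) (x : EE d) : 0 < psi δ x := Real.exp_pos _

theorem psi_one_le {δ : ℝ} (hδ : 0 < δ) (x : EE d) : 1 ≤ psi δ x := by
  unfold psi
  rw [Real.one_le_exp_iff]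
  exact div_nonneg (S_nonneg _) hδ.le

theorem psi_le {δ : ℝ} (hδ : 0 < δ) (x : EE d) : psi δ x ≤ Real.exp (1 / δ) := by
  unfold psi
  rw [Real.exp_le_exp]
  exact div_le_div_of_nonneg_right (S_le _) hδ.le

theorem psi_in {δ : ℝ} (hδ : 0 < δ) (x : EE d) (hx : ‖x‖ ^ 2 ≤ 1 - 2 * δ) : psi δ x = 1 := by
  unfold psi
  have : Ta δ x ≤ 0 := div_nonpos_of_nonpos_of_nonneg (by linarith) hδ.le
  rw [show S (Ta δ x) = 0 from Real.smoothTransition.zero_of_nonpos this, zero_div, Real.exp_zero]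

theorem psi_out {δ : ℝ} (hδ : 0 < δ) (x : EE d) (hx : 1 ≤ ‖x‖) : psi δ x = Real.exp (1 / δ) := by
  unfold psi
  have h1 : 1 ≤ ‖x‖ ^ 2 := one_le_pow₀ hx
  have : 1 ≤ Ta δ x := by
    unfold Ta
    rw [le_div_iff₀ hδ]; linarith
  rw [show S (Ta δ x) = 1 from Real.smoothTransition.one_of_one_le this]

theorem psi_sum {δ : ℝ} (x : EE d) :
    ∑ i, (fderiv ℝ (psi δ) x (EuclideanSpace.single i 1)) ^ 2 =
      psi δ x ^ 2 * (deriv S (Ta δ x)) ^ 2 * 4 * ‖x‖ ^ 2 / δ ^ 4 := by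
  have e : ∀ i, (fderiv ℝ (psi δ) x (EuclideanSpace.single i 1)) ^ 2 =
      psi δ x ^ 2 * (deriv S (Ta δ x)) ^ 2 * 4 / δ ^ 4 * (x i) ^ 2 := by
    intro i
    rw [psi_fderiv]
    ring
  simp only [e]
  rw [← Finset.mul_sum, EuclideanSpace.norm_sq_eq]
  simp only [Real.norm_eq_abs, sq_abs]
  ring

theorem psi_fderiv_le {δ : ℝ} (hδ : 0 < δ) {L : ℝ} (hL0 : 0 ≤ L) (hL : ∀ t, |deriv S t| ≤ L)
    (i : Fin d) (x : EE d) : |fderiv ℝ (psi δ) x (EuclideanSpace.single i 1)| ≤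
      Real.exp (1 / δ) * (L * 2 / δ ^ 2) := by
  rw [psi_fderiv, abs_mul, abs_of_pos (psi_pos δ x)]
  apply mul_le_mul (psi_le hδ x) _ (abs_nonneg _) (Real.exp_pos _).le
  by_cases hx : ‖x‖ ≤ 1
  · have h1 : |x i| ≤ 1 := (PiLp.norm_apply_le x i).trans hx
    rw [abs_div, abs_mul, abs_div, abs_mul, abs_two, abs_of_pos hδ]
    calc |deriv S (Ta δ x)| * (2 * |x i| / δ) / δ ≤ L * (2 * 1 / δ) / δ := by
          gcongr
          exact hL _
      _ = L * 2 / δ ^ 2 := by field_simp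
  · push Not at hx
    have h1 : 1 ≤ Ta δ x := by
      unfold Ta
      have : 1 ≤ ‖x‖ ^ 2 := one_le_pow₀ hx.le
      rw [le_div_iff₀ hδ]; linarith
    rw [S_deriv_right _ h1]
    simp
    positivity

end

end Pool.Agent.Q235.CP
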