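import Mathlib
import Pool.Agent.Q235.CP.Wt

set_option autoImplicit false

/-! integrability of the potential -/

namespace Pool.Agent.Q235.CP

open MeasureTheory Filter Topology Set
open KRS (EE HH)

noncomputable section

variable {d : ℕ}

theorem sqrt_int : IntegrableOn (fun y : ℝ => (1 - y) ^ (-(1 / 2) : ℝ)) (Ioo 0 1) volume := by
  have h1 : IntervalIntegrable (fun y : ℝ => y ^ (-(1 / 2) : ℝ)) volume 0 1 :=
    intervalIntegral.intervalIntegrable_rpow' (by norm_num)
  have h2 := (h1.comp_sub_left 1).symm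
  simp only [sub_zero, sub_self] at h2
  rw [intervalIntegrable_iff_integrableOn_Ioo_of_le zero_le_one] at h2
  exact h2

theorem Wf_memLp (hd : 1 ≤ d) {α p : ℝ} (hp : 0 < p) (hαp : α * p = 1 / 2) :
    MemLp (fun x : EE d => Wf d α x) (ENNReal.ofReal p) volume := by
  have : Nonempty (Fin d) := ⟨⟨0, hd⟩⟩
  have hp0 : ENNReal.ofReal p ≠ 0 := by simpa using hp
  rw [← integrable_norm_rpow_iff (Wf_meas α).aestronglyMeasurable hp0 ENNReal.ofReal_ne_top,
    ENNReal.toReal_ofReal hp.le]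
  let f : ℝ → ℝ := fun y => if 1 / 2 < y ^ 2 ∧ y ^ 2 < 1 then (1 - y ^ 2) ^ (-(1 / 2) : ℝ) else 0
  have e : (fun x : EE d => ‖Wf d α x‖ ^ p) = fun x => f ‖x‖ := by
    funext x
    rw [Real.norm_eq_abs, abs_of_nonneg (Wf_nonneg α x)]
    show Wf d α x ^ p = if 1 / 2 < ‖x‖ ^ 2 ∧ ‖x‖ ^ 2 < 1 then (1 - ‖x‖ ^ 2) ^ (-(1 / 2) : ℝ) else 0
    unfold Wf
    split_ifs with h
    · rw [← Real.rpow_mul (by linarith [h.2])]
      congr 1
      linarith
    · exact Real.zero_rpow hp.ne'
  rw [e, integrable_fun_norm_addHaar]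
  have hfm : Measurable f := by
    apply Measurable.ite
    · exact (measurableSet_lt measurable_const (measurable_id.pow_const 2)).inter
        (measurableSet_lt (measurable_id.pow_const 2) measurable_const)
    · exact (measurable_const.sub (measurable_id.pow_const 2)).pow_const _
    · exact measurable_const
  have h1 : Integrable ((Ioo (0 : ℝ) 1).indicator fun y : ℝ => (1 - y) ^ (-(1 / 2) : ℝ)) volume :=
    (integrable_indicator_iff measurableSet_Ioo).2 sqrt_int
  refine (h1.integrableOn (s := Ioi 0)).mono'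
    (((measurable_id.pow_const _).smul hfm).aestronglyMeasurable) ?_
  rw [ae_restrict_iff' measurableSet_Ioi]
  filter_upwards with y hy
  have hy0 : 0 < y := hy
  show ‖y ^ (Module.finrank ℝ (EE d) - 1) • f y‖ ≤ _
  by_cases h2 : 1 / 2 < y ^ 2 ∧ y ^ 2 < 1
  · have hy1 : y < 1 := by
      by_contra hcon
      push Not at hcon
      have := one_le_pow₀ hcon (n := 2)
      linarith [h2.2]
    have hf : f y = (1 - y ^ 2) ^ (-(1 / 2) : ℝ) := if_pos h2
    rw [indicator_of_mem (show y ∈ Ioo (0 : ℝ) 1 from ⟨hy0, hy1⟩), hf, smul_eq_mul,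
      Real.norm_eq_abs, abs_of_nonneg (mul_nonneg (pow_nonneg hy0.le _)
        (Real.rpow_nonneg (by linarith [h2.2]) _))]
    have h3 : y ^ (Module.finrank ℝ (EE d) - 1) ≤ 1 := pow_le_one₀ hy0.le hy1.le
    have h4 : (1 - y ^ 2) ^ (-(1 / 2) : ℝ) ≤ (1 - y) ^ (-(1 / 2) : ℝ) :=
      Real.rpow_le_rpow_of_nonpos (by linarith) (by nlinarith) (by norm_num)
    calc y ^ (Module.finrank ℝ (EE d) - 1) * (1 - y ^ 2) ^ (-(1 / 2) : ℝ)
        ≤ 1 * (1 - y) ^ (-(1 / 2) : ℝ) :=
          mul_le_mul h3 h4 (Real.rpow_nonneg (by linarith [h2.2]) _) zero_le_one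
      _ = _ := one_mul _
  · have hf : f y = 0 := if_neg h2
    rw [hf, smul_zero, norm_zero]
    apply indicator_nonneg
    intro t ht
    exact Real.rpow_nonneg (by linarith [ht.2]) _

end

end Pool.Agent.Q235.CP
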