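import Mathlib
import Pool.Agent.Q235.CP.Wt

set_option autoImplicit false

/-! the estimates outside of the ball -/

namespace Pool.Agent.Q235.CP

open MeasureTheory Filter Topology Complex
open scoped InnerProductSpace
open KRS (EE HH mulOp mulOp_ae mulOp_norm mulOp_inner)

noncomputable section

variable {d : ℕ}

theorem chi_in (x : EE d) (hx : ‖x‖ < 1) : chi x = 1 := by
  unfold chi
  exact Set.indicator_of_mem (show x ∈ {x : EE d | ‖x‖ < 1} from hx) _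

theorem chi_out (x : EE d) (hx : ¬ ‖x‖ < 1) : chi x = 0 := by
  unfold chi
  exact Set.indicator_of_notMem (show x ∉ {x : EE d | ‖x‖ < 1} from hx) _

theorem weight_cond {α δ lam L : ℝ} (hα : 0 < α) (hδ : 0 < δ) (hδ4 : δ ≤ 1 / 4) (hlam : 0 ≤ lam)
    (hL : ∀ t, |deriv S t| ≤ L)
    (hc : 1 + lam + (lam + 1) / 2 + 4 * L ^ 2 * (1 + (2 * (lam + 1)) ^ 2) ≤ (2 * δ) ^ (-α))
    {z : ℂ} (hz1 : z.re ≤ lam) (hz2 : 3 / 4 ≤ z.im) (x : EE d) :
    psi δ x ^ 2 - 3 / 2 * (lam + 1) ≤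
      (Wf d α x - z.re + 2 * (lam + 1) * (z.im - ‖chi x‖ ^ 2)) * psi δ x ^ 2 -
      (1 + (2 * (lam + 1)) ^ 2) * (δ ^ 2) ^ 2 *
        ∑ i, (fderiv ℝ (psi δ) x (EuclideanSpace.single i 1)) ^ 2 := by
  rw [psi_sum]
  have hψ0 : 0 ≤ psi δ x ^ 2 := sq_nonneg _
  have hψ1 : 1 ≤ psi δ x ^ 2 := one_le_pow₀ (psi_one_le hδ x)
  have e1 : (1 + (2 * (lam + 1)) ^ 2) * (δ ^ 2) ^ 2 *
      (psi δ x ^ 2 * deriv S (Ta δ x) ^ 2 * 4 * ‖x‖ ^ 2 / δ ^ 4) =
      (1 + (2 * (lam + 1)) ^ 2) * (4 * deriv S (Ta δ x) ^ 2 * ‖x‖ ^ 2) * psi δ x ^ 2 := by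
    field_simp
  rw [e1]
  suffices h : psi δ x ^ 2 - 3 / 2 * (lam + 1) ≤
      ((Wf d α x - z.re + 2 * (lam + 1) * (z.im - ‖chi x‖ ^ 2)) -
        (1 + (2 * (lam + 1)) ^ 2) * (4 * deriv S (Ta δ x) ^ 2 * ‖x‖ ^ 2)) * psi δ x ^ 2 by
    linarith
  have hWm : ∀ r : ℝ, 0 < r → r ≤ 2 * δ → (2 * δ) ^ (-α) ≤ r ^ (-α) := fun r hr hr2 =>
    Real.rpow_le_rpow_of_nonpos hr hr2 (by linarith)
  by_cases h1 : ‖x‖ ^ 2 ≤ 1 - 2 * δ
  · -- the inner region
    have hx1 : ‖x‖ < 1 := by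
      by_contra hcon
      push Not at hcon
      have := one_le_pow₀ hcon (n := 2)
      linarith
    rw [psi_in hδ x h1, chi_in x hx1]
    have h2 : Ta δ x ≤ 0 := div_nonpos_of_nonpos_of_nonneg (by linarith) hδ.le
    rw [S_deriv_left _ h2]
    have h3 := Wf_nonneg α x
    have h4 : 2 * (lam + 1) * (z.im - 1) ≥ 2 * (lam + 1) * (-(1 / 4)) :=
      mul_le_mul_of_nonneg_left (by linarith) (by linarith)
    rw [norm_one]
    norm_num
    nlinarith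
  push Not at h1
  -- in all other regions the bracket is at least one
  have hbr : 1 ≤ (Wf d α x - z.re + 2 * (lam + 1) * (z.im - ‖chi x‖ ^ 2)) -
        (1 + (2 * (lam + 1)) ^ 2) * (4 * deriv S (Ta δ x) ^ 2 * ‖x‖ ^ 2) := by
    by_cases h2 : ‖x‖ < 1
    · have h3 : ‖x‖ ^ 2 < 1 := by
        have := pow_lt_one₀ (norm_nonneg x) h2 (n := 2) (by norm_num)
        exact this
      have hW : Wf d α x = (1 - ‖x‖ ^ 2) ^ (-α) := by
        unfold Wf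
        rw [if_pos ⟨by linarith, h3⟩]
      have h4 : (2 * δ) ^ (-α) ≤ Wf d α x := by
        rw [hW]
        exact hWm _ (by linarith) (by linarith)
      have h5 : deriv S (Ta δ x) ^ 2 ≤ L ^ 2 := by
        rw [← sq_abs]
        exact pow_le_pow_left₀ (abs_nonneg _) (hL _) 2
      have h6 : 2 * (lam + 1) * (z.im - 1) ≥ 2 * (lam + 1) * (-(1 / 4)) :=
        mul_le_mul_of_nonneg_left (by linarith) (by linarith)
      have h7 : deriv S (Ta δ x) ^ 2 * ‖x‖ ^ 2 ≤ L ^ 2 * 1 :=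
        mul_le_mul h5 h3.le (sq_nonneg _) (sq_nonneg _)
      have h8 : (1 + (2 * (lam + 1)) ^ 2) * (4 * deriv S (Ta δ x) ^ 2 * ‖x‖ ^ 2) ≤
          (1 + (2 * (lam + 1)) ^ 2) * (4 * L ^ 2) :=
        mul_le_mul_of_nonneg_left (by linarith) (by positivity)
      rw [chi_in x h2, norm_one]
      nlinarith
    · push Not at h2
      have h3 : 1 ≤ Ta δ x := by
        unfold Ta
        have : 1 ≤ ‖x‖ ^ 2 := one_le_pow₀ h2
        rw [le_div_iff₀ hδ]; linarith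
      rw [S_deriv_right _ h3, chi_out x (not_lt.2 h2), norm_zero]
      have h4 : 2 * (lam + 1) * z.im ≥ 2 * (lam + 1) * (3 / 4) :=
        mul_le_mul_of_nonneg_left hz2 (by linarith)
      have h5 := Wf_nonneg α x
      norm_num
      nlinarith
  nlinarith

/-- the basic bound -/
theorem psi_bound {α δ lam L : ℝ} (hα : 0 < α) (hδ : 0 < δ) (hδ4 : δ ≤ 1 / 4) (hlam : 0 ≤ lam)
    (hL0 : 0 ≤ L) (hL : ∀ t, |deriv S t| ≤ L)
    (hc : 1 + lam + (lam + 1) / 2 + 4 * L ^ 2 * (1 + (2 * (lam + 1)) ^ 2) ≤ (2 * δ) ^ (-α))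
    {z : ℂ} (hz1 : z.re ≤ lam) (hz2 : 3 / 4 ≤ z.im) {u f : HH d}
    (hF : FE (δ ^ 2) (Wf d α) u (f + z • u - I • XX d u)) :
    ‖mulOp (fun x => (psi δ x : ℂ)) u‖ ≤
      (2 * lam + 3) * (‖u‖ + ‖mulOp (fun x => (psi δ x : ℂ)) f‖) := by
  set C : ℝ := Real.exp (1 / δ) * (1 + L * 2 / δ ^ 2) with hC
  have hE := Real.exp_pos (1 / δ)
  have h0 : 0 ≤ L * 2 / δ ^ 2 := by positivity
  have hC1 : ∀ x : EE d, |psi δ x| ≤ C := by
    intro x
    rw [abs_of_pos (psi_pos δ x), hC]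
    refine (psi_le hδ x).trans ?_
    nlinarith
  have hC2 : ∀ (i : Fin d) (x : EE d), |fderiv ℝ (psi δ) x (EuclideanSpace.single i 1)| ≤ C := by
    intro i x
    refine (psi_fderiv_le hδ hL0 hL i x).trans ?_
    rw [hC]
    nlinarith
  have key := agmon hF (2 * (lam + 1)) (by linarith) (psi_contDiff δ) C hC1 hC2
    (3 / 2 * (lam + 1)) (fun x => weight_cond hα hδ hδ4 hlam hL hc hz1 hz2 x)
  set a := ‖mulOp (fun x => (psi δ x : ℂ)) u‖ with ha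
  set b := ‖mulOp (fun x => (psi δ x : ℂ)) f‖ with hb
  have ha0 : 0 ≤ a := norm_nonneg _
  have hb0 : 0 ≤ b := norm_nonneg _
  have hu0 : 0 ≤ ‖u‖ := norm_nonneg _
  -- a² ≤ A u² + (1+θ) a b
  apply le_of_sq_le_sq _ (by positivity)
  have h1 := sq_nonneg (a - (2 * lam + 3) * b)
  have h2 : a ^ 2 ≤ 3 * (lam + 1) * ‖u‖ ^ 2 + (2 * lam + 3) ^ 2 * b ^ 2 := by nlinarith
  have h3 : 3 * (lam + 1) ≤ (2 * lam + 3) ^ 2 := by nlinarith
  have h4 : 3 * (lam + 1) * ‖u‖ ^ 2 ≤ (2 * lam + 3) ^ 2 * ‖u‖ ^ 2 :=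
    mul_le_mul_of_nonneg_right h3 (sq_nonneg _)
  have h5 : 0 ≤ (2 * lam + 3) ^ 2 * (2 * (‖u‖ * b)) := by positivity
  nlinarith

theorem psi_meas (δ : ℝ) : Measurable fun x : EE d => (psi δ x : ℂ) :=
  Complex.measurable_ofReal.comp (psi_contDiff δ).continuous.measurable

theorem psi_norm_le {δ : ℝ} (hδ : 0 < δ) (x : EE d) : ‖(psi δ x : ℂ)‖ ≤ Real.exp (1 / δ) := by
  rw [Complex.norm_real, Real.norm_eq_abs, abs_of_pos (psi_pos δ x)]
  exact psi_le hδ x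

/-- the part outside of the ball -/
theorem out_ae (u : HH d) : (u - XX d u : HH d) =ᵐ[volume] fun x => (1 - chi x) * u x := by
  filter_upwards [Lp.coeFn_sub u (XX d u), mulOp_ae chi chi_meas 1 chi_le u] with x h1 h2
  rw [h1, Pi.sub_apply]
  show u x - (mulOp chi u : EE d → ℂ) x = _
  rw [h2]
  ring

theorem out_le {δ : ℝ} (hδ : 0 < δ) (u : HH d) :
    Real.exp (1 / δ) * ‖u - XX d u‖ ≤ ‖mulOp (fun x => (psi δ x : ℂ)) u‖ := by
  have hE := Real.exp_pos (1 / δ)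
  rw [← abs_of_pos hE, ← Real.norm_eq_abs, ← norm_smul]
  apply Lp.norm_le_norm_of_ae_le
  filter_upwards [Lp.coeFn_smul (Real.exp (1 / δ)) (u - XX d u), out_ae u,
    mulOp_ae _ (psi_meas δ) _ (psi_norm_le hδ) u] with x h1 h2 h3
  rw [h1, Pi.smul_apply, h2, h3, norm_smul, norm_mul, norm_mul, Complex.norm_real]
  by_cases hx : ‖x‖ < 1
  · rw [chi_in x hx]
    simp
    positivity
  · rw [chi_out x hx, psi_out hδ x (not_lt.1 hx)]
    simp

theorem out_A {α δ lam L : ℝ} (hα : 0 < α) (hδ : 0 < δ) (hδ4 : δ ≤ 1 / 4) (hlam : 0 ≤ lam)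
    (hL0 : 0 ≤ L) (hL : ∀ t, |deriv S t| ≤ L)
    (hc : 1 + lam + (lam + 1) / 2 + 4 * L ^ 2 * (1 + (2 * (lam + 1)) ^ 2) ≤ (2 * δ) ^ (-α))
    {z : ℂ} (hz1 : z.re ≤ lam) (hz2 : 3 / 4 ≤ z.im) {u f : HH d}
    (hF : FE (δ ^ 2) (Wf d α) u (f + z • u - I • XX d u)) :
    ‖u - XX d u‖ ≤ (2 * lam + 3) * (Real.exp (-(1 / δ)) * ‖u‖ + ‖f‖) := by
  have h1 := (out_le hδ u).trans (psi_bound hα hδ hδ4 hlam hL0 hL hc hz1 hz2 hF)
  have h2 := mulOp_norm _ (psi_meas (d := d) δ) _ (psi_norm_le hδ) f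
  have hE := Real.exp_pos (1 / δ)
  have hE' : Real.exp (-(1 / δ)) * Real.exp (1 / δ) = 1 := by
    rw [← Real.exp_add]; simp
  have h3 : Real.exp (1 / δ) * ‖u - XX d u‖ ≤
      (2 * lam + 3) * (‖u‖ + Real.exp (1 / δ) * ‖f‖) := by
    refine h1.trans ?_
    gcongr
  have h4 := mul_le_mul_of_nonneg_left h3 (Real.exp_pos (-(1 / δ))).le
  rw [← mul_assoc, hE', one_mul] at h4
  refine h4.trans (le_of_eq ?_)
  rw [show Real.exp (-(1 / δ)) * ((2 * lam + 3) * (‖u‖ + Real.exp (1 / δ) * ‖f‖)) =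
    (2 * lam + 3) * (Real.exp (-(1 / δ)) * ‖u‖ + (Real.exp (-(1 / δ)) * Real.exp (1 / δ)) * ‖f‖) by
    ring, hE', one_mul]

theorem out_B {α δ lam L : ℝ} (hα : 0 < α) (hδ : 0 < δ) (hδ4 : δ ≤ 1 / 4) (hlam : 0 ≤ lam)
    (hL0 : 0 ≤ L) (hL : ∀ t, |deriv S t| ≤ L)
    (hc : 1 + lam + (lam + 1) / 2 + 4 * L ^ 2 * (1 + (2 * (lam + 1)) ^ 2) ≤ (2 * δ) ^ (-α))
    {z : ℂ} (hz1 : z.re ≤ lam) (hz2 : 3 / 4 ≤ z.im) {u f : HH d}
    (hF : FE (δ ^ 2) (Wf d α) u (f + z • u - I • XX d u))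
    (hf : ∀ᵐ x ∂(volume : Measure (EE d)), 1 / 2 < ‖x‖ ^ 2 → f x = 0) :
    ‖u - XX d u‖ ≤ (2 * lam + 3) * Real.exp (-(1 / δ)) * (‖u‖ + ‖f‖) := by
  have h1 := (out_le hδ u).trans (psi_bound hα hδ hδ4 hlam hL0 hL hc hz1 hz2 hF)
  have h2 : mulOp (fun x => (psi δ x : ℂ)) f = f := by
    apply Lp.ext
    filter_upwards [mulOp_ae _ (psi_meas δ) _ (psi_norm_le hδ) f, hf] with x h1 h2
    rw [h1]
    by_cases hx : 1 / 2 < ‖x‖ ^ 2
    · rw [h2 hx, mul_zero]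
    · push Not at hx
      rw [psi_in hδ x (by linarith)]
      simp
  rw [h2] at h1
  have hE' : Real.exp (-(1 / δ)) * Real.exp (1 / δ) = 1 := by
    rw [← Real.exp_add]; simp
  have h4 := mul_le_mul_of_nonneg_left h1 (Real.exp_pos (-(1 / δ))).le
  rw [← mul_assoc, hE', one_mul] at h4
  refine h4.trans (le_of_eq ?_)
  ring

/-- the comparison potential -/
def W1 (d : ℕ) (α M : ℝ) (x : EE d) : ℝ := Wf d α x + M * (1 - ‖chi x‖ ^ 2)

theorem W1_nonneg (α : ℝ) {M : ℝ} (hM : 0 ≤ M) (x : EE d) : 0 ≤ W1 d α M x := by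
  unfold W1
  have h1 := Wf_nonneg α x
  have h2 : ‖chi x‖ ^ 2 ≤ 1 := pow_le_one₀ (norm_nonneg _) (chi_le x)
  have : 0 ≤ M * (1 - ‖chi x‖ ^ 2) := mul_nonneg hM (by linarith)
  linarith

theorem W1_meas (α M : ℝ) : Measurable (W1 d α M) := by
  unfold W1
  exact (Wf_meas α).add (measurable_const.mul (measurable_const.sub (chi_meas.norm.pow_const 2)))

theorem fin_extra (M : ℝ) (u : HH d) :
    Integrable (fun x => M * (1 - ‖chi x‖ ^ 2) * ‖u x‖ ^ 2) volume := by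
  have h1 : Integrable (fun x => (M * (1 - ‖chi x‖ ^ 2)) * ‖u x‖ ^ 2) volume := by
    apply (nsq_int u).bdd_mul (c := |M| * 1)
      (measurable_const.mul (measurable_const.sub (chi_meas.norm.pow_const 2))).aestronglyMeasurable
    filter_upwards with x
    rw [Real.norm_eq_abs]
    show |M * (1 - ‖chi x‖ ^ 2)| ≤ |M| * 1
    rw [abs_mul]
    have h2 : ‖chi x‖ ^ 2 ≤ 1 := pow_le_one₀ (norm_nonneg _) (chi_le x)
    have h3 := sq_nonneg ‖chi x‖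
    gcongr
    rw [abs_le]
    constructor <;> linarith
  exact h1

theorem fin2_W1 {α M : ℝ} (u : HH d) : Fin2 (W1 d α M) u ↔ Fin2 (Wf d α) u := by
  unfold Fin2 W1
  constructor
  · intro h
    refine (h.sub (fin_extra M u)).congr (ae_of_all _ fun x => ?_)
    simp only [Pi.sub_apply]
    ring
  · intro h
    refine (h.add (fin_extra M u)).congr (ae_of_all _ fun x => ?_)
    simp only [Pi.add_apply]
    ring

theorem chi_sq (x : EE d) : chi x = ((‖chi x‖ ^ 2 : ℝ) : ℂ) := by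
  by_cases hx : ‖x‖ < 1
  · rw [chi_in x hx]; simp
  · rw [chi_out x hx]; simp

/-- products with finite potential energy are integrable -/
theorem fin2_mul {W : EE d → ℝ} (hW : Measurable W) (hW0 : ∀ x, 0 ≤ W x) {u φ : HH d}
    (hu : Fin2 W u) (hφ : Fin2 W φ) :
    Integrable (fun x => (W x : ℂ) * u x * (starRingEnd ℂ) (φ x)) volume := by
  have h1 := energyMem hW hW0 hu
  have h2 := (energyMem hW hW0 hφ).star
  refine (mulInt h1 h2).congr (ae_of_all _ fun x => ?_)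
  show ((Real.sqrt (W x) : ℝ) : ℂ) * u x * star (((Real.sqrt (W x) : ℝ) : ℂ) * φ x) = _
  rw [star_mul']
  have e : ((Real.sqrt (W x) : ℝ) : ℂ) * ((Real.sqrt (W x) : ℝ) : ℂ) = (W x : ℂ) := by
    rw [← Complex.ofReal_mul, Real.mul_self_sqrt (hW0 x)]
  have e2 : star ((Real.sqrt (W x) : ℝ) : ℂ) = ((Real.sqrt (W x) : ℝ) : ℂ) :=
    Complex.conj_ofReal _
  rw [e2]
  show _ = (W x : ℂ) * u x * star (φ x)
  rw [← e]
  ring

theorem inner_out (u φ : HH d) : ⟪φ, u - XX d u⟫_ℂ =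
    ∫ x, (((1 - ‖chi x‖ ^ 2 : ℝ)) : ℂ) * u x * (starRingEnd ℂ) (φ x) := by
  rw [L2.inner_def]
  apply integral_congr_ae
  filter_upwards [out_ae u] with x hx
  rw [hx, RCLike.inner_apply]
  conv_lhs => rw [chi_sq x]
  push_cast
  ring

/-- comparison of the two operators -/
theorem FE.compare {h α M : ℝ} {u F : HH d} (hF : FE h (Wf d α) u F) :
    FE h (W1 d α M) u (F + (M : ℂ) • (u - XX d u)) := by
  obtain ⟨D, h1, h2, h3⟩ := hF
  refine ⟨D, h1, (fin2_W1 u).2 h2, ?_⟩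
  intro φ E hE hφ
  have hφ' := (fin2_W1 φ).1 hφ
  have h4 := h3 φ E hE hφ'
  have h5 : Integrable (fun x => (((1 - ‖chi x‖ ^ 2 : ℝ)) : ℂ) * u x * (starRingEnd ℂ) (φ x))
      volume := by
    have a1 : MemLp (fun x => (1 - chi x) * u x) 2 volume :=
      (memLp_congr_ae (out_ae u)).1 (Lp.memLp _)
    refine (mulInt a1 (Lp.memLp φ).star).congr (ae_of_all _ fun x => ?_)
    show (1 - chi x) * u x * (starRingEnd ℂ) (φ x) = _
    conv_lhs => rw [chi_sq x]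
    push_cast
    ring
  rw [inner_add_right, ← h4, inner_smul_right, inner_out, ← integral_const_mul, add_assoc,
    ← integral_add (fin2_mul (Wf_meas α) (Wf_nonneg α) h2 hφ') (h5.const_mul _)]
  congr 1
  apply integral_congr_ae
  filter_upwards with x
  unfold W1
  push_cast
  ring

end

end Pool.Agent.Q235.CP
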