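import Mathlib
import Pool.Agent.Q235.CP.Est

set_option autoImplicit false

/-! a spectral gap of the comparison operator -/

namespace Pool.Agent.Q235.CP

open MeasureTheory Filter Topology Complex
open scoped InnerProductSpace
open KRS (EE HH mulOp mulOp_ae mulOp_norm mulOp_inner cubes ic avg cell)

noncomputable section

variable {d : ℕ}

theorem Rel.sum {H : Type*} [NormedAddCommGroup H] [InnerProductSpace ℂ H] {B : H →L[ℂ] H}
    {ι : Type*} (T : Finset ι) (a : ι → ℂ) (u F : ι → H) (h : ∀ i ∈ T, Rel B (u i) (F i)) :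
    Rel B (∑ i ∈ T, a i • u i) (∑ i ∈ T, a i • F i) := by
  unfold Rel at *
  rw [← Finset.sum_add_distrib, map_sum]
  apply Finset.sum_congr rfl
  intro i hi
  rw [← smul_add, map_smul, ← h i hi]

theorem Rel.smul {H : Type*} [NormedAddCommGroup H] [InnerProductSpace ℂ H] {B : H →L[ℂ] H}
    (c : ℂ) {u F : H} (h : Rel B u F) : Rel B (c • u) (c • F) := by
  unfold Rel at *
  rw [← smul_add, map_smul, ← h]

/-- quadratic form bound -/
theorem quad_bound {n : ℕ} (a : Fin n → ℂ) (c : Fin n → Fin n → ℂ) (κ : ℝ) (hκ : 0 ≤ κ)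
    (hc : ∀ i j, ‖c i j‖ ≤ κ) :
    ‖∑ i, ∑ j, (starRingEnd ℂ) (a i) * a j * c i j‖ ≤ κ * n * ∑ i, ‖a i‖ ^ 2 := by
  have h1 : ‖∑ i, ∑ j, (starRingEnd ℂ) (a i) * a j * c i j‖ ≤ κ * (∑ i, ‖a i‖) ^ 2 := by
    calc ‖∑ i, ∑ j, (starRingEnd ℂ) (a i) * a j * c i j‖
        ≤ ∑ i, ∑ j, ‖a i‖ * ‖a j‖ * κ := by
          refine (norm_sum_le _ _).trans (Finset.sum_le_sum fun i _ => ?_)
          refine (norm_sum_le _ _).trans (Finset.sum_le_sum fun j _ => ?_)
          rw [norm_mul, norm_mul, RCLike.norm_conj]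
          exact mul_le_mul_of_nonneg_left (hc i j) (by positivity)
      _ = κ * (∑ i, ‖a i‖) ^ 2 := by
          rw [sq, Finset.sum_mul_sum, Finset.mul_sum]
          apply Finset.sum_congr rfl
          intro i _
          rw [Finset.mul_sum]
          exact Finset.sum_congr rfl fun j _ => by ring
  have h2 : (∑ i, ‖a i‖) ^ 2 ≤ n * ∑ i, ‖a i‖ ^ 2 := by
    have := sq_sum_le_card_mul_sum_sq (s := (Finset.univ : Finset (Fin n))) (f := fun i => ‖a i‖)
    simpa using this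
  calc _ ≤ κ * (∑ i, ‖a i‖) ^ 2 := h1
    _ ≤ κ * (n * ∑ i, ‖a i‖ ^ 2) := mul_le_mul_of_nonneg_left h2 hκ
    _ = _ := by ring

/-- the energy of a combination of approximate eigenvectors -/
theorem near_orth {H : Type*} [NormedAddCommGroup H] [InnerProductSpace ℂ H] {B : H →L[ℂ] H}
    (hB : PosB B) {n : ℕ} (hn : 1 ≤ n) (lam s : ℝ) (hlam : 1 ≤ lam) (hs : s = 1 / (64 * n ^ 2))
    (u F : Fin n → H) (hr : ∀ i, Rel B (u i) (F i)) (hu : ∀ i, ‖u i‖ = 1)
    (hF : ∀ i, ‖F i - ((lam / 2 + lam * i / (2 * n) : ℝ) : ℂ) • u i‖ ≤ s) (a : Fin n → ℂ) :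
    15 / 16 * ∑ i, ‖a i‖ ^ 2 ≤ ‖∑ i, a i • u i‖ ^ 2 ∧
      (⟪∑ i, a i • u i, ∑ i, a i • F i⟫_ℂ).re ≤ 2 * lam * ‖∑ i, a i • u i‖ ^ 2 := by
  have hn0 : (0 : ℝ) < n := by exact_mod_cast hn
  have hn1 : (1 : ℝ) ≤ n := by exact_mod_cast hn
  have hs0 : 0 < s := by rw [hs]; positivity
  set g : Fin n → ℝ := fun i => lam / 2 + lam * i / (2 * n) with hg
  set A2 : ℝ := ∑ i, ‖a i‖ ^ 2 with hA2
  have hA2n : 0 ≤ A2 := Finset.sum_nonneg fun _ _ => sq_nonneg _
  have hgle : ∀ i, g i ≤ lam := by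
    intro i
    have h1 : ((i : ℕ) : ℝ) ≤ n := by exact_mod_cast i.2.le
    have h2 : lam * i / (2 * n) ≤ lam / 2 := by
      rw [div_le_div_iff₀ (by positivity) (by norm_num)]
      nlinarith
    rw [hg]
    simp only
    linarith
  have hg0 : ∀ i, 0 ≤ g i := by
    intro i
    rw [hg]
    positivity
  -- off-diagonal terms
  have hoff : ∀ i j, i ≠ j → ‖⟪u i, u j⟫_ℂ‖ ≤ 1 / (16 * n) := by
    intro i j hij
    have h1 : ⟪u i, F j⟫_ℂ = ⟪F i, u j⟫_ℂ := Rel.comm hB (hr j) (hr i)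
    have e1 : ⟪u i, F j⟫_ℂ = (g j : ℂ) * ⟪u i, u j⟫_ℂ + ⟪u i, F j - (g j : ℂ) • u j⟫_ℂ := by
      rw [inner_sub_right, inner_smul_right]; ring
    have e2 : ⟪F i, u j⟫_ℂ = (g i : ℂ) * ⟪u i, u j⟫_ℂ + ⟪F i - (g i : ℂ) • u i, u j⟫_ℂ := by
      rw [inner_sub_left, inner_smul_left, Complex.conj_ofReal]; ring
    have h2 : ((g j : ℂ) - g i) * ⟪u i, u j⟫_ℂ =
        ⟪F i - (g i : ℂ) • u i, u j⟫_ℂ - ⟪u i, F j - (g j : ℂ) • u j⟫_ℂ := by
      rw [e1, e2] at h1
      linear_combination h1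
    have h3 : |g j - g i| * ‖⟪u i, u j⟫_ℂ‖ ≤ 2 * s := by
      have h4 := congrArg norm h2
      rw [norm_mul, ← Complex.ofReal_sub, Complex.norm_real, Real.norm_eq_abs] at h4
      rw [h4]
      refine (norm_sub_le _ _).trans ?_
      have h5 : ‖⟪F i - (g i : ℂ) • u i, u j⟫_ℂ‖ ≤ s := by
        refine (norm_inner_le_norm _ _).trans ?_
        rw [hu, mul_one]; exact hF i
      have h6 : ‖⟪u i, F j - (g j : ℂ) • u j⟫_ℂ‖ ≤ s := by
        refine (norm_inner_le_norm _ _).trans ?_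
        rw [hu, one_mul]; exact hF j
      linarith
    have h7 : 1 / (2 * n) ≤ |g j - g i| := by
      have e3 : g j - g i = lam * (((j : ℕ) : ℝ) - ((i : ℕ) : ℝ)) / (2 * n) := by
        rw [hg]; simp only; ring
      have h8 : (1 : ℝ) ≤ |((j : ℕ) : ℝ) - ((i : ℕ) : ℝ)| := by
        have h9 : ((j : ℕ) : ℤ) - ((i : ℕ) : ℤ) ≠ 0 := by
          intro h
          apply hij
          apply Fin.ext
          omega
        have := Int.one_le_abs h9
        exact_mod_cast this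
      rw [e3, abs_div, abs_mul, abs_of_pos (show (0 : ℝ) < 2 * n by positivity),
        abs_of_pos (show (0 : ℝ) < lam by linarith)]
      gcongr
      nlinarith
    have h10 : 1 / (2 * n) * ‖⟪u i, u j⟫_ℂ‖ ≤ 2 * s :=
      (mul_le_mul_of_nonneg_right h7 (norm_nonneg _)).trans h3
    rw [hs] at h10
    have h11 : ‖⟪u i, u j⟫_ℂ‖ ≤ 2 * (1 / (64 * n ^ 2)) * (2 * n) := by
      rw [← le_div_iff₀' (by positivity)] at h10
      refine h10.trans (le_of_eq ?_)
      field_simp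
    refine h11.trans (le_of_eq ?_)
    field_simp
    norm_num
  have hdiag : ∀ i, ⟪u i, u i⟫_ℂ = 1 := by
    intro i
    rw [inner_self_eq_norm_sq_to_K, hu]
    simp
  -- the norm
  have hexp : ∀ v : Fin n → H, ⟪∑ i, a i • u i, ∑ i, a i • v i⟫_ℂ =
      ∑ i, ∑ j, (starRingEnd ℂ) (a i) * a j * ⟪u i, v j⟫_ℂ := by
    intro v
    rw [sum_inner]
    apply Finset.sum_congr rfl
    intro i _
    rw [inner_sum]
    apply Finset.sum_congr rfl
    intro j _
    rw [inner_smul_left, inner_smul_right]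
    ring
  have hsplit : ∀ (c e : Fin n → Fin n → ℂ) (t : Fin n → ℝ),
      (∀ i j, c i j = (if i = j then (t i : ℂ) else 0) + e i j) →
      ∑ i, ∑ j, (starRingEnd ℂ) (a i) * a j * c i j = ((∑ i, t i * ‖a i‖ ^ 2 : ℝ) : ℂ) +
        ∑ i, ∑ j, (starRingEnd ℂ) (a i) * a j * e i j := by
    intro c e t hct
    have e1 : ∀ i j, (starRingEnd ℂ) (a i) * a j * c i j =
        (if i = j then (starRingEnd ℂ) (a i) * a j * (t i : ℂ) else 0) +
          (starRingEnd ℂ) (a i) * a j * e i j := by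
      intro i j
      rw [hct i j]
      split_ifs with h <;> ring
    simp only [e1, Finset.sum_add_distrib, Finset.sum_ite_eq, Finset.mem_univ, if_true]
    congr 1
    push_cast
    apply Finset.sum_congr rfl
    intro i _
    have : (starRingEnd ℂ) (a i) * a i = ((‖a i‖ ^ 2 : ℝ) : ℂ) := by
      rw [mul_comm, Complex.mul_conj, Complex.normSq_eq_norm_sq]
    rw [this]
    push_cast
    ring
  have hnorm : 15 / 16 * A2 ≤ ‖∑ i, a i • u i‖ ^ 2 := by
    let e : Fin n → Fin n → ℂ := fun i j => if i = j then 0 else ⟪u i, u j⟫_ℂ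
    have h1 := hsplit (fun i j => ⟪u i, u j⟫_ℂ) e (fun _ => 1) (by
      intro i j
      show ⟪u i, u j⟫_ℂ = (if i = j then ((1 : ℝ) : ℂ) else 0) + (if i = j then 0 else ⟪u i, u j⟫_ℂ)
      split_ifs with h
      · subst h; rw [hdiag]; simp
      · simp)
    have h2 := quad_bound a e (1 / (16 * n)) (by positivity) (by
      intro i j
      show ‖(if i = j then (0 : ℂ) else ⟪u i, u j⟫_ℂ)‖ ≤ _
      split_ifs with h
      · rw [norm_zero]; positivity
      · exact hoff i j h)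
    have h3 : (⟪∑ i, a i • u i, ∑ i, a i • u i⟫_ℂ).re = ‖∑ i, a i • u i‖ ^ 2 :=
      inner_self_eq_norm_sq (𝕜 := ℂ) _
    rw [hexp, h1, Complex.add_re, Complex.ofReal_re] at h3
    simp only [one_mul] at h3
    rw [← h3]
    have h4 := (abs_le.1 ((Complex.abs_re_le_norm _).trans h2)).1
    have h5 : 1 / (16 * (n : ℝ)) * n * A2 = A2 / 16 := by field_simp
    rw [h5] at h4
    linarith
  refine ⟨hnorm, ?_⟩
  let e : Fin n → Fin n → ℂ := fun i j =>
    (if i = j then 0 else (g j : ℂ) * ⟪u i, u j⟫_ℂ) + ⟪u i, F j - (g j : ℂ) • u j⟫_ℂ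
  have h1 := hsplit (fun i j => ⟪u i, F j⟫_ℂ) e g (by
    intro i j
    show ⟪u i, F j⟫_ℂ = (if i = j then ((g i : ℝ) : ℂ) else 0) +
      ((if i = j then 0 else (g j : ℂ) * ⟪u i, u j⟫_ℂ) + ⟪u i, F j - (g j : ℂ) • u j⟫_ℂ)
    rw [inner_sub_right, inner_smul_right]
    split_ifs with h
    · subst h; rw [hdiag]; ring
    · ring)
  have h2 := quad_bound a e (lam * (1 / (16 * n)) + s) (by positivity) (by
    intro i j
    refine (norm_add_le _ _).trans (add_le_add ?_ ?_)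
    · split_ifs with h
      · rw [norm_zero]; positivity
      · rw [norm_mul, Complex.norm_real, Real.norm_eq_abs, abs_of_nonneg (hg0 j)]
        exact mul_le_mul (hgle j) (hoff i j h) (norm_nonneg _) (by linarith)
    · refine (norm_inner_le_norm _ _).trans ?_
      rw [hu, one_mul]; exact hF j)
  rw [hexp, h1, Complex.add_re, Complex.ofReal_re]
  have h3 := (abs_le.1 ((Complex.abs_re_le_norm _).trans h2)).2
  have h4 : ∑ i, g i * ‖a i‖ ^ 2 ≤ lam * A2 := by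
    rw [hA2, Finset.mul_sum]
    exact Finset.sum_le_sum fun i _ => mul_le_mul_of_nonneg_right (hgle i) (sq_nonneg _)
  have h5 : (lam * (1 / (16 * (n : ℝ))) + s) * n * A2 ≤ (lam / 16 + 1 / 64) * A2 := by
    apply mul_le_mul_of_nonneg_right _ hA2n
    have h6 : s * n ≤ 1 / 64 := by
      rw [hs, div_mul_eq_mul_div, one_mul, div_le_div_iff₀ (by positivity) (by norm_num)]
      nlinarith
    have h7 : lam * (1 / (16 * (n : ℝ))) * n = lam / 16 := by field_simp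
    nlinarith
  have h8 : (∑ i, g i * ‖a i‖ ^ 2) + (lam / 16 + 1 / 64) * A2 ≤ 69 / 64 * lam * A2 + 1 / 64 * lam * A2 := by
    nlinarith
  nlinarith

/-- existence of a spectral gap -/
theorem gap {h : ℝ} (hh : 0 < h) {W : EE d → ℝ} (hW : Measurable W) (hW0 : ∀ x, 0 ≤ W x)
    (lam η : ℝ) (hlam : 1 ≤ lam) (hη : 0 < η) (hWM : ∀ x, 8 * lam * (1 - ‖chi x‖ ^ 2) ≤ W x)
    (hsmall : 2 ^ d * d * (η / h) * Real.sqrt (2 * lam) ≤ 1 / 4) (n : ℕ) (hn : 1 ≤ n)
    (hcard : (cubes d ⌈1 / η⌉).card < n) (s : ℝ) (hs : s = 1 / (64 * n ^ 2)) :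
    ∃ g : ℝ, lam / 2 ≤ g ∧ g ≤ lam ∧ ∀ u F : HH d, Rel (BB h W) u F →
      s * ‖u‖ ≤ ‖F - (g : ℂ) • u‖ := by
  by_contra hcon
  push Not at hcon
  have hn0 : (0 : ℝ) < n := by exact_mod_cast hn
  have hB := BB_pos (d := d) h W
  have h1 : ∀ i : Fin n, ∃ u F : HH d, Rel (BB h W) u F ∧ ‖u‖ = 1 ∧
      ‖F - ((lam / 2 + lam * i / (2 * n) : ℝ) : ℂ) • u‖ ≤ s := by
    intro i
    have hi : ((i : ℕ) : ℝ) ≤ n := by exact_mod_cast i.2.le
    obtain ⟨u, F, hr, hlt⟩ := hcon (lam / 2 + lam * i / (2 * n)) (by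
        have : 0 ≤ lam * i / (2 * n) := by positivity
        linarith) (by
        have h2 : lam * i / (2 * n) ≤ lam / 2 := by
          rw [div_le_div_iff₀ (by positivity) (by norm_num)]
          nlinarith
        linarith)
    have hu0 : 0 < ‖u‖ := by
      rcases eq_or_lt_of_le (norm_nonneg u) with h0 | h0
      · rw [← h0, mul_zero] at hlt
        exact absurd hlt (not_lt.2 (norm_nonneg _))
      · exact h0
    refine ⟨((‖u‖⁻¹ : ℝ) : ℂ) • u, ((‖u‖⁻¹ : ℝ) : ℂ) • F, hr.smul _, ?_, ?_⟩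
    · rw [norm_smul, Complex.norm_real, norm_inv, norm_norm, inv_mul_cancel₀ hu0.ne']
    · rw [smul_comm, ← smul_sub, norm_smul, Complex.norm_real, norm_inv, norm_norm,
        inv_mul_le_iff₀ hu0]
      exact hlt.le.trans (le_of_eq (mul_comm _ _))
  choose u F hr hu hF using h1
  -- a combination with vanishing averages
  let L : (Fin n → ℂ) →ₗ[ℂ] (cubes d ⌈1 / η⌉ → ℂ) :=
    { toFun := fun a c => ⟪ic d η c, ∑ i, a i • u i⟫_ℂ
      map_add' := by
        intro a b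
        funext c
        simp only [Pi.add_apply, add_smul, Finset.sum_add_distrib, inner_add_right]
      map_smul' := by
        intro t a
        funext c
        simp only [Pi.smul_apply, smul_eq_mul, RingHom.id_apply, mul_smul, ← Finset.smul_sum,
          inner_smul_right] }
  have hker : LinearMap.ker L ≠ ⊥ := by
    apply LinearMap.ker_ne_bot_of_finrank_lt
    rw [Module.finrank_fintype_fun_eq_card, Module.finrank_fintype_fun_eq_card, Fintype.card_coe,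
      Fintype.card_fin]
    exact hcard
  obtain ⟨a, ha, ha0⟩ := Submodule.exists_mem_ne_zero_of_ne_bot hker
  set v : HH d := ∑ i, a i • u i with hv
  set E : HH d := ∑ i, a i • F i with hE
  have hrel : Rel (BB h W) v E := Rel.sum Finset.univ a u F fun i _ => hr i
  obtain ⟨k1, k2⟩ := near_orth hB hn lam s hlam hs u F hr hu hF a
  rw [← hv] at k1
  rw [← hv, ← hE] at k2
  have hPc : Pc d η ⌈1 / η⌉ v = 0 := by
    rw [Pc_apply]
    apply Finset.sum_eq_zero
    intro c hc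
    rw [avg_eq]
    have h2 := congrFun (LinearMap.mem_ker.1 ha) ⟨c, hc⟩
    have h3 : ⟪ic d η c, v⟫_ℂ = 0 := h2
    rw [h3, mul_zero, zero_smul]
  obtain ⟨D, g1, g2, g3⟩ := ((rel_iff hh hW hW0 v E).1 hrel).energy
  have hsqrt : (Real.sqrt (2 * lam) * ‖v‖) ^ 2 = 2 * lam * ‖v‖ ^ 2 := by
    rw [mul_pow, Real.sq_sqrt (by linarith)]
  have hpot0 : 0 ≤ ∫ x, W x * ‖v x‖ ^ 2 := integral_nonneg fun x => mul_nonneg (hW0 x) (sq_nonneg _)
  have hkin0 : 0 ≤ h ^ 2 * ∑ i, ‖D i‖ ^ 2 :=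
    mul_nonneg (sq_nonneg _) (Finset.sum_nonneg fun _ _ => sq_nonneg _)
  have h4 := cell_approx' g1 η hη ⌈1 / η⌉ (Int.le_ceil _) h (Real.sqrt (2 * lam) * ‖v‖) hh
    (by positivity) (by rw [hsqrt]; linarith)
  rw [hPc, sub_zero] at h4
  have h5 : ‖XX d v‖ ≤ 1 / 4 * ‖v‖ := by
    refine h4.trans ?_
    rw [← mul_assoc]
    exact mul_le_mul_of_nonneg_right hsmall (norm_nonneg _)
  have h6 : 8 * lam * ‖v - XX d v‖ ^ 2 ≤ 2 * lam * ‖v‖ ^ 2 := by
    have e1 : ‖v - XX d v‖ ^ 2 = ∫ x, (1 - ‖chi x‖ ^ 2) * ‖v x‖ ^ 2 := by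
      rw [nsq]
      apply integral_congr_ae
      filter_upwards [out_ae v] with x hx
      rw [hx, norm_mul, mul_pow]
      by_cases h0 : ‖x‖ < 1
      · rw [chi_in x h0]; simp
      · rw [chi_out x h0]; simp
    rw [e1, ← integral_const_mul]
    have h7 : ∫ x, 8 * lam * ((1 - ‖chi x‖ ^ 2) * ‖v x‖ ^ 2) ≤ ∫ x, W x * ‖v x‖ ^ 2 := by
      apply integral_mono _ g2
      · intro x
        have := mul_le_mul_of_nonneg_right (hWM x) (sq_nonneg ‖(v : EE d → ℂ) x‖)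
        simp only
        rw [← mul_assoc]
        exact this
      · have := fin_extra (8 * lam) v
        refine this.congr (ae_of_all _ fun x => ?_)
        simp only
        ring
    linarith
  have h8 : ‖v - XX d v‖ ≤ 1 / 2 * ‖v‖ := by
    apply le_of_sq_le_sq _ (by positivity)
    nlinarith
  have h9 : ‖v‖ ≤ ‖XX d v‖ + ‖v - XX d v‖ := by
    calc ‖v‖ = ‖XX d v + (v - XX d v)‖ := by rw [add_sub_cancel]
      _ ≤ _ := norm_add_le _ _
  have h10 : ‖v‖ = 0 := le_antisymm (by linarith) (norm_nonneg _)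
  rw [h10] at k1
  have h11 : ∑ i, ‖a i‖ ^ 2 ≤ 0 := by linarith
  apply ha0
  funext i
  have h12 : ‖a i‖ ^ 2 ≤ ∑ i, ‖a i‖ ^ 2 :=
    Finset.single_le_sum (f := fun i => ‖a i‖ ^ 2) (fun _ _ => sq_nonneg _) (Finset.mem_univ i)
  have h13 : ‖a i‖ ^ 2 ≤ 0 := h12.trans h11
  have h14 : ‖a i‖ = 0 := by
    have := sq_nonneg ‖a i‖
    exact pow_eq_zero_iff (two_ne_zero) |>.1 (le_antisymm h13 this)
  exact norm_eq_zero.1 h14

end

end Pool.Agent.Q235.CP
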