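import Mathlib
import Pool.Agent.Q235.CP.Gap

set_option autoImplicit false

/-! trial functions -/

namespace Pool.Agent.Q235.CP

open MeasureTheory Filter Topology Complex
open scoped InnerProductSpace
open KRS (EE HH mulOp mulOp_ae mulOp_norm mulOp_inner)

noncomputable section

variable {d : ℕ}

theorem inner_tL_zero {f g : EE d → ℂ} (hf : IsTest f) (hg : IsTest g) (h : ∀ x, f x = 0 ∨ g x = 0) :
    ⟪tL hf, tL hg⟫_ℂ = 0 := by
  rw [L2.inner_def]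
  have : ∀ᵐ x ∂(volume : Measure (EE d)), ⟪(tL hf : EE d → ℂ) x, (tL hg : EE d → ℂ) x⟫_ℂ = 0 := by
    filter_upwards [tL_ae hf, tL_ae hg] with x h1 h2
    rw [h1, h2]
    rcases h x with h | h
    · rw [h, inner_zero_left]
    · rw [h, inner_zero_right]
  rw [integral_congr_ae this, integral_zero]

/-- the Laplacian of a test function as an `L²` element -/
def lapL {φ : EE d → ℂ} (h : IsTest φ) : HH d := ∑ i, tL ((h.pder i).pder i)

theorem FE_test {h : ℝ} {W : EE d → ℝ} {φ : EE d → ℂ} (hφ : IsTest φ)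
    (hW : ∀ x, W x = 0 ∨ φ x = 0) : FE h W (tL hφ) (-(((h ^ 2 : ℝ) : ℂ) • lapL hφ)) := by
  refine ⟨fun i => tL (hφ.pder i), isGrad_test hφ, ?_, ?_⟩
  · unfold Fin2
    have h1 : (fun x => W x * ‖(tL hφ : EE d → ℂ) x‖ ^ 2) =ᵐ[volume] fun _ => (0 : ℝ) := by
      filter_upwards [tL_ae hφ] with x hx
      rw [hx]
      rcases hW x with h | h
      · rw [h, zero_mul]
      · rw [h, norm_zero]; simp
    exact (integrable_zero _ _ _).congr h1.symm
  · intro ψ E hE _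
    have h1 : ∫ x, (W x : ℂ) * (tL hφ : EE d → ℂ) x * (starRingEnd ℂ) (ψ x) = 0 := by
      have h2 : (fun x => (W x : ℂ) * (tL hφ : EE d → ℂ) x * (starRingEnd ℂ) (ψ x)) =ᵐ[volume]
          fun _ => (0 : ℂ) := by
        filter_upwards [tL_ae hφ] with x hx
        rw [hx]
        rcases hW x with h | h
        · rw [h]; simp
        · rw [h]; simp
      rw [integral_congr_ae h2, integral_zero]
    rw [h1, add_zero, inner_neg_right, inner_smul_right]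
    unfold lapL
    rw [inner_sum, ← mul_neg, ← Finset.sum_neg_distrib]
    congr 1
    apply Finset.sum_congr rfl
    intro i _
    have h2 := hE.inner (hφ.pder i) i
    rw [← inner_conj_symm, ← inner_conj_symm ψ, h2, map_neg, neg_neg]

theorem FE_test_energy {h : ℝ} {φ : EE d → ℂ} (hφ : IsTest φ) :
    (⟪tL hφ, -(((h ^ 2 : ℝ) : ℂ) • lapL hφ)⟫_ℂ).re = h ^ 2 * ∑ i, ‖tL (hφ.pder i)‖ ^ 2 := by
  obtain ⟨D, h1, h2, h3⟩ := FE_test (h := h) (W := fun _ => 0) hφ (fun x => Or.inl rfl)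
  have h4 := h3 (tL hφ) (fun i => tL (hφ.pder i)) (isGrad_test hφ) h2
  have h5 : ∀ i, ⟪tL (hφ.pder i), D i⟫_ℂ = ((‖tL (hφ.pder i)‖ ^ 2 : ℝ) : ℂ) := by
    intro i
    have h6 := (isGrad_test hφ).inner (hφ.pder i) i
    have h7 := h1.inner (hφ.pder i) i
    rw [h6] at h7
    have h8 : ⟪tL (hφ.pder i), D i⟫_ℂ = ⟪tL (hφ.pder i), tL (hφ.pder i)⟫_ℂ := (neg_injective h7).symm
    rw [h8, inner_self_eq_norm_sq_to_K]
    push_cast
    rfl
  have h9 : ∫ x, (((fun _ : EE d => (0 : ℝ)) x : ℝ) : ℂ) * (tL hφ : EE d → ℂ) x *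
      (starRingEnd ℂ) ((tL hφ : EE d → ℂ) x) = 0 := by simp
  rw [← h4, h9, add_zero]
  simp only [h5]
  rw [← Complex.ofReal_sum, ← Complex.ofReal_mul, Complex.ofReal_re]

/-- rescaled function -/
def resc (g : EE d → ℂ) (ℓ : ℝ) (c : EE d) (x : EE d) : ℂ := g (ℓ⁻¹ • (x - c))

theorem resc_test {g : EE d → ℂ} (hg : IsTest g) {ℓ : ℝ} (hℓ : 0 < ℓ) (c : EE d) :
    IsTest (resc g ℓ c) := by
  constructor
  · exact hg.1.comp ((contDiff_id.sub contDiff_const).const_smul ℓ⁻¹)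
  · have h1 := hg.2.comp_homeomorph
      ((Homeomorph.subRight c).trans (Homeomorph.smulOfNeZero ℓ⁻¹ (inv_ne_zero hℓ.ne')))
    exact h1

theorem resc_norm {g : EE d → ℂ} (hg : IsTest g) {ℓ : ℝ} (hℓ : 0 < ℓ) (c : EE d) :
    ‖tL (resc_test hg hℓ c)‖ ^ 2 = ℓ ^ d * ‖tL hg‖ ^ 2 := by
  have key : ∀ {f : EE d → ℂ} (hf : IsTest f), ‖tL hf‖ ^ 2 = ∫ x, ‖f x‖ ^ 2 := by
    intro f hf
    rw [nsq]
    apply integral_congr_ae
    filter_upwards [tL_ae hf] with x hx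
    rw [hx]
  rw [key, key]
  unfold resc
  rw [integral_sub_right_eq_self (fun x : EE d => ‖g (ℓ⁻¹ • x)‖ ^ 2) c,
    Measure.integral_comp_smul volume (fun x : EE d => ‖g x‖ ^ 2) ℓ⁻¹]
  rw [finrank_euclideanSpace_fin, smul_eq_mul]
  congr 1
  rw [inv_pow, inv_inv, abs_of_pos (by positivity)]

theorem resc_pder {g : EE d → ℂ} (hg : IsTest g) {ℓ : ℝ} (c : EE d) (i : Fin d)
    (x : EE d) : pder i (resc g ℓ c) x = (ℓ⁻¹ : ℂ) * resc (pder i g) ℓ c x := by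
  have h1 : HasFDerivAt (fun y : EE d => ℓ⁻¹ • (y - c)) (ℓ⁻¹ • ContinuousLinearMap.id ℝ (EE d)) x :=
    ((hasFDerivAt_id x).sub_const c).const_smul ℓ⁻¹
  have h2 : HasFDerivAt (resc g ℓ c)
      ((fderiv ℝ g (ℓ⁻¹ • (x - c))).comp (ℓ⁻¹ • ContinuousLinearMap.id ℝ (EE d))) x :=
    (hg.diff _).hasFDerivAt.comp x h1
  unfold pder
  rw [h2.fderiv]
  simp only [ContinuousLinearMap.comp_apply, smul_apply, ContinuousLinearMap.id_apply, map_smul]
  rw [real_smul]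
  push_cast
  rfl

theorem resc_pder_norm {g : EE d → ℂ} (hg : IsTest g) {ℓ : ℝ} (hℓ : 0 < ℓ) (c : EE d)
    (i : Fin d) : ‖tL ((resc_test hg hℓ c).pder i)‖ ^ 2 =
      ℓ⁻¹ ^ 2 * (ℓ ^ d * ‖tL (hg.pder i)‖ ^ 2) := by
  rw [← resc_norm (hg.pder i) hℓ c]
  have e : tL ((resc_test hg hℓ c).pder i) = (ℓ⁻¹ : ℂ) • tL (resc_test (hg.pder i) hℓ c) := by
    apply Lp.ext
    filter_upwards [tL_ae ((resc_test hg hℓ c).pder i), Lp.coeFn_smul (ℓ⁻¹ : ℂ)
      (tL (resc_test (hg.pder i) hℓ c)), tL_ae (resc_test (hg.pder i) hℓ c)] with x h1 h2 h3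
    rw [h1, h2, Pi.smul_apply, h3, resc_pder hg, smul_eq_mul]
  rw [e, norm_smul, mul_pow]
  congr 1
  rw [norm_inv, Complex.norm_real, Real.norm_eq_abs, abs_of_pos hℓ]

/-- a fixed bump function -/
def bmp (d : ℕ) : ContDiffBump (0 : EE d) := ⟨1 / 2, 1, by norm_num, by norm_num⟩

/-- the bump function with complex values -/
def bc (d : ℕ) (x : EE d) : ℂ := ((bmp d x : ℝ) : ℂ)

theorem bc_test : IsTest (bc d) := by
  constructor
  · exact Complex.ofRealCLM.contDiff.comp (bmp d).contDiff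
  · exact (bmp d).hasCompactSupport.comp_left (g := fun t : ℝ => (t : ℂ)) (by simp)

theorem bc_zero (x : EE d) (hx : 1 ≤ ‖x‖) : bc d x = 0 := by
  unfold bc
  rw [(bmp d).zero_of_le_dist (by rw [dist_zero_right]; exact hx)]
  simp

theorem bc_norm_pos : 0 < ‖tL (bc_test (d := d))‖ := by
  rw [norm_pos_iff]
  intro h
  have h1 : (bc d) =ᵐ[volume] fun _ => (0 : ℂ) := by
    filter_upwards [tL_ae (bc_test (d := d)), Lp.coeFn_zero ℂ 2 (volume : Measure (EE d))]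
      with x h2 h3
    rw [← h2, h, h3]
    rfl
  have h2 : bc d = fun _ => (0 : ℂ) :=
    (bc_test.cont).ae_eq_iff_eq volume continuous_const |>.1 h1
  have h3 := congrFun h2 0
  unfold bc at h3
  rw [(bmp d).one_of_mem_closedBall (by
    rw [Metric.mem_closedBall, dist_self]; exact (bmp d).rIn_pos.le)] at h3
  norm_num at h3

/-- a function which vanishes outside a closed ball has derivatives which vanish there -/
theorem pder_zero {f : EE d → ℂ} {c : EE d} {r : ℝ} (hf : ∀ x, r < ‖x - c‖ → f x = 0)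
    (i : Fin d) (x : EE d) (hx : r < ‖x - c‖) : pder i f x = 0 := by
  have h1 : f =ᶠ[𝓝 x] fun _ => 0 := by
    have : {y : EE d | r < ‖y - c‖} ∈ 𝓝 x :=
      (isOpen_lt continuous_const (continuous_id.sub continuous_const).norm).mem_nhds hx
    filter_upwards [this] with y hy
    exact hf y hy
  unfold pder
  rw [h1.fderiv_eq]
  simp

theorem resc_bc_zero {ℓ : ℝ} (hℓ : 0 < ℓ) (c x : EE d) (hx : ℓ ≤ ‖x - c‖) :
    resc (bc d) ℓ c x = 0 := by
  unfold resc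
  apply bc_zero
  rw [norm_smul, norm_inv, Real.norm_eq_abs, abs_of_pos hℓ, ← div_eq_inv_mul, le_div_iff₀ hℓ,
    one_mul]
  exact hx

/-- the centers -/
def ctr (ℓ : ℝ) (m : ℕ) (j : Fin d → Fin m) : EE d :=
  WithLp.toLp 2 (fun i => ℓ * (2 * ((j i : ℕ) : ℝ) + 1 - m))

theorem ctr_far {ℓ : ℝ} (hℓ : 0 < ℓ) {m : ℕ} {j k : Fin d → Fin m} (hjk : j ≠ k) :
    2 * ℓ ≤ ‖ctr ℓ m j - ctr ℓ m k‖ := by
  obtain ⟨i, hi⟩ := Function.ne_iff.1 hjk
  have h1 : |(ctr ℓ m j - ctr ℓ m k) i| ≤ ‖ctr ℓ m j - ctr ℓ m k‖ := by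
    have := PiLp.norm_apply_le (ctr ℓ m j - ctr ℓ m k) i
    rwa [Real.norm_eq_abs] at this
  refine le_trans ?_ h1
  have h2 : (ctr ℓ m j - ctr ℓ m k) i = 2 * ℓ * (((j i : ℕ) : ℝ) - ((k i : ℕ) : ℝ)) := by
    show ℓ * (2 * ((j i : ℕ) : ℝ) + 1 - m) - ℓ * (2 * ((k i : ℕ) : ℝ) + 1 - m) = _
    ring
  rw [h2, abs_mul, abs_of_pos (by positivity : (0 : ℝ) < 2 * ℓ)]
  have h3 : (1 : ℝ) ≤ |((j i : ℕ) : ℝ) - ((k i : ℕ) : ℝ)| := by
    have h9 : ((j i : ℕ) : ℤ) - ((k i : ℕ) : ℤ) ≠ 0 := by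
      intro h
      apply hi
      apply Fin.ext
      omega
    have := Int.one_le_abs h9
    exact_mod_cast this
  nlinarith

theorem ctr_norm {ℓ : ℝ} (hℓ : 0 < ℓ) {m : ℕ} (j : Fin d → Fin m) (hd : 1 ≤ d) :
    ‖ctr ℓ m j‖ + ℓ ≤ d * ℓ * m := by
  have hd1 : (1 : ℝ) ≤ d := by exact_mod_cast hd
  have hm : (1 : ℝ) ≤ m := by
    have h0 := (j ⟨0, hd⟩).2
    have : 1 ≤ m := by omega
    exact_mod_cast this
  have h1 : ‖ctr ℓ m j‖ ≤ d * (ℓ * (m - 1)) := by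
    rw [EuclideanSpace.norm_eq]
    have h0 : 0 ≤ ℓ * ((m : ℝ) - 1) := mul_nonneg hℓ.le (by linarith)
    apply Real.sqrt_le_iff.2
    refine ⟨by positivity, ?_⟩
    have h2 : ∀ i ∈ (Finset.univ : Finset (Fin d)), ‖(ctr ℓ m j) i‖ ^ 2 ≤ (ℓ * (m - 1)) ^ 2 := by
      intro i _
      have h3 : ((j i : ℕ) : ℝ) ≤ m - 1 := by
        have := (j i).2
        have h4 : ((j i : ℕ) : ℝ) + 1 ≤ m := by exact_mod_cast this
        linarith
      have h5 : (0 : ℝ) ≤ ((j i : ℕ) : ℝ) := Nat.cast_nonneg _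
      rw [Real.norm_eq_abs, sq_abs]
      apply sq_le_sq'
      · show -(ℓ * (m - 1)) ≤ ℓ * (2 * ((j i : ℕ) : ℝ) + 1 - m)
        nlinarith
      · show ℓ * (2 * ((j i : ℕ) : ℝ) + 1 - m) ≤ ℓ * (m - 1)
        nlinarith
    refine (Finset.sum_le_sum h2).trans ?_
    rw [Finset.sum_const, Finset.card_univ, Fintype.card_fin, nsmul_eq_mul,
      mul_pow (d : ℝ) (ℓ * (m - 1)) 2]
    apply mul_le_mul_of_nonneg_right _ (sq_nonneg _)
    nlinarith
  have h6 : ℓ ≤ d * ℓ := by nlinarith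
  nlinarith

/-- the constant -/
def C0 (d : ℕ) : ℝ := (∑ i, ‖tL ((bc_test (d := d)).pder i)‖ ^ 2) / ‖tL (bc_test (d := d))‖ ^ 2

theorem C0_nonneg : 0 ≤ C0 d :=
  div_nonneg (Finset.sum_nonneg fun _ _ => sq_nonneg _) (sq_nonneg _)

theorem W1_zero {α M : ℝ} (x : EE d) (hx : ‖x‖ ≤ 1 / 2) : W1 d α M x = 0 := by
  have h1 : ‖x‖ < 1 := by linarith
  have h2 : ‖x‖ ^ 2 ≤ 1 / 2 := by nlinarith [norm_nonneg x]
  unfold W1 Wf
  rw [if_neg (by
    intro h
    linarith [h.1]), chi_in x h1]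
  simp

/-- the trial space -/
theorem trial (hd : 1 ≤ d) {h α M ℓ : ℝ} (hh : 0 < h) (hM : 0 ≤ M) (hℓ : 0 < ℓ) (m : ℕ)
    (hm : d * ℓ * m ≤ 1 / 2) :
    ∃ F : Submodule ℂ (HH d), FiniteDimensional ℂ F ∧ Module.finrank ℂ F = m ^ d ∧
      (∀ v ∈ F, ∀ᵐ x ∂(volume : Measure (EE d)), 1 / 2 < ‖x‖ ^ 2 → v x = 0) ∧
      ∀ v ∈ F, ∃ E : HH d, FE h (W1 d α M) v E ∧
        (⟪v, E⟫_ℂ).re ≤ C0 d * h ^ 2 / ℓ ^ 2 * ‖v‖ ^ 2 := by
  classical
  let φ : (Fin d → Fin m) → EE d → ℂ := fun j => resc (bc d) ℓ (ctr ℓ m j)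
  have hφ : ∀ j, IsTest (φ j) := fun j => resc_test bc_test hℓ _
  let v : (Fin d → Fin m) → HH d := fun j => tL (hφ j)
  have hsupp : ∀ j x, φ j x ≠ 0 → ‖x‖ ≤ 1 / 2 := by
    intro j x hx
    have h1 : ‖x - ctr ℓ m j‖ < ℓ := by
      by_contra hcon
      push Not at hcon
      exact hx (resc_bc_zero hℓ _ x hcon)
    have h2 := ctr_norm hℓ j hd
    calc ‖x‖ = ‖(x - ctr ℓ m j) + ctr ℓ m j‖ := by rw [sub_add_cancel]
      _ ≤ ‖x - ctr ℓ m j‖ + ‖ctr ℓ m j‖ := norm_add_le _ _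
      _ ≤ 1 / 2 := by linarith
  have hz1 : ∀ j x, ℓ < ‖x - ctr ℓ m j‖ → φ j x = 0 := fun j x hx => resc_bc_zero hℓ _ x hx.le
  have hz2 : ∀ j i x, ℓ < ‖x - ctr ℓ m j‖ → pder i (φ j) x = 0 := fun j i x hx =>
    pder_zero (hz1 j) i x hx
  have hz3 : ∀ j i x, ℓ < ‖x - ctr ℓ m j‖ → pder i (pder i (φ j)) x = 0 := fun j i x hx =>
    pder_zero (hz2 j i) i x hx
  have hfar : ∀ j k, j ≠ k → ∀ x, φ j x ≠ 0 → ℓ < ‖x - ctr ℓ m k‖ := by
    intro j k hjk x hx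
    have h1 : ‖x - ctr ℓ m j‖ < ℓ := by
      by_contra hcon
      push Not at hcon
      exact hx (resc_bc_zero hℓ _ x hcon)
    have h2 := ctr_far hℓ hjk
    have h3 : ‖ctr ℓ m j - ctr ℓ m k‖ ≤ ‖x - ctr ℓ m k‖ + ‖x - ctr ℓ m j‖ := by
      have : ctr ℓ m j - ctr ℓ m k = (x - ctr ℓ m k) - (x - ctr ℓ m j) := by abel
      rw [this]
      exact norm_sub_le _ _
    linarith
  have horth : ∀ j k, j ≠ k → ⟪v j, v k⟫_ℂ = 0 := by
    intro j k hjk
    apply inner_tL_zero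
    intro x
    by_cases hx : φ j x = 0
    · exact Or.inl hx
    · exact Or.inr (hz1 k x (hfar j k hjk x hx))
  have hnorm : ∀ j, ‖v j‖ ^ 2 = ℓ ^ d * ‖tL (bc_test (d := d))‖ ^ 2 := fun j =>
    resc_norm bc_test hℓ _
  have hvne : ∀ j, v j ≠ 0 := by
    intro j hj
    have h1 := hnorm j
    rw [hj, norm_zero] at h1
    have h2 : 0 < ℓ ^ d * ‖tL (bc_test (d := d))‖ ^ 2 := by
      have := bc_norm_pos (d := d)
      positivity
    rw [← h1] at h2
    norm_num at h2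
  have hli : LinearIndependent ℂ v :=
    linearIndependent_of_ne_zero_of_inner_eq_zero hvne (fun j k hjk => horth j k hjk)
  let Ev : (Fin d → Fin m) → HH d := fun j => -(((h ^ 2 : ℝ) : ℂ) • lapL (hφ j))
  have hFEj : ∀ j, FE h (W1 d α M) (v j) (Ev j) := by
    intro j
    apply FE_test
    intro x
    by_cases hx : φ j x = 0
    · exact Or.inr hx
    · exact Or.inl (W1_zero x (hsupp j x hx))
  have horthE : ∀ j k, j ≠ k → ⟪v j, Ev k⟫_ℂ = 0 := by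
    intro j k hjk
    show ⟪tL (hφ j), -(((h ^ 2 : ℝ) : ℂ) • lapL (hφ k))⟫_ℂ = 0
    unfold lapL
    rw [inner_neg_right, inner_smul_right, inner_sum]
    rw [Finset.sum_eq_zero, mul_zero, neg_zero]
    intro i _
    apply inner_tL_zero
    intro x
    by_cases hx : φ j x = 0
    · exact Or.inl hx
    · exact Or.inr (hz3 k i x (hfar j k hjk x hx))
  have hen : ∀ j, (⟪v j, Ev j⟫_ℂ).re = C0 d * h ^ 2 / ℓ ^ 2 * ‖v j‖ ^ 2 := by
    intro j
    have h1 := FE_test_energy (h := h) (hφ j)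
    show (⟪tL (hφ j), -(((h ^ 2 : ℝ) : ℂ) • lapL (hφ j))⟫_ℂ).re = _
    rw [h1]
    have h2 : ∀ i, ‖tL ((hφ j).pder i)‖ ^ 2 =
        ℓ⁻¹ ^ 2 * (ℓ ^ d * ‖tL ((bc_test (d := d)).pder i)‖ ^ 2) := fun i =>
      resc_pder_norm bc_test hℓ _ i
    simp only [h2]
    rw [← Finset.mul_sum, ← Finset.mul_sum, hnorm]
    unfold C0
    have h3 : ‖tL (bc_test (d := d))‖ ≠ 0 := (bc_norm_pos (d := d)).ne'
    field_simp
  have hrep : ∀ w ∈ Submodule.span ℂ (Set.range v), ∃ a : (Fin d → Fin m) → ℂ,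
      w = ∑ j, a j • v j := by
    intro w hw
    obtain ⟨a, ha⟩ := (Submodule.mem_span_range_iff_exists_fun ℂ).1 hw
    exact ⟨a, ha.symm⟩
  refine ⟨Submodule.span ℂ (Set.range v), FiniteDimensional.span_of_finite ℂ (Set.finite_range _),
    ?_, ?_, ?_⟩
  · rw [finrank_span_eq_card hli, Fintype.card_fun, Fintype.card_fin, Fintype.card_fin]
  · intro w hw
    induction hw using Submodule.span_induction with
    | mem w hw =>
      obtain ⟨j, rfl⟩ := hw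
      filter_upwards [tL_ae (hφ j)] with x hx h1
      show (tL (hφ j) : EE d → ℂ) x = 0
      rw [hx]
      by_contra hne
      have := hsupp j x hne
      nlinarith [norm_nonneg x]
    | zero =>
      filter_upwards [Lp.coeFn_zero ℂ 2 (volume : Measure (EE d))] with x hx _
      rw [hx]; rfl
    | add a b _ _ ha hb =>
      filter_upwards [ha, hb, Lp.coeFn_add a b] with x h1 h2 h3 h4
      rw [h3, Pi.add_apply, h1 h4, h2 h4, add_zero]
    | smul c a _ ha =>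
      filter_upwards [ha, Lp.coeFn_smul c a] with x h1 h2 h3
      rw [h2, Pi.smul_apply, h1 h3, smul_zero]
  · intro w hw
    obtain ⟨a, rfl⟩ := hrep w hw
    have hW1m := W1_meas (d := d) α M
    have hW10 := W1_nonneg (d := d) α (M := M) hM
    refine ⟨∑ j, a j • Ev j, ?_, ?_⟩
    · rw [← rel_iff hh hW1m hW10]
      exact Rel.sum Finset.univ a v Ev fun j _ => (rel_iff hh hW1m hW10 _ _).2 (hFEj j)
    · have hexp : ∀ y : (Fin d → Fin m) → HH d, (∀ j k, j ≠ k → ⟪v j, y k⟫_ℂ = 0) →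
          ⟪∑ j, a j • v j, ∑ j, a j • y j⟫_ℂ = ∑ j, ((‖a j‖ ^ 2 : ℝ) : ℂ) * ⟪v j, y j⟫_ℂ := by
        intro y hy
        rw [sum_inner]
        apply Finset.sum_congr rfl
        intro j _
        rw [inner_sum, Finset.sum_eq_single j]
        · rw [inner_smul_left, inner_smul_right, ← mul_assoc]
          congr 1
          rw [mul_comm, Complex.mul_conj, Complex.normSq_eq_norm_sq]
        · intro k _ hk
          rw [inner_smul_left, inner_smul_right, hy j k (Ne.symm hk)]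
          ring
        · intro hj
          exact absurd (Finset.mem_univ j) hj
      have h1 : ‖∑ j, a j • v j‖ ^ 2 = ∑ j, ‖a j‖ ^ 2 * ‖v j‖ ^ 2 := by
        have h2 : (⟪∑ j, a j • v j, ∑ j, a j • v j⟫_ℂ).re = ‖∑ j, a j • v j‖ ^ 2 :=
          inner_self_eq_norm_sq (𝕜 := ℂ) _
        rw [← h2, hexp v horth, Complex.re_sum]
        apply Finset.sum_congr rfl
        intro j _
        rw [Complex.re_ofReal_mul]
        congr 1
        exact inner_self_eq_norm_sq (𝕜 := ℂ) _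
      rw [hexp Ev horthE, Complex.re_sum, h1, Finset.mul_sum]
      apply le_of_eq
      apply Finset.sum_congr rfl
      intro j _
      rw [Complex.re_ofReal_mul, hen]
      ring

end

end Pool.Agent.Q235.CP
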