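import Mathlib
import Pool.Agent.Q235.CP.Gap
import Pool.Agent.Q235.CP.Cfc

set_option autoImplicit false

/-! lower bound for the number of eigenvalues in a box -/

namespace Pool.Agent.Q235.CP

open MeasureTheory Filter Topology Complex
open scoped InnerProductSpace
open KRS (EE HH mulOp mulOp_ae mulOp_norm mulOp_inner)

noncomputable section

variable {d : ℕ}

theorem XX_norm (u : HH d) : ‖XX d u‖ ≤ ‖u‖ := by
  have := mulOp_norm (chi (d := d)) chi_meas 1 chi_le u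
  rwa [one_mul] at this

/-- `XX` is a projection -/
theorem XX_real (u : HH d) : (⟪u, XX d u⟫_ℂ).im = 0 := by
  have h2 := mulOp_inner (chi (d := d)) chi_meas 1 chi_le u u
  have h3 : (fun x => (starRingEnd ℂ) (chi (d := d) x)) = chi := by
    funext x
    by_cases hx : ‖x‖ < 1
    · rw [chi_in x hx]; simp
    · rw [chi_out x hx]; simp
  rw [h3] at h2
  have h4 : (starRingEnd ℂ) ⟪u, XX d u⟫_ℂ = ⟪u, XX d u⟫_ℂ := by
    rw [inner_conj_symm]; exact h2
  exact Complex.conj_eq_iff_im.1 h4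

/-- the resolvent of the nonselfadjoint operator -/
theorem exists_G {h : ℝ} (hh : 0 < h) {W : EE d → ℝ} (hW : Measurable W) (hW0 : ∀ x, 0 ≤ W x) :
    ∃ G : HH d →L[ℂ] HH d, IsCompactOperator (G - BB h W) ∧
      ∀ u F : HH d, u = G (F + u) ↔ FE h W u (F - I • XX d u) := by
  set B := BB (d := d) h W with hBdef
  have hB : PosB B := BB_pos h W
  have hXB : IsCompactOperator (XX d ∘L B) := XB_compact hh hW hW0
  set T : HH d →L[ℂ] HH d := 1 + I • (XX d ∘L B) with hT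
  have hTa : ∀ y, T y = y + I • XX d (B y) := fun y => rfl
  have hunit : IsUnit T := by
    apply (Fr.one.add_compact (hXB.smul I)).isUnit
    intro y hy
    rw [← hT, hTa] at hy
    have h1 : y = -(I • XX d (B y)) := eq_neg_of_add_eq_zero_left hy
    have h2 := hB.pos y
    have h3 : (⟪B y, y⟫_ℂ).re = 0 := by
      have h4 : ⟪B y, y⟫_ℂ = -(I * ⟪B y, XX d (B y)⟫_ℂ) := by
        conv_lhs =>
          arg 3
          rw [h1]
        rw [inner_neg_right, inner_smul_right]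
      rw [h4, Complex.neg_re, Complex.mul_re, XX_real]
      simp
    rw [h3] at h2
    have h5 : B y = 0 := by
      have : ‖B y‖ = 0 := by
        have h6 := sq_nonneg ‖B y‖
        exact pow_eq_zero_iff (two_ne_zero) |>.1 (le_antisymm h2 h6)
      exact norm_eq_zero.1 this
    rw [h1, h5, map_zero, smul_zero, neg_zero]
  obtain ⟨R, hR⟩ := hunit
  have hR1 : ∀ y, T ((↑R⁻¹ : HH d →L[ℂ] HH d) y) = y := by
    intro y
    have : ((R : HH d →L[ℂ] HH d) * (↑R⁻¹ : HH d →L[ℂ] HH d)) y = y := by rw [R.mul_inv]; rfl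
    rw [hR] at this
    exact this
  have hR2 : ∀ y, (↑R⁻¹ : HH d →L[ℂ] HH d) (T y) = y := by
    intro y
    have : ((↑R⁻¹ : HH d →L[ℂ] HH d) * (R : HH d →L[ℂ] HH d)) y = y := by rw [R.inv_mul]; rfl
    rw [hR] at this
    exact this
  refine ⟨B * (↑R⁻¹ : HH d →L[ℂ] HH d), ?_, ?_⟩
  · have e : B * (↑R⁻¹ : HH d →L[ℂ] HH d) - B =
        -(B * ((↑R⁻¹ : HH d →L[ℂ] HH d) * (I • (XX d ∘L B)))) := by
      have e1 : (↑R⁻¹ : HH d →L[ℂ] HH d) * T = 1 := by rw [← hR, R.inv_mul]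
      have e2 : (↑R⁻¹ : HH d →L[ℂ] HH d) * (I • (XX d ∘L B)) = 1 - ↑R⁻¹ := by
        have : I • (XX d ∘L B) = T - 1 := by rw [hT]; abel
        rw [this, mul_sub, e1, mul_one]
      rw [e2]
      noncomm_ring
    rw [e]
    exact (((hXB.smul I).clm_comp (↑R⁻¹ : HH d →L[ℂ] HH d)).clm_comp B).neg
  · intro u F
    rw [← rel_iff hh hW hW0]
    show u = B ((↑R⁻¹ : HH d →L[ℂ] HH d) (F + u)) ↔ u = B (F - I • XX d u + u)
    constructor
    · intro hu
      set y := (↑R⁻¹ : HH d →L[ℂ] HH d) (F + u) with hy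
      have h1 : T y = F + u := hR1 _
      rw [hTa, ← hu] at h1
      have h2 : y = F - I • XX d u + u := by
        rw [eq_sub_of_add_eq h1]; abel
      rw [← h2]
      exact hu
    · intro hu
      set y := F - I • XX d u + u with hy
      have h1 : T y = F + u := by
        rw [hTa, ← hu, hy]; abel
      rw [← h1, hR2]
      exact hu

/-- the estimate on the boundary of the box -/
theorem bdry {α δ lam L g s : ℝ} (hα : 0 < α) (hδ : 0 < δ) (hδ4 : δ ≤ 1 / 4) (hlam : 1 ≤ lam)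
    (hL0 : 0 ≤ L) (hL : ∀ t, |deriv S t| ≤ L)
    (hc : 1 + lam + (lam + 1) / 2 + 4 * L ^ 2 * (1 + (2 * (lam + 1)) ^ 2) ≤ (2 * δ) ^ (-α))
    (hg2 : g ≤ lam) (hs0 : 0 < s) (hs4 : s ≤ 1 / 4)
    (hgap : ∀ u F : HH d, Rel (BB (δ ^ 2) (W1 d α (8 * lam))) u F → s * ‖u‖ ≤ ‖F - (g : ℂ) • u‖)
    (hsm : (8 * lam + 1) * (2 * lam + 3) * Real.exp (-(1 / δ)) ≤ s / 2)
    {z : ℂ} (hz1 : z.re ≤ g) (hz2 : 3 / 4 ≤ z.im)
    (hz : z.re = -1 ∨ z.re = g ∨ z.im = 3 / 4 ∨ z.im = 5 / 4) {u v : HH d}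
    (hF : FE (δ ^ 2) (Wf d α) u (v + z • u - I • XX d u)) :
    ‖u‖ ≤ 2 / s * (1 + (8 * lam + 1) * (2 * lam + 3)) * ‖v‖ := by
  have hh : (0 : ℝ) < δ ^ 2 := by positivity
  have hW1m := W1_meas (d := d) α (8 * lam)
  have hW10 := W1_nonneg (d := d) α (M := 8 * lam) (by linarith)
  set B1 := BB (d := d) (δ ^ 2) (W1 d α (8 * lam)) with hB1
  have hB : PosB B1 := BB_pos _ _
  have h1 := hF.compare (M := 8 * lam)
  have hrel := (rel_iff hh hW1m hW10 u _).2 h1
  set F' : HH d := v + z • u - I • XX d u + ((8 * lam : ℝ) : ℂ) • (u - XX d u) with hF'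
  have e1 : F' - (z - I) • u = v + (((8 * lam : ℝ) : ℂ) + I) • (u - XX d u) := by
    rw [hF', sub_smul, add_smul, smul_sub I]
    abel
  have hY := out_A hα hδ hδ4 (by linarith) hL0 hL hc (hz1.trans hg2) hz2 hF
  have hn1 : ‖(((8 * lam : ℝ) : ℂ) + I)‖ ≤ 8 * lam + 1 := by
    refine (norm_add_le _ _).trans ?_
    rw [Complex.norm_real, Complex.norm_I, Real.norm_eq_abs, abs_of_pos (by linarith)]
  have hup : ‖F' - (z - I) • u‖ ≤ ‖v‖ + (8 * lam + 1) *
      ((2 * lam + 3) * (Real.exp (-(1 / δ)) * ‖u‖ + ‖v‖)) := by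
    rw [e1]
    refine (norm_add_le _ _).trans ?_
    rw [norm_smul]
    gcongr
  have hlow : s * ‖u‖ ≤ ‖F' - (z - I) • u‖ := by
    rcases hz with hz | hz | hz | hz
    · have h2 := hrel.lb_re hB (z - I)
      have e2 : -(z - I).re = 1 := by simp [hz]
      rw [e2] at h2
      exact (mul_le_mul_of_nonneg_right (by linarith) (norm_nonneg _)).trans h2
    · have h2 := hrel.lb_gap hB g (z.im - 1) s hs0.le (hgap u _ hrel)
      have e2 : (g : ℂ) + ((z.im - 1 : ℝ) : ℂ) * I = z - I := by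
        apply Complex.ext
        · simp [hz]
        · simp
      rw [e2] at h2
      exact h2
    · have h2 := hrel.lb_im hB (z - I)
      have e2 : |(z - I).im| = 1 / 4 := by
        rw [Complex.sub_im, Complex.I_im, hz]; norm_num
      rw [e2] at h2
      exact (mul_le_mul_of_nonneg_right hs4 (norm_nonneg _)).trans h2
    · have h2 := hrel.lb_im hB (z - I)
      have e2 : |(z - I).im| = 1 / 4 := by
        rw [Complex.sub_im, Complex.I_im, hz]; norm_num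
      rw [e2] at h2
      exact (mul_le_mul_of_nonneg_right hs4 (norm_nonneg _)).trans h2
  have h3 := hlow.trans hup
  have hu0 := norm_nonneg u
  have hv0 := norm_nonneg v
  have h4 : (8 * lam + 1) * (2 * lam + 3) * Real.exp (-(1 / δ)) * ‖u‖ ≤ s / 2 * ‖u‖ :=
    mul_le_mul_of_nonneg_right hsm hu0
  have h5 : s / 2 * ‖u‖ ≤ (1 + (8 * lam + 1) * (2 * lam + 3)) * ‖v‖ := by nlinarith
  have h6 : ‖u‖ = 2 / s * (s / 2 * ‖u‖) := by field_simp
  rw [h6, mul_assoc]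
  gcongr

/-- the counting theorem: a trial space of dimension `N` forces total algebraic multiplicity at
least `N` in the box -/
theorem window {α δ lam L g s s' : ℝ} (hα : 0 < α) (hδ : 0 < δ) (hδ4 : δ ≤ 1 / 4)
    (hlam : 1 ≤ lam) (hL0 : 0 ≤ L) (hL : ∀ t, |deriv S t| ≤ L)
    (hc : 1 + lam + (lam + 1) / 2 + 4 * L ^ 2 * (1 + (2 * (lam + 1)) ^ 2) ≤ (2 * δ) ^ (-α))
    (hg1 : lam / 2 ≤ g) (hg2 : g ≤ lam) (hs0 : 0 < s) (hs4 : s ≤ 1 / 4)
    (hgap : ∀ u F : HH d, Rel (BB (δ ^ 2) (W1 d α (8 * lam))) u F → s * ‖u‖ ≤ ‖F - (g : ℂ) • u‖)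
    (hsm : (8 * lam + 1) * (2 * lam + 3) * Real.exp (-(1 / δ)) ≤ s / 2)
    (hs'0 : 0 < s') (hs'4 : s' ≤ 1 / 4)
    (hsm2 : (8 * lam + 1) * (2 * lam + 3) * Real.exp (-(1 / δ)) *
      (2 / s * (1 + (8 * lam + 1) * (2 * lam + 3)) + 1) ≤ s')
    (hsm3 : 8 * lam * s' * (2 / s * (1 + (8 * lam + 1) * (2 * lam + 3)) + 1) ^ 2 < 1)
    {G : HH d →L[ℂ] HH d} (hGc : IsCompactOperator (G - BB (δ ^ 2) (Wf d α)))
    (hG : ∀ u F : HH d, u = G (F + u) ↔ FE (δ ^ 2) (Wf d α) u (F - I • XX d u))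
    (U : Set ℂ) (hU : U = {z : ℂ | -1 ≤ z.re ∧ z.re ≤ g ∧ 3 / 4 ≤ z.im ∧ z.im ≤ 5 / 4})
    [FiniteDimensional ℂ (Submodule.span ℂ (gset G U))]
    (F : Submodule ℂ (HH d)) [FiniteDimensional ℂ F]
    (hF1 : ∀ v ∈ F, ∀ᵐ x ∂(volume : Measure (EE d)), 1 / 2 < ‖x‖ ^ 2 → v x = 0)
    (hF2 : ∀ v ∈ F, ∃ E : HH d, FE (δ ^ 2) (W1 d α (8 * lam)) v E ∧
      (⟪v, E⟫_ℂ).re ≤ g / 2 * ‖v‖ ^ 2) :
    Module.finrank ℂ F ≤ Module.finrank ℂ (Submodule.span ℂ (gset G U)) := by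
  by_contra hcon
  push Not at hcon
  have hB0 : PosB (BB (d := d) (δ ^ 2) (Wf d α)) := BB_pos _ _
  have hUim : ∀ z ∈ U, IsUnit (TT (BB (d := d) (δ ^ 2) (Wf d α)) z) := by
    intro z hz
    apply hB0.unit
    rw [hU] at hz
    have := hz.2.2.1
    intro h
    rw [h] at this
    norm_num at this
  obtain ⟨v, hvF, hv0, w, hw⟩ := abs_main hGc hUim F hcon
  set K : ℝ := 2 / s * (1 + (8 * lam + 1) * (2 * lam + 3)) with hK
  have hK0 : 0 ≤ K := by rw [hK]; positivity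
  have hvn : 0 < ‖v‖ := norm_pos_iff.2 hv0
  have hFE : ∀ z ∈ U, FE (δ ^ 2) (Wf d α) (w z) (v + z • w z - I • XX d (w z)) := by
    intro z hz
    rw [← hG]
    have h1 := (hw z hz).2
    rw [TT_apply] at h1
    have h2 : w z = G v + (1 + z) • G (w z) := by
      rw [← h1]; abel
    have h3 : v + z • w z + w z = v + (1 + z) • w z := by
      rw [add_smul, one_smul]; abel
    rw [h3, map_add, map_smul]
    exact h2
  have hbox : ∀ z : ℂ, -1 ≤ z.re → z.re ≤ g → 3 / 4 ≤ z.im → z.im ≤ 5 / 4 → ‖w z‖ ≤ K * ‖v‖ := by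
    apply box_max w (-1) g (3 / 4) (5 / 4) (K * ‖v‖)
    · intro z h1 h2 h3 h4
      exact (hw z (by rw [hU]; exact ⟨h1, h2, h3, h4⟩)).1
    · intro z h1 h2 h3 h4 h5
      exact bdry hα hδ hδ4 hlam hL0 hL hc hg2 hs0 hs4 hgap hsm h2 h3 h5
        (hFE z (by rw [hU]; exact ⟨h1, h2, h3, h4⟩))
  have hh : (0 : ℝ) < δ ^ 2 := by positivity
  have hW1m := W1_meas (d := d) α (8 * lam)
  have hW10 := W1_nonneg (d := d) α (M := 8 * lam) (by linarith)
  set B1 := BB (d := d) (δ ^ 2) (W1 d α (8 * lam)) with hB1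
  have hB : PosB B1 := BB_pos _ _
  obtain ⟨E, hE1, hE2⟩ := hF2 v hvF
  have hrelv := (rel_iff hh hW1m hW10 v E).2 hE1
  have hBv : B1 (E + v) = v := hrelv.symm
  -- the resolvent vectors
  let ζ : ℕ → ℂ := fun m => ((m * s' : ℝ) : ℂ) + (s' : ℂ) * I
  have hζim : ∀ m, (ζ m).im = s' := by
    intro m; simp [ζ]
  have hζre : ∀ m : ℕ, (ζ m).re = m * s' := by
    intro m; simp [ζ]
  have hr : ∀ m : ℕ, ∃ r : HH d, TT B1 (ζ m) r = B1 v := by
    intro m
    have h1 := hB.unit (ζ m) (by rw [hζim]; exact hs'0.ne')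
    exact ((ContinuousLinearMap.isUnit_iff_bijective).1 h1).2 _
  choose r hr using hr
  set n : ℕ := ⌊g / s'⌋₊ with hn
  have hg0 : 0 < g := by linarith
  have hn1 : (n : ℝ) * s' ≤ g := by
    have := Nat.floor_le (div_nonneg hg0.le hs'0.le)
    rwa [le_div_iff₀ hs'0] at this
  have hn2 : g ≤ (n + 1) * s' := by
    have := (Nat.lt_floor_add_one (g / s')).le
    rwa [div_le_iff₀ hs'0] at this
  have hrn : ∀ m ∈ Finset.range (n + 1), ‖r m‖ ≤ (K + 1) * ‖v‖ := by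
    intro m hm
    have hm' : (m : ℝ) ≤ n := by
      have := Finset.mem_range.1 hm
      exact_mod_cast Nat.lt_succ_iff.1 this
    have hms : (m : ℝ) * s' ≤ g := (mul_le_mul_of_nonneg_right hm' hs'0.le).trans hn1
    set z : ℂ := ζ m + I with hz
    have hzre : z.re = m * s' := by rw [hz, Complex.add_re, hζre, Complex.I_re, add_zero]
    have hzim : z.im = s' + 1 := by rw [hz, Complex.add_im, hζim, Complex.I_im]
    have hm0 : 0 ≤ (m : ℝ) * s' := by positivity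
    have b1 : -1 ≤ z.re := by rw [hzre]; linarith
    have b2 : z.re ≤ g := by rw [hzre]; exact hms
    have b3 : 3 / 4 ≤ z.im := by rw [hzim]; linarith
    have b4 : z.im ≤ 5 / 4 := by rw [hzim]; linarith
    have hzU : z ∈ U := by rw [hU]; exact ⟨b1, b2, b3, b4⟩
    have h1 := hbox z b1 b2 b3 b4
    have h2 := out_B hα hδ hδ4 (by linarith) hL0 hL hc (b2.trans hg2) b3 (hFE z hzU) (hF1 v hvF)
    have h3 := (hFE z hzU).compare (M := 8 * lam)
    have h4 := (rel_iff hh hW1m hW10 (w z) _).2 h3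
    -- the relation for r
    have h5 : Rel B1 (r m) (v + ζ m • r m) := by
      have h6 := hr m
      rw [TT_apply] at h6
      show r m = B1 (v + ζ m • r m + r m)
      have h7 : v + ζ m • r m + r m = v + (1 + ζ m) • r m := by
        rw [add_smul (1 : ℂ) (ζ m) (r m), one_smul]; abel
      rw [h7, map_add, map_smul, ← h6]
      abel
    have h8 : Rel B1 (w z - r m) ((v + z • w z - I • XX d (w z) +
        ((8 * lam : ℝ) : ℂ) • (w z - XX d (w z))) - (v + ζ m • r m)) := by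
      have h9 := h4
      have h10 := h5
      unfold Rel at h9 h10 ⊢
      have e : (v + z • w z - I • XX d (w z) + ((8 * lam : ℝ) : ℂ) • (w z - XX d (w z))) -
          (v + ζ m • r m) + (w z - r m) = ((v + z • w z - I • XX d (w z) +
          ((8 * lam : ℝ) : ℂ) • (w z - XX d (w z))) + w z) - ((v + ζ m • r m) + r m) := by abel
      rw [e, map_sub, ← h9, ← h10]
    have h11 := h8.lb_im hB (ζ m)
    rw [hζim, abs_of_pos hs'0] at h11
    have e2 : (v + z • w z - I • XX d (w z) + ((8 * lam : ℝ) : ℂ) • (w z - XX d (w z))) -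
        (v + ζ m • r m) - ζ m • (w z - r m) =
        (((8 * lam : ℝ) : ℂ) + I) • (w z - XX d (w z)) := by
      have e3 : ∀ x : HH d, z • x = ζ m • x + I • x := fun x => by
        rw [hz]; exact add_smul (ζ m) I x
      rw [e3, smul_sub (ζ m), add_smul ((8 * lam : ℝ) : ℂ) I, smul_sub I]
      abel
    rw [e2, norm_smul] at h11
    have hn1' : ‖(((8 * lam : ℝ) : ℂ) + I)‖ ≤ 8 * lam + 1 := by
      refine (norm_add_le _ _).trans ?_
      rw [Complex.norm_real, Complex.norm_I, Real.norm_eq_abs, abs_of_pos (by linarith)]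
    have h12 : s' * ‖w z - r m‖ ≤ (8 * lam + 1) *
        ((2 * lam + 3) * Real.exp (-(1 / δ)) * ((K + 1) * ‖v‖)) := by
      refine h11.trans (mul_le_mul hn1' (h2.trans ?_) (norm_nonneg _) (by linarith))
      apply mul_le_mul_of_nonneg_left _ (by positivity)
      linarith
    have h13 : s' * ‖w z - r m‖ ≤ s' * ‖v‖ := by
      refine h12.trans ?_
      have := mul_le_mul_of_nonneg_right hsm2 hvn.le
      refine le_trans (le_of_eq ?_) this
      ring
    have h14 : ‖w z - r m‖ ≤ ‖v‖ := le_of_mul_le_mul_left h13 hs'0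
    calc ‖r m‖ = ‖w z - (w z - r m)‖ := by rw [sub_sub_cancel]
      _ ≤ ‖w z‖ + ‖w z - r m‖ := norm_sub_le _ _
      _ ≤ K * ‖v‖ + ‖v‖ := add_le_add h1 h14
      _ = _ := by ring
  have hspec := hB.spectral g s' hg0 hs'0 n hn2 (E + v) r (by
    intro m
    rw [hBv]
    exact hr m)
  rw [hBv, add_sub_cancel_right] at hspec
  have hsum : ∑ m ∈ Finset.range (n + 1), ‖r m‖ ^ 2 ≤ (n + 1) * ((K + 1) * ‖v‖) ^ 2 := by
    have : ∑ m ∈ Finset.range (n + 1), ‖r m‖ ^ 2 ≤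
        ∑ m ∈ Finset.range (n + 1), ((K + 1) * ‖v‖) ^ 2 :=
      Finset.sum_le_sum fun m hm => pow_le_pow_left₀ (norm_nonneg _) (hrn m hm) 2
    refine this.trans (le_of_eq ?_)
    rw [Finset.sum_const, Finset.card_range, nsmul_eq_mul]
    push_cast
    ring
  have h15 : 2 * g * s' ^ 2 * ∑ m ∈ Finset.range (n + 1), ‖r m‖ ^ 2 ≤
      2 * g * s' ^ 2 * ((n + 1) * ((K + 1) * ‖v‖) ^ 2) :=
    mul_le_mul_of_nonneg_left hsum (by positivity)
  have h16 : ((n : ℝ) + 1) * s' ≤ 2 * g := by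
    have : s' ≤ g := by linarith
    linarith
  have h17 : 2 * g * s' ^ 2 * ((n + 1) * ((K + 1) * ‖v‖) ^ 2) ≤
      (4 * g * s' * (K + 1) ^ 2) * (g * ‖v‖ ^ 2) := by
    have : 2 * g * s' ^ 2 * ((n + 1) * ((K + 1) * ‖v‖) ^ 2) =
        (((n : ℝ) + 1) * s') * (2 * g * s' * (K + 1) ^ 2 * ‖v‖ ^ 2) := by ring
    rw [this]
    refine (mul_le_mul_of_nonneg_right h16 (by positivity)).trans (le_of_eq ?_)
    ring
  have h18 : 4 * g * s' * (K + 1) ^ 2 < 1 / 2 := by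
    have h19 : 8 * g * s' * (K + 1) ^ 2 ≤ 8 * lam * s' * (K + 1) ^ 2 := by gcongr
    have h20 := lt_of_le_of_lt h19 hsm3
    linarith
  have h21 : 0 < g * ‖v‖ ^ 2 := by positivity
  have h22 : (4 * g * s' * (K + 1) ^ 2) * (g * ‖v‖ ^ 2) < 1 / 2 * (g * ‖v‖ ^ 2) :=
    mul_lt_mul_of_pos_right h18 h21
  linarith

end

end Pool.Agent.Q235.CP
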