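import Mathlib
import Pool.Agent.Q235.CP.Win
import Pool.Agent.Q235.CP.Trial

set_option autoImplicit false

/-! the operator, its eigenvalues and their multiplicities -/

namespace Pool.Agent.Q235.CP

open MeasureTheory Filter Topology Complex
open scoped InnerProductSpace ENNReal
open KRS (EE HH mulOp mulOp_ae mulOp_norm mulOp_inner)

noncomputable section

/-- finite potential energy -/
def FinPot {d : ℕ} (V : EE d → ℂ) (u : HH d) : Prop :=
  Integrable (fun x => ‖V x‖ * ‖u x‖ ^ 2) volume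

/-- `H u = f` -/
def IsHu {d : ℕ} (h : ℝ) (V : EE d → ℂ) (u f : HH d) : Prop :=
  ∃ D : Fin d → HH d, IsGrad u D ∧ FinPot V u ∧
    ∀ (φ : HH d) (E : Fin d → HH d), IsGrad φ E → FinPot V φ →
      ((h ^ 2 : ℝ) : ℂ) * ∑ i, (∫ x, D i x * (starRingEnd ℂ) (E i x)) +
        ∫ x, V x * u x * (starRingEnd ℂ) (φ x) = ∫ x, f x * (starRingEnd ℂ) (φ x)

/-- generalised eigenvectors -/
def IsGen {d : ℕ} (h : ℝ) (V : EE d → ℂ) (E : ℂ) (u : HH d) : Prop :=
  ∃ (n : ℕ) (c : ℕ → HH d), c 0 = u ∧ c n = 0 ∧ ∀ i < n, IsHu h V (c i) (c (i + 1) + E • c i)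

/-- the generalised eigenspace -/
def genSpace {d : ℕ} (h : ℝ) (V : EE d → ℂ) (E : ℂ) : Submodule ℂ (HH d) :=
  Submodule.span ℂ {u | IsGen h V E u}

/-- the algebraic multiplicity -/
def algMult {d : ℕ} (h : ℝ) (V : EE d → ℂ) (E : ℂ) : ℕ∞ :=
  Cardinal.toENat (Module.rank ℂ (genSpace h V E))

/-- distance to the half-line -/
def delta (E : ℂ) : ℝ := Metric.infDist E {z : ℂ | 0 ≤ z.re ∧ z.im = 0}

/-- the eigenvalue sum -/
def eigSum {d : ℕ} (h : ℝ) (V : EE d → ℂ) (γ σ : ℝ) : ℝ≥0∞ :=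
  ∑' E : ℂ, (algMult h V E : ℝ≥0∞) * ENNReal.ofReal (‖E‖ ^ (-σ) * delta E ^ (γ + σ))

variable {d : ℕ}

/-- the potential -/
def VV (d : ℕ) (α : ℝ) (x : EE d) : ℂ := (Wf d α x : ℂ) + I * chi x

theorem VV_le (α : ℝ) (x : EE d) : ‖VV d α x‖ ≤ Wf d α x + 1 := by
  unfold VV
  refine (norm_add_le _ _).trans (add_le_add ?_ ?_)
  · rw [Complex.norm_real, Real.norm_eq_abs, abs_of_nonneg (Wf_nonneg α x)]
  · rw [norm_mul, Complex.norm_I, one_mul]; exact chi_le x

theorem VV_ge (α : ℝ) (x : EE d) : Wf d α x ≤ ‖VV d α x‖ := by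
  have h1 : (VV d α x).re = Wf d α x := by
    unfold VV
    by_cases hx : ‖x‖ < 1
    · rw [chi_in x hx]; simp
    · rw [chi_out x hx]; simp
  rw [← h1]
  exact Complex.re_le_norm _

theorem VV_meas (α : ℝ) : Measurable (VV d α) := by
  unfold VV
  exact (Complex.measurable_ofReal.comp (Wf_meas α)).add (measurable_const.mul chi_meas)

theorem finPot_iff (α : ℝ) (u : HH d) : FinPot (VV d α) u ↔ Fin2 (Wf d α) u := by
  unfold FinPot Fin2
  constructor
  · intro h
    apply h.mono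
    · exact (Wf_meas α).aestronglyMeasurable.mul ((Lp.aestronglyMeasurable u).norm.pow 2)
    · filter_upwards with x
      rw [Real.norm_eq_abs, Real.norm_eq_abs, abs_of_nonneg (mul_nonneg (Wf_nonneg α x) (sq_nonneg _)),
        abs_of_nonneg (mul_nonneg (norm_nonneg _) (sq_nonneg _))]
      exact mul_le_mul_of_nonneg_right (VV_ge α x) (sq_nonneg _)
  · intro h
    apply (h.add (nsq_int u)).mono
    · exact (VV_meas α).norm.aestronglyMeasurable.mul ((Lp.aestronglyMeasurable u).norm.pow 2)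
    · filter_upwards with x
      rw [Real.norm_eq_abs, Real.norm_eq_abs,
        abs_of_nonneg (mul_nonneg (norm_nonneg _) (sq_nonneg _)), Pi.add_apply,
        abs_of_nonneg (add_nonneg (mul_nonneg (Wf_nonneg α x) (sq_nonneg _)) (sq_nonneg _))]
      have := mul_le_mul_of_nonneg_right (VV_le α x) (sq_nonneg ‖(u : EE d → ℂ) x‖)
      linarith

theorem int_inner (f φ : HH d) : ∫ x, f x * (starRingEnd ℂ) (φ x) = ⟪φ, f⟫_ℂ := by
  rw [L2.inner_def]
  apply integral_congr_ae
  filter_upwards with x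
  rw [RCLike.inner_apply]

theorem isHu_iff (h α : ℝ) (u F : HH d) :
    IsHu h (VV d α) u F ↔ FE h (Wf d α) u (F - I • XX d u) := by
  have key : ∀ φ : HH d, Fin2 (Wf d α) u → Fin2 (Wf d α) φ →
      ∫ x, VV d α x * u x * (starRingEnd ℂ) (φ x) =
        (∫ x, (Wf d α x : ℂ) * u x * (starRingEnd ℂ) (φ x)) + I * ⟪φ, XX d u⟫_ℂ := by
    intro φ hu hφ
    have hi : Integrable (fun x => I * ((XX d u : HH d) x * (starRingEnd ℂ) (φ x))) volume :=
      (mulInt (Lp.memLp (XX d u)) (Lp.memLp φ).star).const_mul I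
    rw [← int_inner, ← integral_const_mul,
      ← integral_add (fin2_mul (Wf_meas α) (Wf_nonneg α) hu hφ) hi]
    apply integral_congr_ae
    filter_upwards [mulOp_ae chi chi_meas 1 chi_le u] with x hx
    show VV d α x * u x * (starRingEnd ℂ) (φ x) = (Wf d α x : ℂ) * u x * (starRingEnd ℂ) (φ x) +
      I * ((mulOp chi u : EE d → ℂ) x * (starRingEnd ℂ) (φ x))
    rw [hx]
    unfold VV
    ring
  constructor
  · rintro ⟨D, h1, h2, h3⟩
    have h2' := (finPot_iff α u).1 h2
    refine ⟨D, h1, h2', ?_⟩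
    intro φ E hE hφ
    have h4 := h3 φ E hE ((finPot_iff α φ).2 hφ)
    simp only [int_inner] at h4
    rw [key φ h2' hφ] at h4
    rw [inner_sub_right, inner_smul_right, ← h4]
    ring
  · rintro ⟨D, h1, h2, h3⟩
    refine ⟨D, h1, (finPot_iff α u).2 h2, ?_⟩
    intro φ E hE hφ
    have hφ' := (finPot_iff α φ).1 hφ
    have h4 := h3 φ E hE hφ'
    simp only [int_inner]
    rw [key φ h2 hφ']
    rw [inner_sub_right, inner_smul_right] at h4
    linear_combination h4

/-- chains from kernels of powers -/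
theorem chain_of_ker {G : HH d →L[ℂ] HH d} {E : ℂ} (n : ℕ) :
    ∀ x : HH d, (TT G E ^ n) x = 0 → ∃ c : ℕ → HH d, c 0 = x ∧ c n = 0 ∧
      ∀ i < n, c i = G (c (i + 1) + E • c i + c i) := by
  induction n with
  | zero =>
    intro x hx
    exact ⟨fun _ => 0, by simpa using hx.symm, rfl, fun i hi => absurd hi (Nat.not_lt_zero i)⟩
  | succ n ih =>
    intro x hx
    set T := TT G E with hT
    let Sg : HH d →L[ℂ] HH d := ∑ k ∈ Finset.range (n + 1), T ^ k
    let y : HH d := (1 + E) • Sg (T x)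
    have hcomm : Commute Sg (T ^ n) := by
      apply Commute.sum_left
      intro k _
      exact (Commute.refl T).pow_pow k n
    have hy : (T ^ n) y = 0 := by
      show (T ^ n) ((1 + E) • Sg (T x)) = 0
      rw [map_smul]
      have e1 : (T ^ n) (Sg (T x)) = Sg ((T ^ n) (T x)) := by
        have := congrArg (fun A : HH d →L[ℂ] HH d => A (T x)) hcomm.eq
        exact this.symm
      have e2 : (T ^ n) (T x) = (T ^ (n + 1)) x := by rw [pow_succ]; rfl
      rw [e1, e2, hx, map_zero, smul_zero]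
    have hGy : G y = T x := by
      have e1 : G y = (1 - T) (Sg (T x)) := by
        have e2 : (1 - T : HH d →L[ℂ] HH d) = (1 + E) • G := by
          rw [hT]; unfold TT; abel
        rw [e2]
        show G ((1 + E) • Sg (T x)) = (1 + E) • G (Sg (T x))
        rw [map_smul]
      have e3 : (1 - T) * Sg = 1 - T ^ (n + 1) := mul_neg_geom_sum T (n + 1)
      have e4 : (1 - T) (Sg (T x)) = (1 - T ^ (n + 1)) (T x) := by
        rw [← e3]; rfl
      rw [e1, e4]
      show T x - (T ^ (n + 1)) (T x) = T x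
      have e5 : (T ^ (n + 1)) (T x) = T ((T ^ (n + 1)) x) := by
        have h1 : T ^ (n + 1) * T = T * T ^ (n + 1) := by rw [← pow_succ, ← pow_succ']
        have := congrArg (fun A : HH d →L[ℂ] HH d => A x) h1
        exact this
      rw [e5, hx, map_zero, sub_zero]
    obtain ⟨c, hc0, hcn, hc⟩ := ih y hy
    refine ⟨fun i => if i = 0 then x else c (i - 1), by simp, by simpa using hcn, ?_⟩
    intro i hi
    rcases Nat.eq_zero_or_pos i with rfl | hi0
    · simp only [if_true, zero_add, Nat.one_ne_zero, if_false, Nat.sub_self, hc0]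
      have h1 : T x = x - (1 + E) • G x := rfl
      rw [h1] at hGy
      have h2 : y + E • x + x = y + (1 + E) • x := by rw [add_smul, one_smul]; abel
      have h3 : G ((1 + E) • x) = (1 + E) • G x := map_smul _ _ _
      rw [h2, map_add, h3, hGy]
      abel
    · obtain ⟨k, rfl⟩ : ∃ k, i = k + 1 := ⟨i - 1, by omega⟩
      have := hc k (by omega)
      simpa using this

theorem gset_isGen {h α : ℝ} {G : HH d →L[ℂ] HH d}
    (hG : ∀ u F : HH d, u = G (F + u) ↔ FE h (Wf d α) u (F - I • XX d u)) {E : ℂ}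
    {n : ℕ} {x : HH d} (hx : (TT G E ^ n) x = 0) : IsGen h (VV d α) E x := by
  obtain ⟨c, h0, h1, h2⟩ := chain_of_ker n x hx
  refine ⟨n, c, h0, h1, fun i hi => ?_⟩
  rw [isHu_iff, ← hG]
  exact h2 i hi

theorem finrank_sup_le {H : Type*} [AddCommGroup H] [Module ℂ H] {ι : Type*} (T : Finset ι)
    (V : ι → Submodule ℂ H) (hV : ∀ i ∈ T, FiniteDimensional ℂ (V i)) :
    FiniteDimensional ℂ (T.sup V : Submodule ℂ H) ∧
      Module.finrank ℂ (T.sup V : Submodule ℂ H) ≤ ∑ i ∈ T, Module.finrank ℂ (V i) := by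
  classical
  induction T using Finset.induction_on with
  | empty =>
    rw [Finset.sup_empty, Finset.sum_empty]
    exact ⟨inferInstance, by simp⟩
  | insert i T hi ih =>
    obtain ⟨h1, h2⟩ := ih fun j hj => hV j (Finset.mem_insert_of_mem hj)
    have h3 := hV i (Finset.mem_insert_self i T)
    rw [Finset.sup_insert, Finset.sum_insert hi]
    refine ⟨inferInstance, ?_⟩
    exact (Submodule.finrank_add_le_finrank_add_finrank _ _).trans (by omega)

/-- lower bounds for the total multiplicity -/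
theorem mult_sum {H : Type*} [AddCommGroup H] [Module ℂ H] (V : ℂ → Submodule ℂ H) (U : Set ℂ)
    (W : Submodule ℂ H) (hW : W ≤ ⨆ E ∈ U, V E) (N : ℕ)
    (hN : FiniteDimensional ℂ W → N ≤ Module.finrank ℂ W) :
    (N : ℝ≥0∞) ≤ ∑' E : ℂ, U.indicator
      (fun E => ((Cardinal.toENat (Module.rank ℂ (V E)) : ℕ∞) : ℝ≥0∞)) E := by
  classical
  by_contra hcon
  push Not at hcon
  set m : ℂ → ℝ≥0∞ := U.indicator
      (fun E => ((Cardinal.toENat (Module.rank ℂ (V E)) : ℕ∞) : ℝ≥0∞)) with hm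
  have hfin : ∀ E ∈ U, FiniteDimensional ℂ (V E) := by
    intro E hE
    by_contra hinf
    have h1 : Cardinal.aleph0 ≤ Module.rank ℂ (V E) := by
      by_contra hlt
      push Not at hlt
      exact hinf (Module.rank_lt_aleph0_iff.1 hlt)
    have h2 : m E = ⊤ := by
      rw [hm, Set.indicator_of_mem hE, Cardinal.toENat_eq_top.2 h1]
      rfl
    have h3 : m E ≤ ∑' E, m E := ENNReal.le_tsum E
    rw [h2, top_le_iff] at h3
    rw [h3] at hcon
    exact absurd hcon not_top_lt
  have hmE : ∀ E ∈ U, m E = (Module.finrank ℂ (V E) : ℝ≥0∞) := by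
    intro E hE
    have := hfin E hE
    rw [hm, Set.indicator_of_mem hE, ← Module.finrank_eq_rank, Cardinal.toENat_nat]
    rfl
  -- the set of eigenvalues in U is finite
  set Z : Set ℂ := {E | E ∈ U ∧ V E ≠ ⊥} with hZ
  have hZfin : Z.Finite := by
    by_contra hinf
    obtain ⟨T, hT1, hT2⟩ := (show Z.Infinite from hinf).exists_subset_card_eq N
    have h1 : (N : ℝ≥0∞) ≤ ∑ E ∈ T, m E := by
      have h2 : ∀ E ∈ T, (1 : ℝ≥0∞) ≤ m E := by
        intro E hE
        obtain ⟨hE1, hE2⟩ := hT1 hE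
        rw [hmE E hE1]
        have h3 : 1 ≤ Module.finrank ℂ (V E) := by
          have := hfin E hE1
          rw [Nat.one_le_iff_ne_zero]
          intro h0
          exact hE2 (Submodule.finrank_eq_zero.1 h0)
        exact_mod_cast h3
      calc (N : ℝ≥0∞) = ∑ E ∈ T, (1 : ℝ≥0∞) := by
            rw [Finset.sum_const, hT2, nsmul_eq_mul, mul_one]
        _ ≤ _ := Finset.sum_le_sum h2
    exact absurd (h1.trans (ENNReal.sum_le_tsum T)) (not_le.2 hcon)
  set T : Finset ℂ := hZfin.toFinset with hT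
  have hTU : ∀ E ∈ T, E ∈ U := fun E hE => ((hZfin.mem_toFinset).1 hE).1
  have hsup : (⨆ E ∈ U, V E) ≤ T.sup V := by
    apply iSup₂_le
    intro E hE
    by_cases h0 : V E = ⊥
    · rw [h0]; exact bot_le
    · exact Finset.le_sup ((hZfin.mem_toFinset).2 ⟨hE, h0⟩)
  obtain ⟨h1, h2⟩ := finrank_sup_le T V fun E hE => hfin E (hTU E hE)
  have hWT : W ≤ T.sup V := hW.trans hsup
  have hWf : FiniteDimensional ℂ W := Submodule.finiteDimensional_of_le hWT
  have h3 := hN hWf
  have h4 : Module.finrank ℂ W ≤ Module.finrank ℂ (T.sup V : Submodule ℂ H) :=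
    Submodule.finrank_mono hWT
  have h5 : (N : ℝ≥0∞) ≤ ∑ E ∈ T, m E := by
    calc (N : ℝ≥0∞) ≤ ((∑ E ∈ T, Module.finrank ℂ (V E) : ℕ) : ℝ≥0∞) := by
          exact_mod_cast (h3.trans h4).trans h2
      _ = ∑ E ∈ T, m E := by
          push_cast
          exact Finset.sum_congr rfl fun E hE => (hmE E (hTU E hE)).symm
  exact absurd (h5.trans (ENNReal.sum_le_tsum T)) (not_le.2 hcon)

end

end Pool.Agent.Q235.CP
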