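import Mathlib
import Pool.Agent.Q235.CP.Gap

set_option autoImplicit false

/-! numerical conditions -/

namespace Pool.Agent.Q235.CP

open Filter Topology
open KRS (cubes)

noncomputable section

theorem nums {A s κ lam ε : ℝ} (hA : 1 ≤ A) (hs0 : 0 < s) (hs : 1 / s ≤ A) (hκ0 : 0 ≤ κ)
    (hκ : κ ≤ A) (hl : lam ≤ A) (hε0 : 0 ≤ ε) (hε : 2000 * A ^ 8 * ε ≤ 1) :
    κ * ε ≤ s / 2 ∧ 1 / (400 * A ^ 5) ≤ 1 / 4 ∧
      κ * ε * (2 / s * (1 + κ) + 1) ≤ 1 / (400 * A ^ 5) ∧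
      8 * lam * (1 / (400 * A ^ 5)) * (2 / s * (1 + κ) + 1) ^ 2 < 1 := by
  have hA0 : 0 < A := by linarith
  have hAs : 1 / A ≤ s := by
    rw [div_le_iff₀ hs0] at hs
    rw [div_le_iff₀ hA0]
    linarith
  have hA2 : A ≤ A ^ 2 := by nlinarith
  have hA5 : 1 ≤ A ^ 5 := one_le_pow₀ hA
  have hA7 : 1 ≤ A ^ 7 := one_le_pow₀ hA
  have hA8 : 0 < A ^ 8 := by positivity
  have hε' : ε ≤ 1 / (2000 * A ^ 8) := by
    rw [le_div_iff₀ (by positivity)]
    linarith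
  have hK : 2 / s * (1 + κ) + 1 ≤ 5 * A ^ 2 := by
    have h1 : 2 / s ≤ 2 * A := by
      have : 2 / s = 2 * (1 / s) := by ring
      rw [this]; linarith
    have h2 : 2 / s * (1 + κ) ≤ 2 * A * (1 + A) :=
      mul_le_mul h1 (by linarith) (by linarith) (by positivity)
    nlinarith
  have hK0 : 0 ≤ 2 / s * (1 + κ) + 1 := by positivity
  refine ⟨?_, ?_, ?_, ?_⟩
  · calc κ * ε ≤ A * (1 / (2000 * A ^ 8)) := mul_le_mul hκ hε' hε0 hA0.le
      _ = (1 / A) * (1 / (2000 * A ^ 6)) := by field_simp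
      _ ≤ (1 / A) * (1 / 2) := by
          apply mul_le_mul_of_nonneg_left _ (by positivity)
          apply one_div_le_one_div_of_le (by norm_num)
          have : 1 ≤ A ^ 6 := one_le_pow₀ hA
          linarith
      _ ≤ s / 2 := by linarith
  · apply one_div_le_one_div_of_le (by norm_num)
    linarith
  · calc κ * ε * (2 / s * (1 + κ) + 1) ≤ (A * (1 / (2000 * A ^ 8))) * (5 * A ^ 2) :=
          mul_le_mul (mul_le_mul hκ hε' hε0 hA0.le) hK hK0 (by positivity)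
      _ = 1 / (400 * A ^ 5) := by field_simp; ring
  · have h1 : (2 / s * (1 + κ) + 1) ^ 2 ≤ (5 * A ^ 2) ^ 2 := pow_le_pow_left₀ hK0 hK 2
    calc 8 * lam * (1 / (400 * A ^ 5)) * (2 / s * (1 + κ) + 1) ^ 2
        ≤ 8 * A * (1 / (400 * A ^ 5)) * (5 * A ^ 2) ^ 2 := by
          apply mul_le_mul _ h1 (by positivity) (by positivity)
          apply mul_le_mul_of_nonneg_right _ (by positivity)
          linarith
      _ = 1 / 2 := by field_simp; norm_num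
      _ < 1 := by norm_num

theorem card_cubes (d : ℕ) {η : ℝ} (hη : 0 < η) (hη1 : η ≤ 1) :
    ((cubes d ⌈1 / η⌉).card : ℝ) ≤ (5 / η) ^ d := by
  have h1 : 1 ≤ 1 / η := by rw [le_div_iff₀ hη]; linarith
  set M : ℤ := ⌈1 / η⌉ with hM
  have hM1 : 1 / η ≤ M := Int.le_ceil _
  have hM2 : (M : ℝ) < 1 / η + 1 := Int.ceil_lt_add_one _
  have hM0 : 0 ≤ M := by
    have : (0 : ℝ) ≤ M := by linarith
    exact_mod_cast this
  unfold cubes
  rw [Fintype.card_piFinset, Finset.prod_const, Finset.card_univ, Fintype.card_fin,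
    Int.card_Icc]
  push_cast
  have e1 : (((M + 1 - -M).toNat : ℕ) : ℝ) = 2 * M + 1 := by
    have : (((M + 1 - -M).toNat : ℕ) : ℤ) = 2 * M + 1 := by
      rw [Int.toNat_of_nonneg (by omega)]
      ring
    exact_mod_cast this
  rw [e1]
  apply pow_le_pow_left₀ (by positivity)
  have : 5 / η = 5 * (1 / η) := by ring
  rw [this]
  linarith

/-- exponentials beat powers -/
theorem exp_small (C : ℝ) (N : ℕ) : ∃ X : ℝ, ∀ x, X ≤ x →
    2000 * (C * x ^ N) ^ 8 * Real.exp (-x) ≤ 1 := by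
  have h1 := Real.tendsto_pow_mul_exp_neg_atTop_nhds_zero (8 * N)
  have h2 : Tendsto (fun x : ℝ => 2000 * C ^ 8 * (x ^ (8 * N) * Real.exp (-x))) atTop (𝓝 0) := by
    have := h1.const_mul (2000 * C ^ 8)
    simpa using this
  have h3 := (h2.eventually (gt_mem_nhds (show (0 : ℝ) < 1 by norm_num)))
  obtain ⟨X, hX⟩ := eventually_atTop.1 h3
  refine ⟨X, fun x hx => ?_⟩
  have h4 := (hX x hx).le
  refine le_trans (le_of_eq ?_) h4
  rw [mul_pow, ← pow_mul]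
  ring

/-- the cell size -/
def eta (d : ℕ) (δ : ℝ) : ℝ := δ ^ 3 / (2 ^ (d + 3) * (d + 1))

theorem eta_pos (d : ℕ) {δ : ℝ} (hδ : 0 < δ) : 0 < eta d δ := by unfold eta; positivity

theorem two_pow_ge (d : ℕ) : (1 : ℝ) ≤ 2 ^ (d + 3) * (d + 1) := by
  have h1 : (1 : ℝ) ≤ 2 ^ (d + 3) := one_le_pow₀ (by norm_num)
  have h2 : (1 : ℝ) ≤ d + 1 := by
    have : (0 : ℝ) ≤ d := Nat.cast_nonneg _
    linarith
  nlinarith

theorem eta_le (d : ℕ) {δ : ℝ} (hδ : 0 < δ) (hδ1 : δ ≤ 1) : eta d δ ≤ 1 := by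
  unfold eta
  rw [div_le_one (by positivity)]
  exact (pow_le_one₀ hδ.le hδ1).trans (two_pow_ge d)

theorem eta_small (d : ℕ) {δ lam : ℝ} (hδ : 0 < δ) (hδ1 : δ ≤ 1)
    (hl : lam ≤ 1 / δ) : 2 ^ d * d * (eta d δ / δ ^ 2) * Real.sqrt (2 * lam) ≤ 1 / 4 := by
  have h1 : Real.sqrt (2 * lam) ≤ 2 / δ := by
    apply Real.sqrt_le_iff.2
    refine ⟨by positivity, ?_⟩
    have h2 : lam * δ ≤ 1 := by rwa [le_div_iff₀ hδ] at hl
    rw [div_pow, le_div_iff₀ (by positivity)]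
    nlinarith
  have h3 : eta d δ / δ ^ 2 = δ / (2 ^ (d + 3) * (d + 1)) := by
    unfold eta
    field_simp
  have hd0 : (0 : ℝ) ≤ d := Nat.cast_nonneg _
  rw [h3]
  calc 2 ^ d * d * (δ / (2 ^ (d + 3) * (d + 1))) * Real.sqrt (2 * lam)
      ≤ 2 ^ d * d * (δ / (2 ^ (d + 3) * (d + 1))) * (2 / δ) :=
        mul_le_mul_of_nonneg_left h1 (by positivity)
    _ = (d / (d + 1)) * (1 / 4) := by
        rw [pow_add]
        field_simp
        norm_num
    _ ≤ 1 * (1 / 4) := by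
        apply mul_le_mul_of_nonneg_right _ (by norm_num)
        rw [div_le_one (by positivity)]
        linarith
    _ = _ := one_mul _

/-- polynomial bound for the inverse gap -/
theorem gap_bound (d : ℕ) {δ : ℝ} (hδ : 0 < δ) (hδ1 : δ ≤ 1) :
    64 * (((cubes d ⌈1 / eta d δ⌉).card + 1 : ℕ) : ℝ) ^ 2 ≤
      256 * (5 * (2 ^ (d + 3) * (d + 1))) ^ (2 * d) * (1 / δ) ^ (6 * d) := by
  have h1 := card_cubes d (eta_pos d hδ) (eta_le d hδ hδ1)
  have h2 : 5 / eta d δ = 5 * (2 ^ (d + 3) * (d + 1)) * (1 / δ) ^ 3 := by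
    unfold eta
    field_simp
  rw [h2] at h1
  have h3 : (1 : ℝ) ≤ (5 * (2 ^ (d + 3) * (d + 1)) * (1 / δ) ^ 3) ^ d := by
    apply one_le_pow₀
    have h4 := two_pow_ge d
    have h5 : (1 : ℝ) ≤ 1 / δ := by rw [le_div_iff₀ hδ]; linarith
    have h6 : (1 : ℝ) ≤ (1 / δ) ^ 3 := one_le_pow₀ h5
    nlinarith
  have h4 : (((cubes d ⌈1 / eta d δ⌉).card + 1 : ℕ) : ℝ) ≤
      2 * (5 * (2 ^ (d + 3) * (d + 1)) * (1 / δ) ^ 3) ^ d := by
    push_cast
    linarith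
  calc 64 * (((cubes d ⌈1 / eta d δ⌉).card + 1 : ℕ) : ℝ) ^ 2
      ≤ 64 * (2 * (5 * (2 ^ (d + 3) * (d + 1)) * (1 / δ) ^ 3) ^ d) ^ 2 := by gcongr
    _ = _ := by
        rw [mul_pow 2, mul_pow (5 * (2 ^ (d + 3) * ((d : ℝ) + 1))), mul_pow, ← pow_mul, ← pow_mul,
          ← pow_mul]
        rw [show d * 2 = 2 * d by ring, show 3 * (2 * d) = 6 * d by ring]
        ring

/-- the condition on the wall -/
theorem wall (α L : ℝ) (hα : 0 < α) (hα4 : α ≤ 4) : ∃ X : ℝ, ∀ x, X ≤ x →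
    ∀ lam : ℝ, 1 ≤ lam → lam ≤ x ^ (α / 4) →
      1 + lam + (lam + 1) / 2 + 4 * L ^ 2 * (1 + (2 * (lam + 1)) ^ 2) ≤ (2 * (1 / x)) ^ (-α) ∧
      lam ≤ x := by
  have h1 : Tendsto (fun x : ℝ => x ^ (α / 2)) atTop atTop := tendsto_rpow_atTop (by positivity)
  obtain ⟨X, hX⟩ := eventually_atTop.1
    (h1.eventually (eventually_ge_atTop ((3 + 68 * L ^ 2) * 2 ^ α)))
  refine ⟨max X 1, fun x hx lam hl1 hl => ?_⟩
  have hx1 : 1 ≤ x := (le_max_right _ _).trans hx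
  have hx0 : 0 < x := by linarith
  have h2 := hX x ((le_max_left _ _).trans hx)
  constructor
  · have h3 : 1 + lam + (lam + 1) / 2 + 4 * L ^ 2 * (1 + (2 * (lam + 1)) ^ 2) ≤
        (3 + 68 * L ^ 2) * lam ^ 2 := by
      have h4 : 1 + lam + (lam + 1) / 2 ≤ 3 * lam ^ 2 := by nlinarith
      have h5 : 1 + (2 * (lam + 1)) ^ 2 ≤ 17 * lam ^ 2 := by nlinarith
      have h6 : 4 * L ^ 2 * (1 + (2 * (lam + 1)) ^ 2) ≤ 4 * L ^ 2 * (17 * lam ^ 2) :=
        mul_le_mul_of_nonneg_left h5 (by positivity)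
      linarith
    have h7 : lam ^ 2 ≤ x ^ (α / 2) := by
      calc lam ^ 2 ≤ (x ^ (α / 4)) ^ 2 := pow_le_pow_left₀ (by linarith) hl 2
        _ = x ^ (α / 2) := by
          rw [← Real.rpow_natCast, ← Real.rpow_mul hx0.le]
          congr 1
          push_cast
          ring
    have h8 : (2 * (1 / x)) ^ (-α) = x ^ α / 2 ^ α := by
      rw [show 2 * (1 / x) = (x / 2)⁻¹ by field_simp, Real.inv_rpow (by positivity),
        Real.rpow_neg (by positivity), inv_inv, Real.div_rpow hx0.le (by norm_num)]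
    rw [h8, le_div_iff₀ (by positivity)]
    have h9 : x ^ α = x ^ (α / 2) * x ^ (α / 2) := by
      rw [← Real.rpow_add hx0]
      congr 1
      ring
    rw [h9]
    calc (1 + lam + (lam + 1) / 2 + 4 * L ^ 2 * (1 + (2 * (lam + 1)) ^ 2)) * 2 ^ α
        ≤ ((3 + 68 * L ^ 2) * lam ^ 2) * 2 ^ α :=
          mul_le_mul_of_nonneg_right h3 (by positivity)
      _ = ((3 + 68 * L ^ 2) * 2 ^ α) * lam ^ 2 := by ring
      _ ≤ x ^ (α / 2) * x ^ (α / 2) := mul_le_mul h2 h7 (by positivity) (by positivity)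
  · refine hl.trans ?_
    calc x ^ (α / 4) ≤ x ^ (1 : ℝ) := Real.rpow_le_rpow_of_exponent_le hx1 (by linarith)
      _ = x := Real.rpow_one x

end

end Pool.Agent.Q235.CP
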