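import Mathlib
import Pool.Agent.Q235.CP.Mult
import Pool.Agent.Q235.CP.Num
import Pool.Agent.Q235.CP.LpV

set_option autoImplicit false

/-! the main theorem -/

namespace Pool.Agent.Q235.CP

open MeasureTheory Filter Topology Complex
open scoped InnerProductSpace ENNReal
open KRS (EE HH cubes)

noncomputable section

/-- the box -/
def Bx (g : ℝ) : Set ℂ := {z : ℂ | -1 ≤ z.re ∧ z.re ≤ g ∧ 3 / 4 ≤ z.im ∧ z.im ≤ 5 / 4}

theorem one_window (d : ℕ) (hd : 1 ≤ d) (α : ℝ) (hα : 0 < α) (hα4 : α ≤ 4) :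
    ∃ X cm : ℝ, 4 ≤ X ∧ 0 < cm ∧ ∀ x, X ≤ x → ∀ j : ℕ, (4 : ℝ) ^ j ≤ x ^ (α / 4) →
      ∃ g : ℝ, g ≤ 4 ^ j ∧ ∃ N : ℕ, (2 ^ j / (cm * (1 / x) ^ 2)) ^ d ≤ (N : ℝ) ∧
        (N : ℝ≥0∞) ≤ ∑' E : ℂ, (Bx g).indicator
          (fun E => (algMult ((1 / x) ^ 2) (VV d α) E : ℝ≥0∞)) E := by
  obtain ⟨L, hL0, hL⟩ := S_bound
  obtain ⟨X1, hX1⟩ := wall α L hα hα4
  set CA : ℝ := 256 * (5 * (2 ^ (d + 3) * (d + 1))) ^ (2 * d) + 45 with hCA
  obtain ⟨X2, hX2⟩ := exp_small CA (6 * d + 2)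
  set C0' : ℝ := C0 d + 1 with hC0'
  have hC0'1 : 1 ≤ C0' := by
    have := C0_nonneg (d := d)
    rw [hC0']; linarith
  have hd0 : (0 : ℝ) < d := by exact_mod_cast hd
  have hd1 : (1 : ℝ) ≤ d := by exact_mod_cast hd
  set cm : ℝ := 8 * d * Real.sqrt C0' with hcm
  have hsq : 1 ≤ Real.sqrt C0' := by rwa [Real.one_le_sqrt]
  have hcm1 : 1 ≤ cm := by rw [hcm]; nlinarith
  refine ⟨max (max X1 X2) (max 4 cm), cm, (le_max_left _ _).trans (le_max_right _ _),
    by linarith, ?_⟩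
  intro x hx j hj
  have hx1 : X1 ≤ x := ((le_max_left _ _).trans (le_max_left _ _)).trans hx
  have hx2 : X2 ≤ x := ((le_max_right _ _).trans (le_max_left _ _)).trans hx
  have hx4 : 4 ≤ x := ((le_max_left _ _).trans (le_max_right _ _)).trans hx
  have hxc : cm ≤ x := ((le_max_right _ _).trans (le_max_right _ _)).trans hx
  have hx0 : 0 < x := by linarith
  set δ : ℝ := 1 / x with hδd
  have hδ : 0 < δ := by positivity
  have hδ4 : δ ≤ 1 / 4 := one_div_le_one_div_of_le (by norm_num) hx4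
  have hδ1 : δ ≤ 1 := by linarith
  have hxδ : 1 / δ = x := by rw [hδd, one_div_one_div]
  set lam : ℝ := 4 ^ j with hlamd
  have hlam : 1 ≤ lam := one_le_pow₀ (by norm_num)
  obtain ⟨hc, hlx⟩ := hX1 x hx1 lam hlam hj
  have hh : (0 : ℝ) < δ ^ 2 := by positivity
  -- the gap
  set n : ℕ := (cubes d ⌈1 / eta d δ⌉).card + 1 with hn
  have hn1 : 1 ≤ n := by omega
  have hn0 : (0 : ℝ) < n := by exact_mod_cast hn1
  have hn1' : (1 : ℝ) ≤ n := by exact_mod_cast hn1
  set s : ℝ := 1 / (64 * n ^ 2) with hs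
  have hs0 : 0 < s := by positivity
  have hs4 : s ≤ 1 / 4 := by
    rw [hs]
    apply one_div_le_one_div_of_le (by norm_num)
    nlinarith
  have hW1m := W1_meas (d := d) α (8 * lam)
  have hW10 := W1_nonneg (d := d) α (M := 8 * lam) (by linarith)
  obtain ⟨g, hg1, hg2, hgap⟩ := gap hh hW1m hW10 lam (eta d δ) hlam (eta_pos d hδ)
    (by
      intro y
      unfold W1
      have := Wf_nonneg α y
      linarith) (eta_small d hδ hδ1 (by rw [hxδ]; exact hlx)) n hn1 (by omega) s hs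
  -- the numbers
  set A : ℝ := CA * x ^ (6 * d + 2) with hA
  have hx1' : 1 ≤ x := by linarith
  have hpow2 : x ^ 2 ≤ x ^ (6 * d + 2) := pow_le_pow_right₀ hx1' (by omega)
  have hpow6 : x ^ (6 * d) ≤ x ^ (6 * d + 2) := pow_le_pow_right₀ hx1' (by omega)
  have hCA0 : 0 ≤ 256 * (5 * (2 ^ (d + 3) * ((d : ℝ) + 1))) ^ (2 * d) := by positivity
  have hxx : x ≤ x ^ 2 := by nlinarith
  have hpow0 : 1 ≤ x ^ (6 * d + 2) := one_le_pow₀ hx1'
  have hA45 : 45 * x ^ 2 ≤ A := by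
    rw [hA, hCA]
    nlinarith
  have hA1 : 1 ≤ A := by nlinarith
  have hsA : 1 / s ≤ A := by
    rw [hs, one_div_one_div]
    refine (gap_bound d hδ hδ1).trans ?_
    rw [hxδ, hA, hCA]
    nlinarith
  have hκA : (8 * lam + 1) * (2 * lam + 3) ≤ A := by
    refine le_trans ?_ hA45
    have h1 : 8 * lam + 1 ≤ 9 * x := by linarith
    have h2 : 2 * lam + 3 ≤ 5 * x := by linarith
    calc (8 * lam + 1) * (2 * lam + 3) ≤ (9 * x) * (5 * x) :=
          mul_le_mul h1 h2 (by linarith) (by linarith)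
      _ = _ := by ring
  have hlA : lam ≤ A := hlx.trans (hxx.trans (by nlinarith))
  obtain ⟨q1, q2, q3, q4⟩ := nums (ε := Real.exp (-(1 / δ))) hA1 hs0 hsA (by positivity) hκA hlA
    (Real.exp_pos _).le (by rw [hxδ]; exact hX2 x hx2)
  have hA0 : 0 < A := by linarith
  -- the trial space
  set ℓ : ℝ := 2 * Real.sqrt C0' * δ ^ 2 / 2 ^ j with hℓ
  have hℓ0 : 0 < ℓ := by positivity
  set m : ℕ := ⌊1 / (2 * d * ℓ)⌋₊ with hm
  have hm1 : (m : ℝ) ≤ 1 / (2 * d * ℓ) := Nat.floor_le (by positivity)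
  have hm2 : 1 / (2 * d * ℓ) < m + 1 := Nat.lt_floor_add_one _
  have hm3 : d * ℓ * m ≤ 1 / 2 := by
    rw [le_div_iff₀ (by positivity)] at hm1
    linarith
  have h2j : (1 : ℝ) ≤ 2 ^ j := one_le_pow₀ (by norm_num)
  have hm4 : 2 ^ j / (cm * δ ^ 2) ≤ m := by
    have e1 : 1 / (2 * d * ℓ) = 2 * (2 ^ j / (cm * δ ^ 2)) := by
      rw [hℓ, hcm]
      field_simp
      norm_num
    have e2 : 1 ≤ 2 ^ j / (cm * δ ^ 2) := by
      rw [le_div_iff₀ (by positivity), one_mul]
      refine le_trans ?_ h2j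
      have h5 : δ ^ 2 = 1 / x ^ 2 := by rw [hδd]; ring
      rw [h5, mul_one_div, div_le_one (by positivity)]
      linarith
    linarith
  obtain ⟨F, hFf, hFr, hF1, hF2⟩ := trial (d := d) hd (h := δ ^ 2) (α := α) (M := 8 * lam)
    hh (by linarith) hℓ0 m hm3
  obtain ⟨G, hGc, hG⟩ := exists_G hh (Wf_meas (d := d) α) (Wf_nonneg α)
  refine ⟨g, hg2, m ^ d, ?_, ?_⟩
  · push_cast
    exact pow_le_pow_left₀ (by positivity) hm4 d
  · have key := mult_sum (fun E => genSpace (δ ^ 2) (VV d α) E) (Bx g)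
      (Submodule.span ℂ (gset G (Bx g))) ?_ (m ^ d) ?_
    · exact key
    · rw [Submodule.span_le]
      rintro y ⟨E, hE, k, hk⟩
      have h1 : y ∈ genSpace (δ ^ 2) (VV d α) E := Submodule.subset_span (gset_isGen hG hk)
      exact Submodule.mem_iSup_of_mem E (Submodule.mem_iSup_of_mem hE h1)
    · intro hfd
      have h1 := window (d := d) hα hδ hδ4 hlam hL0 hL hc hg1 hg2 hs0 hs4 hgap q1
        (s' := 1 / (400 * A ^ 5)) (by positivity) q2 q3 q4 hGc hG (Bx g) rfl F hF1 (by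
          intro v hv
          obtain ⟨E, hE1, hE2⟩ := hF2 v hv
          refine ⟨E, hE1, hE2.trans ?_⟩
          apply mul_le_mul_of_nonneg_right _ (sq_nonneg _)
          have e3 : C0 d * (δ ^ 2) ^ 2 / ℓ ^ 2 = C0 d / C0' * (lam / 4) := by
            have h4 : lam = (2 ^ j) ^ 2 := by
              rw [hlamd, ← pow_mul, mul_comm, pow_mul]; norm_num
            have hl2 : ℓ ^ 2 = 4 * C0' * (δ ^ 2) ^ 2 / (2 ^ j) ^ 2 := by
              rw [hℓ, div_pow (2 * Real.sqrt C0' * δ ^ 2) (2 ^ j) 2,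
                mul_pow (2 * Real.sqrt C0') (δ ^ 2) 2, mul_pow 2 (Real.sqrt C0') 2,
                Real.sq_sqrt (by linarith)]
              norm_num
            have hC0'0 : C0' ≠ 0 := by
              have : 0 < C0' := by linarith
              exact this.ne'
            have h2j0 : (2 : ℝ) ^ j ≠ 0 := by positivity
            have hδ20 : δ ^ 2 ≠ 0 := hh.ne'
            rw [hl2, h4]
            generalize δ ^ 2 = t at hδ20 ⊢
            generalize (2 : ℝ) ^ j = u at h2j0 ⊢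
            field_simp
          rw [e3]
          have e4 : C0 d / C0' ≤ 1 := by
            rw [div_le_one (by linarith), hC0']
            linarith
          have e5 : 0 ≤ lam / 4 := by positivity
          nlinarith)
      rw [hFr] at h1
      exact h1

theorem delta_ge {E : ℂ} {g : ℝ} (hE : E ∈ Bx g) : 3 / 4 ≤ delta E := by
  unfold delta
  rw [Metric.le_infDist ⟨0, by simp⟩]
  intro z hz
  rw [Complex.dist_eq]
  refine le_trans ?_ (Complex.abs_im_le_norm _)
  rw [Complex.sub_im, hz.2, sub_zero]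
  exact hE.2.2.1.trans (le_abs_self _)

theorem delta_le (E : ℂ) : delta E ≤ ‖E‖ := by
  unfold delta
  have h := Metric.infDist_le_dist_of_mem (x := E) (show (0 : ℂ) ∈ {z : ℂ | 0 ≤ z.re ∧ z.im = 0} by
    simp)
  rwa [dist_zero_right] at h

/-- lower bound for the weight -/
theorem weight_ge (d : ℕ) {γ σ : ℝ} (hσ0 : 0 ≤ σ) (hσ : σ ≤ d / 2) (hγ : 0 < γ) {E : ℂ} {g : ℝ}
    {j : ℕ} (hg : g ≤ 4 ^ j) (hE : E ∈ Bx g) :
    (3 / 4) ^ γ * (3 / 16) ^ ((d : ℝ) / 2) * (1 / 2 ^ d) ^ j ≤ ‖E‖ ^ (-σ) * delta E ^ (γ + σ) := by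
  have h1 := delta_ge hE
  have h2 := delta_le E
  have hE0 : 0 < ‖E‖ := by linarith
  have hδ0 : 0 < delta E := by linarith
  have h4j : (1 : ℝ) ≤ 4 ^ j := one_le_pow₀ (by norm_num)
  have hEn : ‖E‖ ≤ 4 * 4 ^ j := by
    refine (Complex.norm_le_abs_re_add_abs_im E).trans ?_
    obtain ⟨a1, a2, a3, a4⟩ := hE
    have b1 : |E.re| ≤ 4 ^ j := abs_le.2 ⟨by linarith, a2.trans hg⟩
    have b2 : |E.im| ≤ 5 / 4 := abs_le.2 ⟨by linarith, a4⟩
    linarith
  have e1 : ‖E‖ ^ (-σ) * delta E ^ (γ + σ) = delta E ^ γ * (delta E / ‖E‖) ^ σ := by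
    rw [Real.rpow_add hδ0, Real.div_rpow hδ0.le hE0.le, Real.rpow_neg hE0.le]
    field_simp
  rw [e1, mul_assoc]
  have h3 : (3 / 4 : ℝ) ^ γ ≤ delta E ^ γ := Real.rpow_le_rpow (by norm_num) h1 hγ.le
  have h5 : delta E / ‖E‖ ≤ 1 := by rw [div_le_one hE0]; exact h2
  have h6 : (delta E / ‖E‖) ^ ((d : ℝ) / 2) ≤ (delta E / ‖E‖) ^ σ :=
    Real.rpow_le_rpow_of_exponent_ge (by positivity) h5 hσ
  have h7 : 3 / 16 * (1 / 4 ^ j) ≤ delta E / ‖E‖ := by
    rw [le_div_iff₀ hE0]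
    calc 3 / 16 * (1 / 4 ^ j) * ‖E‖ ≤ 3 / 16 * (1 / 4 ^ j) * (4 * 4 ^ j) := by gcongr
      _ = 3 / 4 := by field_simp; norm_num
      _ ≤ _ := h1
  have h8 : (3 / 16 * (1 / 4 ^ j) : ℝ) ^ ((d : ℝ) / 2) ≤ (delta E / ‖E‖) ^ ((d : ℝ) / 2) :=
    Real.rpow_le_rpow (by positivity) h7 (by positivity)
  have h9 : (3 / 16 * (1 / 4 ^ j) : ℝ) ^ ((d : ℝ) / 2) = (3 / 16) ^ ((d : ℝ) / 2) * (1 / 2 ^ d) ^ j := by
    rw [Real.mul_rpow (by norm_num) (by positivity)]
    congr 1
    have e2 : (1 / 4 ^ j : ℝ) = (1 / 2) ^ (2 * j) := by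
      rw [pow_mul, ← one_div_pow]
      norm_num
    rw [e2, ← Real.rpow_natCast, ← Real.rpow_mul (by norm_num)]
    rw [← one_div_pow, ← pow_mul, ← Real.rpow_natCast]
    congr 1
    push_cast
    ring
  rw [← h9]
  exact mul_le_mul h3 (h8.trans h6) (by positivity) (by positivity)

/-- the dyadic sum -/
theorem dyadic (r : ℝ) (hr0 : 0 ≤ r) (hr : r ≤ 1 / 2) (J : ℕ) (P : ℕ → Prop) [DecidablePred P]
    (w : ℝ) (hw0 : 0 ≤ w) (hw : ∀ j, P j → r ^ j ≤ w) :
    ∑ j ∈ Finset.range J, (if P j then r ^ j else 0) ≤ 2 * w := by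
  by_cases hne : ∃ j ∈ Finset.range J, P j
  · have hex : ∃ j, P j := ⟨hne.choose, hne.choose_spec.2⟩
    set j₀ := Nat.find hex with hj₀
    have hP := Nat.find_spec hex
    have h1 : ∑ j ∈ Finset.range J, (if P j then r ^ j else 0) ≤
        ∑ j ∈ Finset.range J, (if j₀ ≤ j then r ^ j else 0) := by
      apply Finset.sum_le_sum
      intro j _
      by_cases h : P j
      · rw [if_pos h, if_pos (Nat.find_min' hex h)]
      · rw [if_neg h]
        split_ifs
        · positivity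
        · exact le_rfl
    have h2 : ∑ j ∈ Finset.range J, (if j₀ ≤ j then r ^ j else 0) ≤
        ∑ k ∈ Finset.range J, r ^ (j₀ + k) := by
      rw [← Finset.sum_filter]
      have hinj : Set.InjOn (fun j => j - j₀) (Finset.filter (fun j => j₀ ≤ j) (Finset.range J)) := by
        intro a ha b hb hab
        simp only [Finset.coe_filter, Set.mem_ofPred_eq] at ha hb hab
        omega
      calc ∑ j ∈ Finset.filter (fun j => j₀ ≤ j) (Finset.range J), r ^ j
          = ∑ j ∈ Finset.filter (fun j => j₀ ≤ j) (Finset.range J), r ^ (j₀ + (j - j₀)) := by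
            apply Finset.sum_congr rfl
            intro j hj
            rw [Finset.mem_filter] at hj
            congr 1
            omega
        _ = ∑ k ∈ (Finset.filter (fun j => j₀ ≤ j) (Finset.range J)).image (fun j => j - j₀),
              r ^ (j₀ + k) := (Finset.sum_image (f := fun k => r ^ (j₀ + k)) hinj).symm
        _ ≤ _ := by
            apply Finset.sum_le_sum_of_subset_of_nonneg
            · intro k hk
              rw [Finset.mem_image] at hk
              obtain ⟨j, hj, rfl⟩ := hk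
              rw [Finset.mem_filter, Finset.mem_range] at hj
              rw [Finset.mem_range]
              omega
            · intro k _ _
              positivity
    have h3 : ∑ k ∈ Finset.range J, r ^ (j₀ + k) ≤ r ^ j₀ * 2 := by
      simp only [pow_add]
      rw [← Finset.mul_sum]
      apply mul_le_mul_of_nonneg_left _ (by positivity)
      have h4 : ∑ k ∈ Finset.range J, r ^ k ≤ ∑ k ∈ Finset.range J, (1 / 2 : ℝ) ^ k :=
        Finset.sum_le_sum fun k _ => pow_le_pow_left₀ hr0 hr k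
      refine h4.trans ?_
      rw [geom_sum_eq (by norm_num)]
      have : 0 ≤ (1 / 2 : ℝ) ^ J := by positivity
      rw [div_le_iff_of_neg (by norm_num)]
      linarith
    have h5 := hw j₀ hP
    linarith [h1.trans (h2.trans h3)]
  · push Not at hne
    rw [Finset.sum_eq_zero]
    · linarith
    · intro j hj
      rw [if_neg (hne j hj)]

/-- the lower bound for the eigenvalue sum -/
theorem lower (d : ℕ) (hd : 1 ≤ d) (α : ℝ) (hα : 0 < α) (hα4 : α ≤ 4) (γ : ℝ) (hγ : 0 < γ) :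
    ∃ c : ℝ, 0 < c ∧ ∃ h₀ : ℝ, 0 < h₀ ∧ ∀ σ : ℝ, 0 ≤ σ → σ ≤ d / 2 → ∀ h : ℝ, 0 < h → h < h₀ →
      ENNReal.ofReal (c * Real.log (1 / h) / h ^ d) ≤ eigSum h (VV d α) γ σ := by
  classical
  obtain ⟨X, cm, hX4, hcm, hwin⟩ := one_window d hd α hα hα4
  set c0 : ℝ := (3 / 4) ^ γ * (3 / 16) ^ ((d : ℝ) / 2) with hc0
  have hc00 : 0 < c0 := by positivity
  set r : ℝ := 1 / 2 ^ d with hr
  have hr0 : 0 < r := by positivity
  have hr2 : r ≤ 1 / 2 := by
    rw [hr]
    apply one_div_le_one_div_of_le (by norm_num)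
    calc (2 : ℝ) = 2 ^ 1 := by norm_num
      _ ≤ 2 ^ d := pow_le_pow_right₀ (by norm_num) hd
  have hlog4 : 0 < Real.log 4 := Real.log_pos (by norm_num)
  refine ⟨c0 / 2 / cm ^ d * (α / (8 * Real.log 4)), by positivity, (1 / X) ^ 2, by positivity, ?_⟩
  intro σ hσ0 hσ h hh hh0
  set x : ℝ := (Real.sqrt h)⁻¹ with hx
  have hsq : 0 < Real.sqrt h := Real.sqrt_pos.2 hh
  have hx0 : 0 < x := inv_pos.2 hsq
  have hxh : (1 / x) ^ 2 = h := by
    rw [hx, one_div, inv_inv, Real.sq_sqrt hh.le]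
  have hX0 : 0 < X := by linarith
  have hxX : X ≤ x := by
    have h1 : (1 / x) ^ 2 < (1 / X) ^ 2 := by rw [hxh]; exact hh0
    have h2 : 1 / x < 1 / X := lt_of_pow_lt_pow_left₀ 2 (by positivity) h1
    exact (lt_of_one_div_lt_one_div hx0 h2).le
  have hx1 : 1 ≤ x := by linarith
  set J : ℕ := ⌊α / 4 * Real.log x / Real.log 4⌋₊ + 1 with hJ
  have hlogx : 0 ≤ Real.log x := Real.log_nonneg hx1
  have hJ1 : α / 4 * Real.log x / Real.log 4 ≤ J := by
    rw [hJ]
    push_cast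
    exact (Nat.lt_floor_add_one _).le
  have hj4 : ∀ j ∈ Finset.range J, (4 : ℝ) ^ j ≤ x ^ (α / 4) := by
    intro j hj
    rw [Finset.mem_range] at hj
    have h1 : (j : ℝ) ≤ α / 4 * Real.log x / Real.log 4 := by
      have h2 : j ≤ ⌊α / 4 * Real.log x / Real.log 4⌋₊ := by omega
      exact (Nat.le_floor_iff (by positivity)).1 h2
    rw [le_div_iff₀ hlog4] at h1
    have h3 : Real.log ((4 : ℝ) ^ j) ≤ Real.log (x ^ (α / 4)) := by
      rw [Real.log_pow, Real.log_rpow hx0]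
      exact h1
    exact (Real.log_le_log_iff (by positivity) (by positivity)).1 h3
  have hall : ∀ j : ℕ, ∃ g : ℝ, j ∈ Finset.range J → (g ≤ 4 ^ j ∧ ∃ N : ℕ,
      (2 ^ j / (cm * h)) ^ d ≤ (N : ℝ) ∧ (N : ℝ≥0∞) ≤ ∑' E : ℂ, (Bx g).indicator
          (fun E => (algMult h (VV d α) E : ℝ≥0∞)) E) := by
    intro j
    by_cases hj : j ∈ Finset.range J
    · obtain ⟨g, hg⟩ := hwin x hxX j (hj4 j hj)
      rw [hxh] at hg
      exact ⟨g, fun _ => hg⟩
    · exact ⟨0, fun h => absurd h hj⟩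
  choose g hg using hall
  -- pointwise bound
  have hpt : ∀ E : ℂ, ∑ j ∈ Finset.range J, ENNReal.ofReal (c0 / 2 * r ^ j) *
      (Bx (g j)).indicator (fun _ => (1 : ℝ≥0∞)) E ≤
      ENNReal.ofReal (‖E‖ ^ (-σ) * delta E ^ (γ + σ)) := by
    intro E
    have h1 : ∑ j ∈ Finset.range J, ENNReal.ofReal (c0 / 2 * r ^ j) *
        (Bx (g j)).indicator (fun _ => (1 : ℝ≥0∞)) E =
        ENNReal.ofReal (∑ j ∈ Finset.range J, if (j ∈ Finset.range J ∧ E ∈ Bx (g j)) then
          c0 / 2 * r ^ j else 0) := by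
      rw [ENNReal.ofReal_sum_of_nonneg]
      · apply Finset.sum_congr rfl
        intro j hj
        by_cases hE : E ∈ Bx (g j)
        · rw [Set.indicator_of_mem hE, if_pos ⟨hj, hE⟩, mul_one]
        · rw [Set.indicator_of_notMem hE, if_neg (fun h => hE h.2), mul_zero, ENNReal.ofReal_zero]
      · intro j _
        split_ifs
        · positivity
        · exact le_rfl
    rw [h1]
    apply ENNReal.ofReal_le_ofReal
    have h2 : ∑ j ∈ Finset.range J, (if (j ∈ Finset.range J ∧ E ∈ Bx (g j)) then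
        c0 / 2 * r ^ j else 0) = c0 / 2 * ∑ j ∈ Finset.range J,
          (if (j ∈ Finset.range J ∧ E ∈ Bx (g j)) then r ^ j else 0) := by
      rw [Finset.mul_sum]
      apply Finset.sum_congr rfl
      intro j _
      split_ifs
      · rfl
      · rw [mul_zero]
    rw [h2]
    have hw0 : 0 ≤ ‖E‖ ^ (-σ) * delta E ^ (γ + σ) := by
      have : 0 ≤ delta E := Metric.infDist_nonneg
      positivity
    have h3 := dyadic r hr0.le hr2 J (fun j => j ∈ Finset.range J ∧ E ∈ Bx (g j))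
      ((‖E‖ ^ (-σ) * delta E ^ (γ + σ)) / c0) (by positivity) (by
        rintro j ⟨hj, hE⟩
        have h4 := weight_ge d hσ0 hσ hγ (hg j hj).1 hE
        rw [le_div_iff₀ hc00]
        linarith)
    calc c0 / 2 * ∑ j ∈ Finset.range J,
          (if (j ∈ Finset.range J ∧ E ∈ Bx (g j)) then r ^ j else 0)
        ≤ c0 / 2 * (2 * ((‖E‖ ^ (-σ) * delta E ^ (γ + σ)) / c0)) :=
          mul_le_mul_of_nonneg_left h3 (by positivity)
      _ = _ := by field_simp
  have hsum : ∑ j ∈ Finset.range J, ENNReal.ofReal (c0 / 2 * r ^ j) *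
      (∑' E : ℂ, (Bx (g j)).indicator (fun E => (algMult h (VV d α) E : ℝ≥0∞)) E) ≤
      eigSum h (VV d α) γ σ := by
    unfold eigSum
    have h1 : ∀ j ∈ Finset.range J, ENNReal.ofReal (c0 / 2 * r ^ j) *
        (∑' E : ℂ, (Bx (g j)).indicator (fun E => (algMult h (VV d α) E : ℝ≥0∞)) E) =
        ∑' E : ℂ, (algMult h (VV d α) E : ℝ≥0∞) * (ENNReal.ofReal (c0 / 2 * r ^ j) *
          (Bx (g j)).indicator (fun _ => (1 : ℝ≥0∞)) E) := by
      intro j _
      rw [← ENNReal.tsum_mul_left]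
      apply tsum_congr
      intro E
      by_cases hE : E ∈ Bx (g j)
      · rw [Set.indicator_of_mem hE, Set.indicator_of_mem hE, mul_one, mul_comm]
      · rw [Set.indicator_of_notMem hE, Set.indicator_of_notMem hE]; simp
    rw [Finset.sum_congr rfl h1, ← Summable.tsum_finsetSum (fun j _ => ENNReal.summable)]
    apply ENNReal.tsum_le_tsum
    intro E
    rw [← Finset.mul_sum]
    exact mul_le_mul' le_rfl (hpt E)
  refine le_trans ?_ hsum
  have hterm : ∀ j ∈ Finset.range J, ENNReal.ofReal (c0 / 2 / (cm * h) ^ d) ≤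
      ENNReal.ofReal (c0 / 2 * r ^ j) *
      (∑' E : ℂ, (Bx (g j)).indicator (fun E => (algMult h (VV d α) E : ℝ≥0∞)) E) := by
    intro j hj
    obtain ⟨-, N, hN1, hN2⟩ := hg j hj
    have h1 : ENNReal.ofReal ((2 ^ j / (cm * h)) ^ d) ≤ (N : ℝ≥0∞) := by
      rw [← ENNReal.ofReal_natCast]
      exact ENNReal.ofReal_le_ofReal hN1
    calc ENNReal.ofReal (c0 / 2 / (cm * h) ^ d)
        = ENNReal.ofReal (c0 / 2 * r ^ j) * ENNReal.ofReal ((2 ^ j / (cm * h)) ^ d) := by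
          rw [← ENNReal.ofReal_mul (by positivity)]
          congr 1
          rw [hr, div_pow (2 ^ j), ← pow_mul, one_div_pow, ← pow_mul, mul_comm d j]
          field_simp
      _ ≤ _ := mul_le_mul' le_rfl (h1.trans hN2)
  calc ENNReal.ofReal (c0 / 2 / cm ^ d * (α / (8 * Real.log 4)) * Real.log (1 / h) / h ^ d)
      ≤ ENNReal.ofReal (J * (c0 / 2 / (cm * h) ^ d)) := by
        apply ENNReal.ofReal_le_ofReal
        have hlogh : Real.log (1 / h) = 2 * Real.log x := by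
          have : (1 : ℝ) / h = x ^ 2 := by rw [← hxh]; field_simp
          rw [this, Real.log_pow]
          norm_num
        rw [hlogh, mul_pow]
        have e1 : c0 / 2 / cm ^ d * (α / (8 * Real.log 4)) * (2 * Real.log x) / h ^ d =
            (α / 4 * Real.log x / Real.log 4) * (c0 / 2 / (cm ^ d * h ^ d)) := by
          field_simp
          ring
        rw [e1]
        exact mul_le_mul_of_nonneg_right hJ1 (by positivity)
    _ = ∑ j ∈ Finset.range J, ENNReal.ofReal (c0 / 2 / (cm * h) ^ d) := by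
        rw [Finset.sum_const, Finset.card_range, nsmul_eq_mul,
          ENNReal.ofReal_mul (Nat.cast_nonneg _), ENNReal.ofReal_natCast]
    _ ≤ _ := Finset.sum_le_sum hterm

end

end Pool.Agent.Q235.CP
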