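import Mathlib
import Pool.Agent.Q235.CP.Fin

set_option autoImplicit false

/-! the final statement -/

namespace Pool.Agent.Q235.CP

open MeasureTheory Filter Topology Complex
open scoped InnerProductSpace ENNReal
open KRS (EE HH)

noncomputable section

theorem chi_memLp (d : ℕ) (p : ℝ≥0∞) : MemLp (fun x : EE d => I * chi x) p volume := by
  apply MemLp.const_mul
  have h1 : (chi : EE d → ℂ) = (Metric.ball (0 : EE d) 1).indicator (fun _ => (1 : ℂ)) := by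
    funext x
    by_cases hx : ‖x‖ < 1
    · rw [chi_in x hx, Set.indicator_of_mem (by simpa using hx)]
    · rw [chi_out x hx, Set.indicator_of_notMem (by simpa using hx)]
  rw [h1]
  exact memLp_indicator_const p Metric.isOpen_ball.measurableSet 1 (Or.inr measure_ball_lt_top.ne)

theorem VV_memLp {d : ℕ} (hd : 1 ≤ d) {γ : ℝ} (hγ : 0 < γ) :
    MemLp (VV d (1 / (2 * (γ + d / 2)))) (ENNReal.ofReal (γ + d / 2)) volume := by
  have hp : 0 < γ + (d : ℝ) / 2 := by positivity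
  have h1 := Wf_memLp (d := d) hd (α := 1 / (2 * (γ + d / 2))) (p := γ + d / 2) hp (by
    field_simp)
  have h2 : MemLp (fun x : EE d => ((Wf d (1 / (2 * (γ + d / 2))) x : ℝ) : ℂ))
      (ENNReal.ofReal (γ + d / 2)) volume := h1.ofReal
  exact h2.add (chi_memLp d _)

theorem main (d : ℕ) (hd : 1 ≤ d) (γ : ℝ) (hγ : 0 < γ) :
    ∃ V : EE d → ℂ, MemLp V (ENNReal.ofReal (γ + d / 2)) volume ∧
      (∀ x, 1 ≤ ‖x‖ → V x = 0) ∧ (∀ x, 0 ≤ (V x).re ∧ 0 ≤ (V x).im ∧ (V x).im ≤ 1) ∧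
      (∃ c : ℝ, 0 < c ∧ ∃ h₀ : ℝ, 0 < h₀ ∧ ∀ σ : ℝ, 0 ≤ σ → σ ≤ d / 2 →
        ∀ h : ℝ, 0 < h → h < h₀ →
          ENNReal.ofReal (c * Real.log (1 / h) / h ^ d) ≤ eigSum h V γ σ) ∧
      ∀ σ : ℝ, 0 ≤ σ → σ ≤ d / 2 →
        Tendsto (fun h : ℝ => ENNReal.ofReal (h ^ d) * eigSum h V γ σ) (𝓝[>] 0) (𝓝 ⊤) := by
  have hd1 : (1 : ℝ) ≤ d := by exact_mod_cast hd
  have hp : 1 / 2 < γ + (d : ℝ) / 2 := by linarith
  have hα0 : 0 < 1 / (2 * (γ + (d : ℝ) / 2)) := by positivity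
  have hα4 : 1 / (2 * (γ + (d : ℝ) / 2)) ≤ 4 := by
    rw [div_le_iff₀ (by positivity)]
    linarith
  obtain ⟨c, hc, h₀, hh₀, hlow⟩ := lower d hd _ hα0 hα4 γ hγ
  refine ⟨VV d (1 / (2 * (γ + d / 2))), VV_memLp hd hγ, ?_, ?_, ⟨c, hc, h₀, hh₀, hlow⟩, ?_⟩
  · intro x hx
    have h1 : ¬ ‖x‖ < 1 := not_lt.2 hx
    unfold VV
    rw [chi_out x h1]
    have h2 : Wf d (1 / (2 * (γ + d / 2))) x = 0 := by
      unfold Wf
      rw [if_neg]
      rintro ⟨-, h3⟩
      have := one_le_pow₀ hx (n := 2)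
      linarith
    rw [h2]; simp
  · intro x
    have hW := Wf_nonneg (1 / (2 * (γ + (d : ℝ) / 2))) x
    unfold VV
    by_cases hx : ‖x‖ < 1
    · rw [chi_in x hx]
      generalize Wf d (1 / (2 * (γ + (d : ℝ) / 2))) x = w at hW
      simp [hW]
    · rw [chi_out x hx]
      generalize Wf d (1 / (2 * (γ + (d : ℝ) / 2))) x = w at hW
      simp [hW]
  · intro σ hσ0 hσ
    rw [ENNReal.tendsto_nhds_top_iff_nnreal]
    intro B
    have hlog : Tendsto (fun h : ℝ => c * Real.log (1 / h)) (𝓝[>] 0) atTop := by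
      apply Tendsto.const_mul_atTop hc
      have h5 : Tendsto (fun h : ℝ => 1 / h) (𝓝[>] 0) atTop := by
        simpa only [one_div] using tendsto_inv_nhdsGT_zero (𝕜 := ℝ)
      exact Real.tendsto_log_atTop.comp h5
    have h1 := hlog.eventually_gt_atTop (B : ℝ)
    have h2 : ∀ᶠ h : ℝ in 𝓝[>] 0, h < h₀ :=
      (eventually_lt_nhds hh₀).filter_mono nhdsWithin_le_nhds
    filter_upwards [h1, h2, self_mem_nhdsWithin] with h hB hh hpos
    have hpos' : (0 : ℝ) < h := hpos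
    have h3 := hlow σ hσ0 hσ h hpos' hh
    calc (B : ℝ≥0∞) = ENNReal.ofReal (B : ℝ) := (ENNReal.ofReal_coe_nnreal).symm
      _ < ENNReal.ofReal (c * Real.log (1 / h)) :=
        (ENNReal.ofReal_lt_ofReal_iff_of_nonneg B.2).2 hB
      _ = ENNReal.ofReal (h ^ d) * ENNReal.ofReal (c * Real.log (1 / h) / h ^ d) := by
        rw [← ENNReal.ofReal_mul (by positivity)]
        congr 1
        field_simp
      _ ≤ _ := mul_le_mul' le_rfl h3

end

end Pool.Agent.Q235.CP
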