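import Mathlib
import Pool.Agent.Q235.CP.Main

set_option autoImplicit false

/-! the statement in terms of functions instead of elements of `Lp` -/

namespace Pool.Agent.Q235.CP.F

open MeasureTheory Filter Topology Complex
open scoped InnerProductSpace ENNReal
open KRS (EE HH)

noncomputable section

/-- `D` is the weak gradient of `u`, all in `L²` -/
def IsGrad {d : ℕ} (u : EE d → ℂ) (D : Fin d → EE d → ℂ) : Prop :=
  MemLp u 2 volume ∧ (∀ i, MemLp (D i) 2 volume) ∧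
    ∀ (i : Fin d) (φ : EE d → ℂ), IsTest φ → ∫ x, u x * pder i φ x = - ∫ x, D i x * φ x

/-- form domain -/
def InForm {d : ℕ} (V : EE d → ℂ) (u : EE d → ℂ) (D : Fin d → EE d → ℂ) : Prop :=
  IsGrad u D ∧ Integrable (fun x => ‖V x‖ * ‖u x‖ ^ 2) volume

/-- `H u = f` -/
def IsHu {d : ℕ} (h : ℝ) (V : EE d → ℂ) (u f : EE d → ℂ) : Prop :=
  MemLp f 2 volume ∧ ∃ D : Fin d → EE d → ℂ, InForm V u D ∧
    ∀ (φ : EE d → ℂ) (E : Fin d → EE d → ℂ), InForm V φ E →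
      ((h ^ 2 : ℝ) : ℂ) * ∑ i, (∫ x, D i x * (starRingEnd ℂ) (E i x)) +
        ∫ x, V x * u x * (starRingEnd ℂ) (φ x) = ∫ x, f x * (starRingEnd ℂ) (φ x)

/-- generalised eigenfunctions -/
def IsGen {d : ℕ} (h : ℝ) (V : EE d → ℂ) (E : ℂ) (u : EE d → ℂ) : Prop :=
  ∃ (n : ℕ) (c : ℕ → EE d → ℂ), c 0 = u ∧ (∀ᵐ x, c n x = 0) ∧
    ∀ i < n, IsHu h V (c i) (fun x => c (i + 1) x + E * c i x)

/-- the algebraic multiplicity -/
def algMult {d : ℕ} (h : ℝ) (V : EE d → ℂ) (E : ℂ) : ℕ∞ :=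
  ⨆ (n : ℕ) (_ : ∃ u : Fin n → EE d → ℂ, (∀ i, IsGen h V E (u i)) ∧
    ∀ a : Fin n → ℂ, (∀ᵐ x, ∑ i, a i * u i x = 0) → a = 0), (n : ℕ∞)

/-- the eigenvalue sum -/
def eigSum {d : ℕ} (h : ℝ) (V : EE d → ℂ) (γ σ : ℝ) : ℝ≥0∞ :=
  ∑' E : ℂ, (algMult h V E : ℝ≥0∞) * ENNReal.ofReal (‖E‖ ^ (-σ) * delta E ^ (γ + σ))

variable {d : ℕ}

theorem isHu_conv {h : ℝ} {V : EE d → ℂ} {u f : HH d} {g : EE d → ℂ} (hg : (f : EE d → ℂ) =ᵐ[volume] g)
    (hu : CP.IsHu h V u f) : IsHu h V u g := by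
  obtain ⟨D, h1, h2, h3⟩ := hu
  refine ⟨(Lp.memLp f).ae_eq hg, fun i => D i, ⟨⟨Lp.memLp u, fun i => Lp.memLp (D i), h1⟩, h2⟩, ?_⟩
  rintro φ E ⟨⟨g1, g2, g3⟩, g4⟩
  have e1 := g1.coeFn_toLp
  have e2 := fun i => (g2 i).coeFn_toLp
  have k1 : CP.IsGrad (g1.toLp φ) (fun i => (g2 i).toLp (E i)) := by
    intro i ψ hψ
    have a1 : ∫ x, (g1.toLp φ : EE d → ℂ) x * pder i ψ x = ∫ x, φ x * pder i ψ x := by
      apply integral_congr_ae
      filter_upwards [e1] with x hx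
      rw [hx]
    have a2 : ∫ x, ((g2 i).toLp (E i) : EE d → ℂ) x * ψ x = ∫ x, E i x * ψ x := by
      apply integral_congr_ae
      filter_upwards [e2 i] with x hx
      rw [hx]
    rw [a1, a2]
    exact g3 i ψ hψ
  have k2 : CP.FinPot V (g1.toLp φ) := by
    refine g4.congr ?_
    filter_upwards [e1] with x hx
    rw [hx]
  have k3 := h3 _ _ k1 k2
  have b1 : ∀ i, ∫ x, (D i : EE d → ℂ) x * (starRingEnd ℂ) (E i x) =
      ∫ x, (D i : EE d → ℂ) x * (starRingEnd ℂ) (((g2 i).toLp (E i) : EE d → ℂ) x) := by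
    intro i
    apply integral_congr_ae
    filter_upwards [e2 i] with x hx
    rw [hx]
  have b2 : ∫ x, V x * u x * (starRingEnd ℂ) (φ x) =
      ∫ x, V x * u x * (starRingEnd ℂ) ((g1.toLp φ : EE d → ℂ) x) := by
    apply integral_congr_ae
    filter_upwards [e1] with x hx
    rw [hx]
  have b3 : ∫ x, g x * (starRingEnd ℂ) (φ x) =
      ∫ x, f x * (starRingEnd ℂ) ((g1.toLp φ : EE d → ℂ) x) := by
    apply integral_congr_ae
    filter_upwards [e1, hg] with x hx hx2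
    rw [hx, hx2]
  rw [b2, b3, ← k3]
  congr 2
  exact Finset.sum_congr rfl fun i _ => b1 i

theorem isGen_conv {h : ℝ} {V : EE d → ℂ} {E : ℂ} {u : HH d} (hu : CP.IsGen h V E u) :
    IsGen h V E u := by
  obtain ⟨n, c, h0, hn, hc⟩ := hu
  refine ⟨n, fun i => c i, congrArg (fun v : HH d => (v : EE d → ℂ)) h0, ?_, ?_⟩
  · show ∀ᵐ x, (c n : EE d → ℂ) x = 0
    rw [hn]
    filter_upwards [Lp.coeFn_zero ℂ 2 (volume : Measure (EE d))] with x hx
    rw [hx]; rfl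
  · intro i hi
    apply isHu_conv _ (hc i hi)
    filter_upwards [Lp.coeFn_add (c (i + 1)) (E • c i), Lp.coeFn_smul E (c i)] with x hx hx2
    rw [hx, Pi.add_apply, hx2, Pi.smul_apply, smul_eq_mul]

theorem algMult_le (h : ℝ) (V : EE d → ℂ) (E : ℂ) : CP.algMult h V E ≤ algMult h V E := by
  rw [← ENat.forall_natCast_le_iff_le]
  intro n hn
  obtain ⟨b, hb1, hb2, hb3⟩ := exists_linearIndependent ℂ {u : HH d | CP.IsGen h V E u}
  have hn2 : (n : Cardinal) ≤ Module.rank ℂ (CP.genSpace h V E) := by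
    unfold CP.algMult at hn
    exact Cardinal.natCast_le_toENat.1 hn
  have hn3 : (n : Cardinal) ≤ Cardinal.mk b := by
    have h1 : Module.rank ℂ (CP.genSpace h V E) = Cardinal.mk b := by
      unfold CP.genSpace
      rw [← hb2]
      exact rank_span_set (s := b) hb3
    rwa [h1] at hn2
  rw [← Cardinal.mk_fin n, Cardinal.le_def] at hn3
  obtain ⟨f⟩ := hn3
  unfold algMult
  refine le_iSup₂_of_le n ⟨fun i => ((f i : HH d) : EE d → ℂ), ?_, ?_⟩ le_rfl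
  · intro i
    exact isGen_conv (hb1 (f i).2)
  · intro a ha
    have h1 : LinearIndependent ℂ (fun i => ((f i : b) : HH d)) := hb3.comp f f.injective
    have h2 : ∑ i, a i • ((f i : b) : HH d) = 0 := by
      apply Lp.ext
      have k1 : ∀ᵐ x, ∀ i : Fin n, ((a i • ((f i : b) : HH d) : HH d) : EE d → ℂ) x =
          a i * ((f i : b) : HH d) x := by
        rw [ae_all_iff]
        intro i
        filter_upwards [Lp.coeFn_smul (a i) ((f i : b) : HH d)] with x hx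
        rw [hx, Pi.smul_apply, smul_eq_mul]
      filter_upwards [Lp.coeFn_fun_finsetSum Finset.univ (fun i => a i • ((f i : b) : HH d)), ha, k1,
        Lp.coeFn_zero ℂ 2 (volume : Measure (EE d))] with x hx1 hx2 hx3 hx4
      rw [hx1, hx4, Pi.zero_apply, ← hx2]
      exact Finset.sum_congr rfl fun i _ => hx3 i
    funext i
    exact Fintype.linearIndependent_iff.1 h1 a h2 i

theorem eigSum_le (h : ℝ) (V : EE d → ℂ) (γ σ : ℝ) : CP.eigSum h V γ σ ≤ eigSum h V γ σ := by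
  unfold CP.eigSum eigSum
  apply ENNReal.tsum_le_tsum
  intro E
  exact mul_le_mul' (ENat.toENNReal_mono (algMult_le h V E)) le_rfl

theorem main (d : ℕ) (hd : 1 ≤ d) (γ : ℝ) (hγ : 0 < γ) :
    ∃ V : EE d → ℂ, MemLp V (ENNReal.ofReal (γ + d / 2)) volume ∧
      (∀ x, 1 ≤ ‖x‖ → V x = 0) ∧ (∀ x, 0 ≤ (V x).re ∧ 0 ≤ (V x).im ∧ (V x).im ≤ 1) ∧
      (∃ c : ℝ, 0 < c ∧ ∃ h₀ : ℝ, 0 < h₀ ∧ ∀ σ : ℝ, 0 ≤ σ → σ ≤ d / 2 →
        ∀ h : ℝ, 0 < h → h < h₀ →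
          ENNReal.ofReal (c * Real.log (1 / h) / h ^ d) ≤ eigSum h V γ σ) ∧
      ∀ σ : ℝ, 0 ≤ σ → σ ≤ d / 2 →
        Tendsto (fun h : ℝ => ENNReal.ofReal (h ^ d) * eigSum h V γ σ) (𝓝[>] 0) (𝓝 ⊤) := by
  obtain ⟨V, h1, h2, h3, ⟨c, hc, h₀, hh₀, h4⟩, h5⟩ := CP.main d hd γ hγ
  refine ⟨V, h1, h2, h3, ⟨c, hc, h₀, hh₀, fun σ a b h k l =>
    (h4 σ a b h k l).trans (eigSum_le h V γ σ)⟩, fun σ a b => ?_⟩
  refine tendsto_nhds_top_mono (h5 σ a b) ?_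
  filter_upwards with h
  exact mul_le_mul' le_rfl (eigSum_le h V γ σ)

end

end Pool.Agent.Q235.CP.F
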